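import Pool.Agent.H402R2.BX.OpA

set_option autoImplicit false
open Finset Matrix
namespace Pool.Agent.H402R2.BX

theorem absorb (d : ℕ) (hd : 1 ≤ d)
    (decay : ∃ C : ℝ, 0 < C ∧ ∀ (M n j : ℕ) (f : Gr d M → ℂ), d ≤ j → Spec n f →
      NN (n+j) f ≤ C * (2:ℝ)^(-(3*(j:ℝ)/(4*d))) *
        ∑ m ∈ range (d*M), (2:ℝ)^(-(|(m:ℝ)-n|/(4*d))) * NN m f)
    (hD : ∃ C : ℝ, 0 < C ∧ ∀ (M K : ℕ), K ≤ M → ∀ (f : Gr d M → ℂ), ∀ m < K,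
      NN m f ≤ C * ((K:ℝ) - m)^d * L1 (PK K f))
    (mart : ∃ C : ℝ, 0 < C ∧ ∀ (M m : ℕ) (f : Gr d M → ℂ),
      L1 (∑ L ∈ Finset.Nat.antidiagonalTuple d m, DD L f) ≤ C * NN m f) :
    ∃ C : ℝ, 0 < C ∧ ∃ L : ℕ, ∀ (M n : ℕ) (f : Gr d M → ℂ),
      Spec n f → n + L ≤ M → ∀ m, NN m f ≤ C * (|(m:ℝ) - n| + 1)^d * L1 f := sorry

end Pool.Agent.H402R2.BX
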