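import Pool.Agent.H402R2.BX.BitsAv

set_option autoImplicit false
open Finset
namespace Pool.Agent.H402R2.BX
open Pool.Agent.H730R2.LD

/-- the bits of the coordinate `s` at the positions `≥ k` -/
def fullBits (d N : ℕ) (s : Fin d) (k : ℕ) : Finset (Fin d × Fin N) :=
  univ.filter (fun b => b.1 = s ∧ k ≤ b.2.val)

private theorem mem_fullBits {d N : ℕ} {s : Fin d} {k : ℕ} {b : Fin d × Fin N} :
    b ∈ fullBits d N s k ↔ b.1 = s ∧ k ≤ b.2.val := by
  unfold fullBits
  rw [mem_filter]
  exact and_iff_right (mem_univ _)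

private theorem fullBits_top {d N : ℕ} (s : Fin d) : fullBits d N s N = ∅ := by
  apply eq_empty_of_forall_notMem
  intro b hb
  rw [mem_fullBits] at hb
  have := b.2.isLt
  omega

private theorem insert_fullBits {d N : ℕ} (s : Fin d) {k : ℕ} (hk : k < N) :
    insert (s, (⟨k, hk⟩ : Fin N)) (fullBits d N s (k + 1)) = fullBits d N s k := by
  ext b
  rw [mem_insert, mem_fullBits, mem_fullBits]
  constructor
  · rintro (h | ⟨h1, h2⟩)
    · rw [h]
      exact ⟨rfl, le_rfl⟩
    · exact ⟨h1, by omega⟩
  · rintro ⟨h1, h2⟩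
    by_cases h : b.2.val = k
    · left
      exact Prod.ext h1 (Fin.ext h)
    · right
      exact ⟨h1, by omega⟩

/-- there is a full system on the bit space with the obvious averages, relation, signs -/
theorem exists_full (d N : ℕ) : ∃ S : Sys d N (Bt d N),
    (∀ s k f, S.E s k f = av (fullBits d N s k) f) ∧
    (∀ s k x y, S.rel s k x y ↔ agr (fullBits d N s k) x y) ∧
    (∀ s k x, S.r s k x = if h : k < N then bsg (s, ⟨k, h⟩) x else 1) := by
  refine ⟨{
    rel := fun s k x y => agr (fullBits d N s k) x y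
    E := fun s k => av (fullBits d N s k)
    r := fun s k x => if h : k < N then bsg (s, ⟨k, h⟩) x else 1
    rel_refl := fun _ _ _ _ _ _ => rfl
    rel_symm := fun _ _ _ _ h t i hi => (h t i hi).symm
    rel_trans := fun _ _ _ _ _ h1 h2 t i hi => (h1 t i hi).trans (h2 t i hi)
    rel_mono := ?_
    E_le := fun s k f g x h => av_le _ f g x h
    E_meas := fun s k f x y h => av_meas _ f x y h
    E_pull := fun s k φ f h => av_pull _ φ f h
    E_one := fun s k => av_one _
    E_sum := fun s k f => av_sum _ f
    E_comm := ?_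
    E_top := ?_
    r_sq := ?_
    r_other := ?_
    haar := ?_ }, fun _ _ _ => rfl, fun _ _ _ _ => Iff.rfl, fun _ _ _ => rfl⟩
  · intro s k l x y hkl h t i hi
    apply h t i
    intro hmem
    apply hi
    rw [mem_fullBits] at hmem ⊢
    exact ⟨hmem.1, hkl.trans hmem.2⟩
  · intro s t k l f _
    rw [av_av, av_av, Finset.union_comm]
  · intro s f
    rw [fullBits_top, av_empty]
  · intro s k x
    by_cases h : k < N
    · simp only [h, dif_pos]
      unfold bsg
      split_ifs <;> norm_num
    · simp only [h, dif_neg, not_false_eq_true, mul_one]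
  · intro s t k l x y hst h
    by_cases hk : k < N
    · simp only [hk, dif_pos]
      unfold bsg
      have h1 : x s ⟨k, hk⟩ = y s ⟨k, hk⟩ := by
        apply h s ⟨k, hk⟩
        rw [mem_fullBits]
        intro h2
        exact hst h2.1
      rw [h1]
    · simp only [hk, dif_neg, not_false_eq_true]
  · intro s k f hk
    have hr : (fun x : Bt d N => if h : k < N then bsg (s, ⟨k, h⟩) x else 1)
        = bsg (s, ⟨k, hk⟩) := by
      funext x
      rw [dif_pos hk]
    rw [hr, av_haar (fullBits d N s (k + 1)) (s, ⟨k, hk⟩) (by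
      rw [mem_fullBits]
      intro h
      have h2 : k + 1 ≤ k := h.2
      omega) f, insert_fullBits s hk]

/-- the full system -/
noncomputable def fS (d N : ℕ) : Sys d N (Bt d N) := (exists_full d N).choose

theorem fS_E {d N : ℕ} (s : Fin d) (k : ℕ) (f : Bt d N → ℝ) :
    (fS d N).E s k f = av (fullBits d N s k) f := (exists_full d N).choose_spec.1 s k f

theorem fS_rel {d N : ℕ} (s : Fin d) (k : ℕ) (x y : Bt d N) :
    (fS d N).rel s k x y ↔ agr (fullBits d N s k) x y :=
  (exists_full d N).choose_spec.2.1 s k x y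

theorem fS_r {d N : ℕ} (s : Fin d) (k : ℕ) (x : Bt d N) : (fS d N).r s k x =
    if h : k < N then bsg (s, ⟨k, h⟩) x else 1 :=
  (exists_full d N).choose_spec.2.2 s k x

end Pool.Agent.H402R2.BX
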