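import Pool.Agent.H402R2.BX.SparseD
import Pool.Agent.H402R2.BX.BitsF

set_option autoImplicit false
open Finset
namespace Pool.Agent.H402R2.BX
open Pool.Agent.H730R2.LD

/-- the bits of the coordinate `s` at the positions `J i + ρ`, `i ≥ k` -/
def sparseBits (d J R' : ℕ) (ρ : Fin d → ℕ) (s : Fin d) (k : ℕ) :
    Finset (Fin d × Fin (J * R')) :=
  univ.filter (fun b => b.1 = s ∧ b.2.val % J = ρ s ∧ J * k + ρ s ≤ b.2.val)

private theorem agr_mono {d N : ℕ} {A B : Finset (Fin d × Fin N)} {x y : Bt d N}
    (h : agr A x y) (hAB : A ⊆ B) : agr B x y :=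
  fun s i hi => h s i fun h' => hi (hAB h')

private theorem mem_sparse {d J R' : ℕ} {ρ : Fin d → ℕ} {s : Fin d} {k : ℕ}
    {b : Fin d × Fin (J * R')} : b ∈ sparseBits d J R' ρ s k ↔
      b.1 = s ∧ b.2.val % J = ρ s ∧ J * k + ρ s ≤ b.2.val := by
  unfold sparseBits
  rw [Finset.mem_filter]
  exact ⟨fun h => h.2, fun h => ⟨Finset.mem_univ _, h⟩⟩

private theorem sparse_full {d J R' : ℕ} (ρ : Fin d → ℕ) (s : Fin d) (k : ℕ) :
    sparseBits d J R' ρ s k ⊆ fullBits d (J * R') s (J * k + ρ s) := by
  intro b hb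
  rw [mem_sparse] at hb
  unfold fullBits
  rw [Finset.mem_filter]
  exact ⟨Finset.mem_univ _, hb.1, hb.2.2⟩

private theorem sparse_mono {d J R' : ℕ} (ρ : Fin d → ℕ) (s : Fin d) {k l : ℕ} (h : k ≤ l) :
    sparseBits d J R' ρ s l ⊆ sparseBits d J R' ρ s k := by
  intro b hb
  rw [mem_sparse] at hb ⊢
  have := Nat.mul_le_mul_left J h
  exact ⟨hb.1, hb.2.1, by omega⟩

private theorem sparse_top {d J R' : ℕ} (ρ : Fin d → ℕ) (s : Fin d) :
    sparseBits d J R' ρ s R' = ∅ := by
  rw [Finset.eq_empty_iff_forall_notMem]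
  intro b hb
  rw [mem_sparse] at hb
  have := b.2.isLt
  omega

private theorem pos_lt {J R' k r : ℕ} (hk : k < R') (hr : r < J) : J * k + r < J * R' := by
  have h1 : J * (k + 1) ≤ J * R' := Nat.mul_le_mul_left J hk
  rw [Nat.mul_succ] at h1
  omega

private theorem sparse_insert {d J R' : ℕ} (ρ : Fin d → ℕ) (s : Fin d) (hρ : ρ s < J)
    {k : ℕ} (hk : k < R') :
    insert (s, (⟨J * k + ρ s, pos_lt hk hρ⟩ : Fin (J * R'))) (sparseBits d J R' ρ s (k + 1)) =
      sparseBits d J R' ρ s k := by
  ext b
  rw [Finset.mem_insert, mem_sparse, mem_sparse]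
  constructor
  · rintro (rfl | h)
    · refine ⟨rfl, ?_, le_rfl⟩
      change (J * k + ρ s) % J = ρ s
      rw [Nat.mul_add_mod, Nat.mod_eq_of_lt hρ]
    · refine ⟨h.1, h.2.1, ?_⟩
      have h1 := h.2.2
      rw [Nat.mul_succ] at h1
      omega
  · rintro ⟨h1, h2, h3⟩
    have h4 := Nat.div_add_mod b.2.val J
    rw [h2] at h4
    have h5 : k ≤ b.2.val / J := by
      have : J * k ≤ J * (b.2.val / J) := by omega
      exact Nat.le_of_mul_le_mul_left this (by omega)
    rcases Nat.eq_or_lt_of_le h5 with h6 | h6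
    · left
      refine Prod.ext h1 (Fin.ext ?_)
      change b.2.val = J * k + ρ s
      rw [h6]
      exact h4.symm
    · right
      refine ⟨h1, h2, ?_⟩
      have : J * (k + 1) ≤ J * (b.2.val / J) := Nat.mul_le_mul_left J h6
      omega

private theorem not_mem_sparse {d J R' : ℕ} (ρ : Fin d → ℕ) (s : Fin d) (hρ : ρ s < J)
    {k : ℕ} (hk : k < R') :
    (s, (⟨J * k + ρ s, pos_lt hk hρ⟩ : Fin (J * R'))) ∉ sparseBits d J R' ρ s (k + 1) := by
  intro h
  have h1 := (mem_sparse.1 h).2.2
  change J * (k + 1) + ρ s ≤ J * k + ρ s at h1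
  rw [Nat.mul_succ] at h1
  omega

/-- the sparse systems exist -/
theorem exists_sparse (d J R' : ℕ) (hJ : 1 ≤ J) (ρ : Fin d → ℕ) (hρ : ∀ s, ρ s < J) :
    ∃ S' : Sys d R' (Bt d (J * R')), Sparse (fS d (J * R')) S' ρ := by
  have hcomm : ∀ (A B : Finset (Fin d × Fin (J * R'))) (f : Bt d (J * R') → ℝ),
      av A (av B f) = av B (av A f) := by
    intro A B f
    rw [av_av, av_av, Finset.union_comm]
  refine ⟨{ rel := fun s k x y => agr (sparseBits d J R' ρ s k) x y
            E := fun s k => av (sparseBits d J R' ρ s k)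
            r := fun s k => (fS d (J * R')).r s (J * k + ρ s)
            rel_refl := fun s k x t i _ => rfl
            rel_symm := fun s k x y h t i hi => (h t i hi).symm
            rel_trans := fun s k x y z h h' t i hi => (h t i hi).trans (h' t i hi)
            rel_mono := fun s k l x y hkl h => agr_mono h (sparse_mono ρ s hkl)
            E_le := fun s k f g x h => av_le _ f g x h
            E_meas := fun s k f x y h => av_meas _ f x y h
            E_pull := fun s k φ f h => av_pull _ φ f h
            E_one := fun s k => av_one _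
            E_sum := fun s k f => av_sum _ f
            E_comm := fun s t k l f _ => hcomm _ _ f
            E_top := fun s f => by
              rw [sparse_top, av_empty]
            r_sq := fun s k x => (fS d (J * R')).r_sq _ _ _
            r_other := fun s t k l x y hst h => by
              rw [fS_r, fS_r]
              by_cases hk : J * k + ρ s < J * R'
              · rw [dif_pos hk, dif_pos hk]
                have h1 : x s ⟨J * k + ρ s, hk⟩ = y s ⟨J * k + ρ s, hk⟩ :=
                  h s _ fun h' => hst (mem_sparse.1 h').1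
                unfold bsg
                simp only [h1]
              · rw [dif_neg hk, dif_neg hk]
            haar := fun s k f hk => by
              have h1 : (fS d (J * R')).r s (J * k + ρ s) =
                  bsg (s, (⟨J * k + ρ s, pos_lt hk (hρ s)⟩ : Fin (J * R'))) := by
                funext x
                rw [fS_r, dif_pos (pos_lt hk (hρ s))]
              rw [h1, av_haar _ _ (not_mem_sparse ρ s (hρ s) hk) f,
                sparse_insert ρ s (hρ s) hk] }, ?_⟩
  refine ⟨fun s k _ => rfl, fun s k f _ => ?_, fun s k x y h => ?_, fun s k t l f => ?_⟩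
  · rw [fS_E, fS_E]
    change av _ (av (sparseBits d J R' ρ s k) f) = _
    rw [av_av, Finset.union_eq_left.2 (sparse_full ρ s k)]
  · rw [fS_rel]
    exact agr_mono h (sparse_full ρ s k)
  · rw [fS_E, fS_E]
    exact hcomm _ _ f

end Pool.Agent.H402R2.BX
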