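import Pool.Agent.H730R2.LD.Main

set_option autoImplicit false
open Finset
namespace Pool.Agent.H402R2.BX

/-- bit space -/
abbrev Bt (d N : ℕ) := Fin d → Fin N → Bool

/-- replace the bits in `A` of `x` by those of `y` -/
def mix {d N : ℕ} (A : Finset (Fin d × Fin N)) (x y : Bt d N) : Bt d N :=
  fun s i => if (s,i) ∈ A then y s i else x s i

/-- average over the bits in `A` -/
noncomputable def av {d N : ℕ} (A : Finset (Fin d × Fin N)) : (Bt d N → ℝ) →ₗ[ℝ] (Bt d N → ℝ) where
  toFun f := fun x => (∑ y : Bt d N, f (mix A x y)) / Fintype.card (Bt d N)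
  map_add' f g := by
    ext x
    simp only [Pi.add_apply, Finset.sum_add_distrib, add_div]
  map_smul' c f := by
    ext x
    simp only [Pi.smul_apply, smul_eq_mul, ← Finset.mul_sum, mul_div_assoc, RingHom.id_apply]

variable {d N : ℕ}

/-- `x` and `y` agree off `A` -/
def agr (A : Finset (Fin d × Fin N)) (x y : Bt d N) : Prop := ∀ s i, (s,i) ∉ A → x s i = y s i

theorem agr_mix (A : Finset (Fin d × Fin N)) (x y : Bt d N) : agr A x (mix A x y) := by
  intro s i h
  simp [mix, h]

private theorem card_pos' : (0 : ℝ) < Fintype.card (Bt d N) := by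
  have : 0 < Fintype.card (Bt d N) := Fintype.card_pos
  exact_mod_cast this

private theorem av_apply (A : Finset (Fin d × Fin N)) (f : Bt d N → ℝ) (x : Bt d N) :
    av A f x = (∑ y : Bt d N, f (mix A x y)) / Fintype.card (Bt d N) := rfl

theorem av_empty (f : Bt d N → ℝ) : av ∅ f = f := by
  funext x
  rw [av_apply]
  have h : ∀ y : Bt d N, mix ∅ x y = x := by
    intro y; funext s i; simp [mix]
  simp only [h, Finset.sum_const, Finset.card_univ, nsmul_eq_mul]
  have := card_pos' (d := d) (N := N)
  field_simp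

private theorem mix_mix (A B : Finset (Fin d × Fin N)) (x y z : Bt d N) :
    mix B (mix A x y) z = mix (A ∪ B) x (mix B y z) := by
  funext s i
  by_cases h1 : (s,i) ∈ B <;> by_cases h2 : (s,i) ∈ A <;> simp [mix, h1, h2]

/-- the swap of the bits in `B` -/
private def sw (B : Finset (Fin d × Fin N)) : Bt d N × Bt d N ≃ Bt d N × Bt d N where
  toFun p := (mix B p.1 p.2, mix B p.2 p.1)
  invFun p := (mix B p.1 p.2, mix B p.2 p.1)
  left_inv p := by
    ext s i <;> by_cases h1 : (s,i) ∈ B <;> simp [mix, h1]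
  right_inv p := by
    ext s i <;> by_cases h1 : (s,i) ∈ B <;> simp [mix, h1]

private theorem sum_mix (B : Finset (Fin d × Fin N)) (g : Bt d N → ℝ) :
    ∑ y : Bt d N, ∑ z : Bt d N, g (mix B y z) = Fintype.card (Bt d N) * ∑ y, g y := by
  have h1 : ∑ y : Bt d N, ∑ z : Bt d N, g (mix B y z) = ∑ p : Bt d N × Bt d N, g (sw B p).1 := by
    rw [Fintype.sum_prod_type]; rfl
  rw [h1, Equiv.sum_comp (sw B) (fun p => g p.1), Fintype.sum_prod_type]
  simp only [Finset.sum_const, Finset.card_univ, nsmul_eq_mul, Finset.mul_sum]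

theorem av_av (A B : Finset (Fin d × Fin N)) (f : Bt d N → ℝ) : av A (av B f) = av (A ∪ B) f := by
  funext x
  rw [av_apply, av_apply]
  simp only [av_apply]
  have hp := card_pos' (d := d) (N := N)
  have h2 : ∑ y : Bt d N, (∑ z : Bt d N, f (mix B (mix A x y) z)) / (Fintype.card (Bt d N) : ℝ)
      = (∑ y : Bt d N, ∑ z : Bt d N, f (mix (A ∪ B) x (mix B y z))) / Fintype.card (Bt d N) := by
    rw [Finset.sum_div]
    simp only [mix_mix]
  rw [h2, sum_mix B (fun y => f (mix (A ∪ B) x y))]
  field_simp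

private theorem mix_agr (A : Finset (Fin d × Fin N)) (x y z : Bt d N) (h : agr A x y) :
    mix A x z = mix A y z := by
  funext s i
  by_cases h1 : (s,i) ∈ A
  · simp [mix, h1]
  · simp [mix, h1, h s i h1]

theorem av_meas (A : Finset (Fin d × Fin N)) (f : Bt d N → ℝ) (x y : Bt d N) (h : agr A x y) :
    av A f x = av A f y := by
  rw [av_apply, av_apply]
  simp only [mix_agr A x y _ h]

theorem av_le (A : Finset (Fin d × Fin N)) (f g : Bt d N → ℝ) (x : Bt d N)
    (h : ∀ y, agr A x y → f y ≤ g y) : av A f x ≤ av A g x := by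
  rw [av_apply, av_apply]
  exact div_le_div_of_nonneg_right (Finset.sum_le_sum fun y _ => h _ (agr_mix A x y))
    card_pos'.le

theorem av_pull (A : Finset (Fin d × Fin N)) (φ f : Bt d N → ℝ)
    (h : ∀ x y, agr A x y → φ x = φ y) : av A (φ * f) = φ * av A f := by
  funext x
  rw [Pi.mul_apply, av_apply, av_apply]
  simp only [Pi.mul_apply, ← h x _ (agr_mix A x _), ← Finset.mul_sum, mul_div_assoc]

theorem av_one (A : Finset (Fin d × Fin N)) : av A (1 : Bt d N → ℝ) = 1 := by
  funext x
  rw [av_apply]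
  have hp := card_pos' (d := d) (N := N)
  simp only [Pi.one_apply, Finset.sum_const, Finset.card_univ, nsmul_eq_mul, mul_one]
  exact div_self hp.ne'

theorem av_sum (A : Finset (Fin d × Fin N)) (f : Bt d N → ℝ) : ∑ x, av A f x = ∑ x, f x := by
  simp only [av_apply]
  have hp := card_pos' (d := d) (N := N)
  rw [← Finset.sum_div, sum_mix A f]
  field_simp

/-- sign of the bit `b` -/
noncomputable def bsg (b : Fin d × Fin N) : Bt d N → ℝ := fun x => if x b.1 b.2 then 1 else -1

/-- flip of one bit -/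
private def fl (b : Fin d × Fin N) (y : Bt d N) : Bt d N :=
  fun s i => if (s,i) = b then !(y s i) else y s i

private theorem fl_fl (b : Fin d × Fin N) (y : Bt d N) : fl b (fl b y) = y := by
  funext s i
  by_cases h1 : (s,i) = b <;> simp [fl, h1]

private def flE (b : Fin d × Fin N) : Bt d N ≃ Bt d N where
  toFun := fl b
  invFun := fl b
  left_inv := fl_fl b
  right_inv := fl_fl b

private theorem key (A : Finset (Fin d × Fin N)) (b : Fin d × Fin N) (hb : b ∉ A)
    (x y : Bt d N) :
    (mix (insert b A) x y = mix A x y ∧ bsg b x * bsg b (mix (insert b A) x y) = 1 ∧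
      bsg b x * bsg b (mix (insert b A) x (fl b y)) = -1) ∨
    (mix (insert b A) x (fl b y) = mix A x y ∧ bsg b x * bsg b (mix (insert b A) x y) = -1 ∧
      bsg b x * bsg b (mix (insert b A) x (fl b y)) = 1) := by
  obtain ⟨s0, i0⟩ := b
  by_cases hxy : x s0 i0 = y s0 i0
  · left
    refine ⟨?_, ?_, ?_⟩
    · funext s i
      by_cases h1 : (s,i) = (s0,i0)
      · obtain ⟨rfl, rfl⟩ := Prod.mk.inj h1
        simp [mix, hb, hxy]
      · simp [mix, h1]
    · simp only [bsg, mix, Finset.mem_insert_self, if_true, hxy]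
      split_ifs <;> norm_num
    · simp only [bsg, mix, Finset.mem_insert_self, if_true, hxy, fl]
      cases y s0 i0 <;> norm_num
  · right
    have hxy' : x s0 i0 = !(y s0 i0) := by
      cases h1 : x s0 i0 <;> cases h2 : y s0 i0 <;> simp_all
    refine ⟨?_, ?_, ?_⟩
    · funext s i
      by_cases h1 : (s,i) = (s0,i0)
      · obtain ⟨rfl, rfl⟩ := Prod.mk.inj h1
        simp [mix, hb, hxy', fl]
      · simp [mix, h1, fl]
    · simp only [bsg, mix, Finset.mem_insert_self, if_true, hxy', fl]
      cases y s0 i0 <;> norm_num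
    · simp only [bsg, mix, Finset.mem_insert_self, if_true, hxy', fl]
      cases y s0 i0 <;> norm_num

/-- the one bit Haar identity -/
theorem av_haar (A : Finset (Fin d × Fin N)) (b : Fin d × Fin N) (hb : b ∉ A) (f : Bt d N → ℝ) :
    av A f = av (insert b A) f + bsg b * av (insert b A) (bsg b * f) := by
  funext x
  rw [Pi.add_apply, Pi.mul_apply, av_apply, av_apply, av_apply]
  have hp := card_pos' (d := d) (N := N)
  rw [← mul_div_assoc, ← add_div, Finset.mul_sum, ← Finset.sum_add_distrib]
  congr 1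
  set F : Bt d N → ℝ := fun y => f (mix (insert b A) x y) +
    bsg b x * (bsg b * f) (mix (insert b A) x y) with hF
  have h1 : ∑ y, F (fl b y) = ∑ y, F y := Equiv.sum_comp (flE b) F
  have h2 : ∀ y, F y + F (fl b y) = 2 * f (mix A x y) := by
    intro y
    simp only [hF, Pi.mul_apply]
    rcases key A b hb x y with ⟨h3, h4, h5⟩ | ⟨h3, h4, h5⟩
    · rw [← h3]
      linear_combination f (mix (insert b A) x y) * h4 + f (mix (insert b A) x (fl b y)) * h5
    · rw [← h3]
      linear_combination f (mix (insert b A) x y) * h4 + f (mix (insert b A) x (fl b y)) * h5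
  have h3 : ∑ y, (F y + F (fl b y)) = 2 * ∑ y, f (mix A x y) := by
    rw [Finset.mul_sum]; exact Finset.sum_congr rfl fun y _ => h2 y
  rw [Finset.sum_add_distrib, h1] at h3
  show _ = ∑ y, F y
  linarith

end Pool.Agent.H402R2.BX
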