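import Pool.Agent.H402R2.BX.Defs
import Pool.Agent.Helper643.Bern.Main

set_option autoImplicit false
open Finset Matrix
namespace Pool.Agent.H402R2.BX

private theorem b8_sqS_mono {M : ℕ} {T : ℕ → Mat M} {γ γ' : ℝ} (h : SqS M T γ) (hγ : γ ≤ γ') :
    SqS M T γ' := by
  intro F hF
  exact (h F hF).trans (mul_le_mul_of_nonneg_right hγ
    (Finset.sum_nonneg (fun _ _ => Real.sqrt_nonneg _)))

private theorem b8_smS_mono {M : ℕ} {T : ℕ → Mat M} {γ γ' : ℝ} (h : SmS M T γ) (hγ : γ ≤ γ') :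
    SmS M T γ' := by
  intro F hF
  exact (h F hF).trans (mul_le_mul_of_nonneg_right hγ
    (Finset.sum_nonneg (fun _ _ => Real.sqrt_nonneg _)))

/-- low pass followed by a Haar block (scalar bounds of Helper643/Bern, `ST13a.vfam`) -/
theorem vfam : ∃ C : ℝ, 1 ≤ C ∧ ∀ (M q : ℕ) (w : ℤ),
    SqS M (shf (fun p => BernT.Dm M (p+q) * BernT.Vm M p) w)
      (C * (1/2)^q * (2:ℝ)^(-(|(w:ℝ)|/2))) := by
  open BernT in
  obtain ⟨C, hC, h⟩ := ST13a.vfam ST3.formA ST4.formB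
    (fun M a p a' h1 h2 h3 A hA κ h4 h5 => ST7.kVA M a p a' h1 h2 h3 A hA κ h4 h5)
    (fun M p a' h1 A hA κ h4 h5 => ST7.kVB M p a' h1 A hA κ h4 h5)
    (ST10.vker (fun M B p μ A h1 h2 h3 h4 => ST9.kerBound M B p μ A h1 h2 h3 h4))
    (fun M T δ hδ hfar hL2 => (ST2.famOp
      (fun M Nrm h0 hadd δ hδ hH => ST1.glc M Nrm h0 hadd δ hδ hH) M T δ hδ hfar).1 hL2)
  refine ⟨max C 1, le_max_right _ _, fun M q w => ?_⟩
  have h1 : SqS M (shf (fun p => BernT.Dm M (p+q) * BernT.Vm M p) w)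
      (C * (1/2)^q * (2:ℝ)^(-(|(w:ℝ)|/2))) := fun F hF => h M q w F hF
  refine b8_sqS_mono h1 ?_
  have h2 : (0:ℝ) ≤ (1/2)^q * (2:ℝ)^(-(|(w:ℝ)|/2)) := by positivity
  rw [mul_assoc, mul_assoc]
  exact mul_le_mul_of_nonneg_right (le_max_left _ _) h2

private theorem b8_Dm_haar {M a b : ℕ} (hab : a ≠ b) {v : Fin (2^M) → ℂ} (hv : BernT.Haar M b v) :
    BernT.Dm M a *ᵥ v = 0 := by
  unfold BernT.Haar at hv
  rw [← hv, Matrix.mulVec_mulVec, BernT.ST15c.Dm_mul_ne M a b hab, Matrix.zero_mulVec]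

/-- the Haar projections themselves -/
theorem dfam (M : ℕ) (w : ℤ) :
    SqS M (shf (fun p => BernT.Dm M p) w) ((2:ℝ)^(-(|(w:ℝ)|/2))) := by
  intro F hF
  by_cases hw : w = 0
  · subst hw
    have e : ∀ a : ℕ, shf (fun p => BernT.Dm M p) (0 : ℤ) a *ᵥ F a = F a := by
      intro a
      have h1 : shf (fun p => BernT.Dm M p) (0 : ℤ) a = BernT.Dm M a := by
        unfold shf
        rw [sub_zero, if_pos (Int.natCast_nonneg a), Int.toNat_natCast]
      rw [h1]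
      exact hF a
    simp only [e]
    simp
  · have e : ∀ a : ℕ, shf (fun p => BernT.Dm M p) w a *ᵥ F a = 0 := by
      intro a
      unfold shf
      split_ifs with h
      · exact b8_Dm_haar (by omega) (hF a)
      · rw [Matrix.zero_mulVec]
    simp only [e]
    have h0 : ∑ x : Fin (2^M), Real.sqrt (∑ a ∈ range M, ‖(0 : Fin (2^M) → ℂ) x‖^2) = 0 := by
      simp
    rw [h0]
    exact mul_nonneg (by positivity) (Finset.sum_nonneg (fun _ _ => Real.sqrt_nonneg _))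

/-- derivative blocks (scalar bounds of Helper643/Bern, `ST13b.mfam`) -/
theorem mfam (r : ℝ) (hr : 0 ≤ r) : ∃ C : ℝ, 1 ≤ C ∧ ∀ (M : ℕ) (u v : ℂ), ‖u‖ ≤ 1 → ‖v‖ ≤ 1 →
    ∀ (w : ℤ), SmS M (shf (fun p => if p + 2 ≤ M then BernT.Mm r u v M p else 0) w)
      (C * (2:ℝ)^(-(|(w:ℝ)|/2))) := by
  open BernT in
  obtain ⟨C, hC, h⟩ := ST13b.mfam ST3.formA ST4.formB
    (fun M a p h1 h2 A hA κ h3 h4 => ST5.kAm M a p h1 h2 A hA κ h3 h4)
    (fun M p A hA κ κ' h1 h2 h3 => ST5.kBm M p A hA κ κ' h1 h2 h3) r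
    (SS3.mker (fun M B p μ A h1 h2 h3 h4 => ST9.kerBound M B p μ A h1 h2 h3 h4) SS2.symE r
      (SS1.symR r hr))
    (fun M n B hB μ hμ v => ST12.nearOrth M n B hB μ hμ v)
    (fun M T δ hδ hfar => ST2.famOp
      (fun M Nrm h0 hadd δ hδ hH => ST1.glc M Nrm h0 hadd δ hδ hH) M T δ hδ hfar)
  refine ⟨max C 1, le_max_right _ _, fun M u v hu hv w => ?_⟩
  have e : shf (fun p => if p + 2 ≤ M then BernT.Mm r u v M p else 0) w =
      BernT.TM r u v M w := by
    funext a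
    unfold shf BernT.TM
    by_cases h1 : 0 ≤ (a:ℤ) - w
    · by_cases h2 : ((a:ℤ) - w).toNat + 2 ≤ M
      · rw [if_pos h1, if_pos ⟨h1, h2⟩]
        exact if_pos h2
      · rw [if_pos h1, if_neg (fun h3 => h2 h3.2)]
        exact if_neg h2
    · rw [if_neg h1, if_neg (fun h3 => h1 h3.1)]
  rw [e]
  have h1 : SmS M (BernT.TM r u v M w) (C * (2:ℝ)^(-(|(w:ℝ)|/2))) :=
    fun F hF => (h M u v hu hv w F hF).2
  refine b8_smS_mono h1 ?_
  exact mul_le_mul_of_nonneg_right (le_max_left _ _) (by positivity)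

/-- the identity -/
theorem idfam (M : ℕ) : SmS M (fun _ => (1 : Mat M)) 4 := by
  intro F hF
  have main := BernT.ST1.glc M (fun G => ∑ x, ‖∑ a ∈ range M, G a x‖) (by simp)
    (by
      intro G H
      rw [← Finset.sum_add_distrib]
      refine Finset.sum_le_sum (fun x _ => ?_)
      have : ∑ a ∈ range M, (G + H) a x = ∑ a ∈ range M, G a x + ∑ a ∈ range M, H a x := by
        rw [← Finset.sum_add_distrib]; rfl
      rw [this]; exact norm_add_le _ _) 1 zero_le_one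
    (by
      intro q hq c hc G hG _ hsupp
      have hz : ∀ x : Fin (2^M), (x:ℕ)/2^(M-q) ≠ c → ‖∑ a ∈ range M, G a x‖ = 0 := by
        intro x hx
        rw [Finset.sum_eq_zero (fun a _ => hsupp a x hx), norm_zero]
      have e1 : ∑ x, ‖∑ a ∈ range M, G a x‖ =
          ∑ x ∈ univ.filter (fun w : Fin (2^M) => (w:ℕ)/2^(M-q) = c), ‖∑ a ∈ range M, G a x‖ := by
        rw [Finset.sum_filter]
        refine Finset.sum_congr rfl (fun x _ => ?_)
        by_cases hx : (x:ℕ)/2^(M-q) = c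
        · rw [if_pos hx]
        · rw [if_neg hx, hz x hx]
      have e2 : (∑ x ∈ univ.filter (fun w : Fin (2^M) => (w:ℕ)/2^(M-q) = c), (1:ℝ)^2) = 2^(M-q) := by
        rw [one_pow, Finset.sum_const, BernT.ST15c.card_block M q c hc hq.le]; simp
      have e3 : ∑ x ∈ univ.filter (fun w : Fin (2^M) => (w:ℕ)/2^(M-q) = c), ‖∑ a ∈ range M, G a x‖^2
          ≤ ∑ a ∈ range M, ∑ x, ‖G a x‖^2 := by
        rw [← BernT.ST15c.orth_sum M G hG]
        exact Finset.sum_le_sum_of_subset_of_nonneg (Finset.filter_subset _ _)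
          (fun _ _ _ => by positivity)
      rw [e1, one_mul]
      have hcs : (∑ x ∈ univ.filter (fun w : Fin (2^M) => (w:ℕ)/2^(M-q) = c), ‖∑ a ∈ range M, G a x‖)^2
          ≤ 2^(M-q) * ∑ a ∈ range M, ∑ x, ‖G a x‖^2 := by
        have := Finset.sum_mul_sq_le_sq_mul_sq (univ.filter (fun w : Fin (2^M) => (w:ℕ)/2^(M-q) = c))
          (fun _ => (1:ℝ)) (fun x => ‖∑ a ∈ range M, G a x‖)
        simp only [one_mul] at this
        rw [e2] at this
        exact this.trans (mul_le_mul_of_nonneg_left e3 (by positivity))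
      rw [← Real.sqrt_mul (by positivity)]
      exact Real.le_sqrt_of_sq_le hcs) F hF
  rw [mul_one] at main
  have e : ∀ x : Fin (2^M), ∑ a ∈ range M, ((1 : Mat M) *ᵥ F a) x = ∑ a ∈ range M, F a x := by
    intro x
    refine Finset.sum_congr rfl (fun a _ => ?_)
    rw [Matrix.one_mulVec]
  simp only [e]
  exact main

end Pool.Agent.H402R2.BX
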