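import Mathlib

set_option autoImplicit false
open Finset
namespace Pool.Agent.H402R2.BX

private theorem numC_geom : ∃ c0 : ℝ, 0 < c0 ∧ ∀ W M : ℕ,
    ∑ w ∈ Icc (-(W:ℤ)) (M:ℤ), (2:ℝ)^(-(|(w:ℝ)|/4)) ≤ c0 := by
  set q : ℝ := (2:ℝ)^(-(1/4:ℝ)) with hq
  have hq0 : 0 < q := by rw [hq]; positivity
  have hq1 : q < 1 := by
    rw [hq]
    exact Real.rpow_lt_one_of_one_lt_of_neg (by norm_num) (by norm_num)
  have hpow : ∀ k : ℕ, (2:ℝ)^(-((k:ℝ)/4)) = q ^ k := by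
    intro k
    rw [hq, ← Real.rpow_natCast, ← Real.rpow_mul (by norm_num)]
    congr 1; ring
  have hsum : ∀ n : ℕ, ∑ k ∈ range n, q ^ k ≤ (1 - q)⁻¹ := by
    intro n
    rw [← tsum_geometric_of_lt_one hq0.le hq1]
    exact (summable_geometric_of_lt_one hq0.le hq1).sum_le_tsum _ (fun k _ => by positivity)
  have h1q : 0 < (1 - q)⁻¹ := inv_pos.2 (by linarith)
  refine ⟨(1 - q)⁻¹ + (1 - q)⁻¹, by positivity, ?_⟩
  intro W M
  have hsub : Icc (-(W:ℤ)) (M:ℤ) ⊆ (range (M+1)).image (fun k : ℕ => (k:ℤ)) ∪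
      (range (W+1)).image (fun k : ℕ => -(k:ℤ)) := by
    intro w hw
    rw [Finset.mem_Icc] at hw
    rw [Finset.mem_union, Finset.mem_image, Finset.mem_image]
    rcases le_total 0 w with h | h
    · left
      exact ⟨w.toNat, Finset.mem_range.2 (by omega), by omega⟩
    · right
      exact ⟨(-w).toNat, Finset.mem_range.2 (by omega), by omega⟩
  have hnn : ∀ w : ℤ, 0 ≤ (2:ℝ)^(-(|(w:ℝ)|/4)) := fun w => by positivity
  refine (Finset.sum_le_sum_of_subset_of_nonneg hsub (fun w _ _ => hnn w)).trans ?_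
  have hun := Finset.sum_union_inter (s₁ := (range (M+1)).image (fun k : ℕ => (k:ℤ)))
    (s₂ := (range (W+1)).image (fun k : ℕ => -(k:ℤ))) (f := fun w : ℤ => (2:ℝ)^(-(|(w:ℝ)|/4)))
  have hint : 0 ≤ ∑ w ∈ (range (M+1)).image (fun k : ℕ => (k:ℤ)) ∩
      (range (W+1)).image (fun k : ℕ => -(k:ℤ)), (2:ℝ)^(-(|(w:ℝ)|/4)) :=
    Finset.sum_nonneg fun w _ => hnn w
  have e1 : ∑ w ∈ (range (M+1)).image (fun k : ℕ => (k:ℤ)), (2:ℝ)^(-(|(w:ℝ)|/4)) ≤ (1 - q)⁻¹ := by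
    rw [Finset.sum_image (by intro a _ b _ h; simpa using h)]
    refine le_trans (le_of_eq (Finset.sum_congr rfl fun k _ => ?_)) (hsum (M+1))
    rw [Int.cast_natCast, abs_of_nonneg (Nat.cast_nonneg k), hpow]
  have e2 : ∑ w ∈ (range (W+1)).image (fun k : ℕ => -(k:ℤ)), (2:ℝ)^(-(|(w:ℝ)|/4)) ≤
      (1 - q)⁻¹ := by
    rw [Finset.sum_image (by intro a _ b _ h; simpa using h)]
    refine le_trans (le_of_eq (Finset.sum_congr rfl fun k _ => ?_)) (hsum (W+1))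
    rw [Int.cast_neg, Int.cast_natCast, abs_neg, abs_of_nonneg (Nat.cast_nonneg k), hpow]
  linarith

/-- summation over the offsets `w`: the total offset costs `2^{-|·|/4}` -/
theorem numC (d : ℕ) : ∃ C : ℝ, 0 < C ∧ ∀ (W M J μ : ℕ) (N : ℕ → ℝ), (∀ m, 0 ≤ N m) →
    (∀ m, J ≤ m → N m = 0) →
    ∑ w ∈ Fintype.piFinset (fun _ : Fin d => Icc (-(W:ℤ)) (M:ℤ)),
      (∏ s, (2:ℝ)^(-(|(w s:ℝ)|/2))) *
        (if 0 ≤ (μ:ℤ) + ∑ s, w s then N ((μ:ℤ) + ∑ s, w s).toNat else 0) ≤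
      C * ∑ m ∈ range J, (2:ℝ)^(-(|(m:ℝ)-μ|/4)) * N m := by
  obtain ⟨c0, hc0, hsum⟩ := numC_geom
  refine ⟨c0 ^ d, by positivity, ?_⟩
  intro W M J μ N hN hJ
  set R : ℝ := ∑ m ∈ range J, (2:ℝ)^(-(|(m:ℝ)-μ|/4)) * N m with hR
  have hR0 : 0 ≤ R := by
    rw [hR]
    exact Finset.sum_nonneg fun m _ => mul_nonneg (by positivity) (hN m)
  have hterm : ∀ w ∈ Fintype.piFinset (fun _ : Fin d => Icc (-(W:ℤ)) (M:ℤ)),
      (∏ s, (2:ℝ)^(-(|(w s:ℝ)|/2))) *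
        (if 0 ≤ (μ:ℤ) + ∑ s, w s then N ((μ:ℤ) + ∑ s, w s).toNat else 0) ≤
      (∏ s, (2:ℝ)^(-(|(w s:ℝ)|/4))) * R := by
    intro w _
    have hp4 : 0 ≤ ∏ s, (2:ℝ)^(-(|(w s:ℝ)|/4)) := Finset.prod_nonneg fun s _ => by positivity
    split_ifs with hpos
    · obtain ⟨m, hm⟩ : ∃ m : ℕ, (m:ℤ) = (μ:ℤ) + ∑ s, w s := ⟨((μ:ℤ) + ∑ s, w s).toNat, by omega⟩
      rw [← hm, Int.toNat_natCast]
      have hsplit : (∏ s, (2:ℝ)^(-(|(w s:ℝ)|/2))) =
          (∏ s, (2:ℝ)^(-(|(w s:ℝ)|/4))) * ∏ s, (2:ℝ)^(-(|(w s:ℝ)|/4)) := by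
        rw [← Finset.prod_mul_distrib]
        refine Finset.prod_congr rfl fun s _ => ?_
        rw [← Real.rpow_add (by norm_num)]
        congr 1; ring
      have hdiff : ∏ s, (2:ℝ)^(-(|(w s:ℝ)|/4)) ≤ (2:ℝ)^(-(|(m:ℝ)-μ|/4)) := by
        rw [← Real.rpow_sum_of_pos (by norm_num)]
        refine Real.rpow_le_rpow_of_exponent_le (by norm_num) ?_
        have hmr : (m:ℝ) - μ = ∑ s, (w s:ℝ) := by
          have : ((m:ℤ):ℝ) = (((μ:ℤ) + ∑ s, w s : ℤ):ℝ) := by rw [hm]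
          push_cast at this
          linarith
        have habs : |(m:ℝ) - μ| ≤ ∑ s, |(w s:ℝ)| := by
          rw [hmr]; exact Finset.abs_sum_le_sum_abs _ _
        rw [Finset.sum_neg_distrib, ← Finset.sum_div]
        linarith
      have hlast : (2:ℝ)^(-(|(m:ℝ)-μ|/4)) * N m ≤ R := by
        by_cases hmJ : m < J
        · rw [hR]
          exact Finset.single_le_sum (f := fun m : ℕ => (2:ℝ)^(-(|(m:ℝ)-μ|/4)) * N m)
            (fun i _ => mul_nonneg (by positivity) (hN i)) (Finset.mem_range.2 hmJ)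
        · rw [hJ m (by omega), mul_zero]; exact hR0
      rw [hsplit, mul_assoc]
      refine mul_le_mul_of_nonneg_left ?_ hp4
      exact (mul_le_mul_of_nonneg_right hdiff (hN m)).trans hlast
    · rw [mul_zero]; exact mul_nonneg hp4 hR0
  refine (Finset.sum_le_sum hterm).trans ?_
  rw [← Finset.sum_mul]
  refine mul_le_mul_of_nonneg_right ?_ hR0
  have hps := Finset.prod_univ_sum (fun _ : Fin d => Icc (-(W:ℤ)) (M:ℤ))
    (fun (_ : Fin d) (w : ℤ) => (2:ℝ)^(-(|(w:ℝ)|/4)))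
  rw [← hps, Finset.prod_const, Finset.card_univ, Fintype.card_fin]
  exact pow_le_pow_left₀ (Finset.sum_nonneg fun w _ => by positivity) (hsum W M) d

end Pool.Agent.H402R2.BX
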