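import Pool.Agent.H402R2.BX.GL
import Pool.Agent.H402R2.BX.Fam
import Pool.Agent.H402R2.BX.Num

set_option autoImplicit false
open Finset Matrix
namespace Pool.Agent.H402R2.BX

theorem mart (d : ℕ) : ∃ C : ℝ, 0 < C ∧ ∀ (M m : ℕ) (f : Gr d M → ℂ),
    L1 (∑ L ∈ Finset.Nat.antidiagonalTuple d m, DD L f) ≤ C * NN m f := sorry

theorem blockSum (d : ℕ) (hd : 1 ≤ d) (r : ℝ) (hr : 0 ≤ r) : ∃ C : ℝ, 0 < C ∧
    ∀ (M m : ℕ) (u v : Fin d → ℂ), (∀ s, ‖u s‖ ≤ 1) → (∀ s, ‖v s‖ ≤ 1) → m + 2 ≤ M →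
      ∀ (f : Gr d M → ℂ), Kil f →
      L1 (∑ t ∈ Finset.Nat.antidiagonalTuple d m,
          opA (fun s => BernT.Mm r (u s) (v s) M (t s)) f) ≤
        C * ∑ k ∈ range (d*M), (2:ℝ)^(-(|(k:ℝ)-m|/4)) * NN k f := sorry

end Pool.Agent.H402R2.BX
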