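import Pool.Agent.H402R2.BX.OpA

set_option autoImplicit false
open Finset Matrix
namespace Pool.Agent.H402R2.BX
/-- decomposition of a Haar block above the hyperbolic cross -/
theorem decomp {d M : ℕ} (hd : 1 ≤ d) (n j : ℕ) (hj : d ≤ j) (f : Gr d M → ℂ) (hf : Spec n f)
    (K : Fin d → ℕ) (hK : ∑ s, K s = n + j) (x : Gr d M) :
    ‖DD K f x‖ ≤ ∑ S ∈ (univ : Finset (Finset (Fin d))).filter
      (fun S => S.Nonempty ∧ ∀ s ∈ S, j/d ≤ K s),
        ‖opA (fun s => if s ∈ S then BernT.Dm M (K s) * BernT.Vm M (K s - j/d)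
          else BernT.Dm M (K s)) f x‖ := sorry

end Pool.Agent.H402R2.BX
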