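import Pool.Agent.H402R2.BX.GLsq
import Pool.Agent.H402R2.BX.Decomp
import Pool.Agent.H402R2.BX.Fam
import Pool.Agent.H402R2.BX.Num

set_option autoImplicit false
open Finset Matrix
namespace Pool.Agent.H402R2.BX

/-- Minkowski's inequality -/
private theorem C2_mink {ι κ : Type} (A : Finset ι) (B : Finset κ) (a : κ → ι → ℝ) :
    Real.sqrt (∑ K ∈ A, (∑ S ∈ B, a S K)^2) ≤ ∑ S ∈ B, Real.sqrt (∑ K ∈ A, (a S K)^2) := by
  let v : κ → EuclideanSpace ℝ A := fun S => WithLp.toLp 2 (fun K : A => a S K)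
  have h1 : ∀ S, ‖v S‖ = Real.sqrt (∑ K ∈ A, (a S K)^2) := by
    intro S
    rw [EuclideanSpace.norm_eq, ← Finset.sum_coe_sort A (fun K => (a S K)^2)]
    congr 1
    refine Finset.sum_congr rfl fun K _ => ?_
    rw [Real.norm_eq_abs, sq_abs]
  have h2 : ‖∑ S ∈ B, v S‖ = Real.sqrt (∑ K ∈ A, (∑ S ∈ B, a S K)^2) := by
    rw [EuclideanSpace.norm_eq, ← Finset.sum_coe_sort A (fun K => (∑ S ∈ B, a S K)^2)]
    congr 1
    refine Finset.sum_congr rfl fun K _ => ?_
    rw [Real.norm_eq_abs, sq_abs]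
    congr 1
    simp [v]
  rw [← h2]
  refine (norm_sum_le _ _).trans (le_of_eq ?_)
  exact Finset.sum_congr rfl fun S _ => h1 S

/-- subtracting `q` in the coordinates of `S` -/
private theorem C2_reindex {d : ℕ} (N q : ℕ) (S : Finset (Fin d)) (hq : S.card * q ≤ N)
    (g : (Fin d → ℕ) → ℝ) :
    ∑ K ∈ (Finset.Nat.antidiagonalTuple d N).filter (fun K => ∀ s ∈ S, q ≤ K s),
      g (fun s => if s ∈ S then K s - q else K s) =
    ∑ K ∈ Finset.Nat.antidiagonalTuple d (N - S.card * q), g K := by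
  have hsum : ∀ K : Fin d → ℕ, ∑ s, (if s ∈ S then K s + q else K s) = ∑ s, K s + S.card * q := by
    intro K
    have h1 : ∀ s, (if s ∈ S then K s + q else K s) = K s + (if s ∈ S then q else 0) := by
      intro s
      split_ifs <;> omega
    rw [Finset.sum_congr rfl fun s _ => h1 s, Finset.sum_add_distrib]
    congr 1
    rw [Finset.sum_ite_mem, Finset.univ_inter, Finset.sum_const, smul_eq_mul]
  refine Finset.sum_bij' (fun K _ s => if s ∈ S then K s - q else K s)
    (fun K _ s => if s ∈ S then K s + q else K s) ?_ ?_ ?_ ?_ ?_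
  · intro K hK
    rw [Finset.mem_filter, Finset.Nat.mem_antidiagonalTuple] at hK
    rw [Finset.Nat.mem_antidiagonalTuple]
    have h1 := hsum (fun s => if s ∈ S then K s - q else K s)
    have h2 : ∀ s, (if s ∈ S then (if s ∈ S then K s - q else K s) + q else
        (if s ∈ S then K s - q else K s)) = K s := by
      intro s
      by_cases hs : s ∈ S
      · have := hK.2 s hs
        simp only [if_pos hs]
        omega
      · simp only [if_neg hs]
    rw [Finset.sum_congr rfl fun s _ => h2 s, hK.1] at h1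
    omega
  · intro K hK
    rw [Finset.Nat.mem_antidiagonalTuple] at hK
    rw [Finset.mem_filter, Finset.Nat.mem_antidiagonalTuple, hsum, hK]
    refine ⟨by omega, ?_⟩
    intro s hs
    simp only [if_pos hs]
    omega
  · intro K hK
    rw [Finset.mem_filter] at hK
    funext s
    by_cases hs : s ∈ S
    · have := hK.2 s hs
      simp only [if_pos hs]
      omega
    · simp only [if_neg hs]
  · intro K hK
    funext s
    by_cases hs : s ∈ S
    · simp only [if_pos hs]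
      omega
    · simp only [if_neg hs]
  · intro K _
    rfl

/-- the exponents -/
private theorem C2_exp (d : ℕ) (hd : 1 ≤ d) (n j k m : ℕ) (hk : 1 ≤ k) (hkj : k * (j / d) ≤ j) :
    (1/2 : ℝ)^((j/d) * k) * (2:ℝ)^(-(|(m:ℝ) - ((n + j - k * (j/d) : ℕ) : ℝ)|/4)) ≤
      2 * ((2:ℝ)^(-(3*(j:ℝ)/(4*d))) * (2:ℝ)^(-(|(m:ℝ)-n|/(4*d)))) := by
  set q := j / d with hq
  have hd0 : (0:ℝ) < d := by exact_mod_cast hd
  have hd1 : (1:ℝ) ≤ d := by exact_mod_cast hd
  have hqj : (j:ℝ) / d - 1 ≤ q := by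
    have h1 : j < d * (q + 1) := by
      rw [hq]
      exact Nat.lt_mul_div_succ j hd
    have h2 : (j:ℝ) ≤ d * (q + 1) := by exact_mod_cast h1.le
    rw [sub_le_iff_le_add, div_le_iff₀ hd0]
    linarith
  have hν : ((n + j - k * q : ℕ) : ℝ) = n + j - k * q := by
    rw [Nat.cast_sub (by omega)]
    push_cast
    ring
  have hkj' : (k:ℝ) * q ≤ j := by exact_mod_cast hkj
  have hk' : (1:ℝ) ≤ k := by exact_mod_cast hk
  have hq0 : (0:ℝ) ≤ q := Nat.cast_nonneg q
  rw [hν]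
  have h1 : (1/2 : ℝ)^(q * k) = (2:ℝ)^(-((q:ℝ) * k)) := by
    rw [Real.rpow_neg (by norm_num), ← Nat.cast_mul, Real.rpow_natCast, one_div, inv_pow]
  rw [h1, ← Real.rpow_add (by norm_num), ← Real.rpow_add (by norm_num)]
  have h2 : (2:ℝ) * (2:ℝ)^(-(3*(j:ℝ)/(4*d)) + -(|(m:ℝ)-n|/(4*d))) =
      (2:ℝ)^(1 + (-(3*(j:ℝ)/(4*d)) + -(|(m:ℝ)-n|/(4*d)))) := by
    rw [Real.rpow_add (by norm_num : (0:ℝ) < 2) 1, Real.rpow_one]
  rw [h2]
  apply Real.rpow_le_rpow_of_exponent_le (by norm_num)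
  -- |m - n| ≤ |m - ν| + (ν - n)
  have h3 : |(m:ℝ) - n| ≤ |(m:ℝ) - (n + j - k * q)| + (j - k * q) := by
    have h4 : (m:ℝ) - n = ((m:ℝ) - (n + j - k * q)) + (j - k * q) := by ring
    rw [h4]
    refine (abs_add_le _ _).trans ?_
    rw [abs_of_nonneg (sub_nonneg.mpr hkj')]
  set X := |(m:ℝ) - (n + j - k * q)| with hX
  have hX0 : 0 ≤ X := abs_nonneg _
  have h5 : X / (4 * d) ≤ X / 4 := by
    apply div_le_div_of_nonneg_left hX0 (by norm_num)
    linarith
  have h6 : |(m:ℝ) - n| / (4 * d) ≤ (X + (j - k * q)) / (4 * d) :=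
    div_le_div_of_nonneg_right h3 (by positivity)
  have h7 : (X + (j - k * q)) / (4 * d) = X / (4 * d) + j / (4 * d) - k * q / (4 * d) := by ring
  have h8 : 0 ≤ k * q / (4 * (d:ℝ)) := by positivity
  have h9 : (q:ℝ) ≤ q * k := by nlinarith
  have h10 : 3 * (j:ℝ) / (4 * d) = j / d - j / (4 * d) := by
    field_simp
    ring
  rw [h10]
  linarith

theorem decay (d : ℕ) (hd : 1 ≤ d) : ∃ C : ℝ, 0 < C ∧ ∀ (M n j : ℕ) (f : Gr d M → ℂ), d ≤ j →
    Spec n f →
    NN (n+j) f ≤ C * (2:ℝ)^(-(3*(j:ℝ)/(4*d))) *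
      ∑ m ∈ range (d*M), (2:ℝ)^(-(|(m:ℝ)-n|/(4*d))) * NN m f := by
  classical
  obtain ⟨C1, hC1, hv⟩ := vfam
  obtain ⟨C2, hC2, hnum⟩ := numC d
  refine ⟨2^d * (2^d * C1^d * C2 * 2), by positivity, ?_⟩
  intro M n j f hj hf
  set q := j / d with hq
  have hqd : d * q ≤ j := Nat.mul_div_le j d
  -- the families
  let T : Finset (Fin d) → Fin d → ℕ → Mat M := fun S s p =>
    if s ∈ S then BernT.Dm M (p+q) * BernT.Vm M p else BernT.Dm M p
  let γ : Finset (Fin d) → Fin d → ℤ → ℝ := fun S s w =>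
    (if s ∈ S then C1 * (1/2)^q else 1) * (2:ℝ)^(-(|(w:ℝ)|/2))
  have hγ : ∀ S s w, 0 ≤ γ S s w := by
    intro S s w
    apply mul_nonneg
    · split_ifs
      · positivity
      · exact zero_le_one
    · positivity
  have hT : ∀ S s w, SqS M (shf (T S s) w) (γ S s w) := by
    intro S s w
    by_cases hs : s ∈ S
    · have h1 : T S s = fun p => BernT.Dm M (p+q) * BernT.Vm M p := by
        funext p
        exact if_pos hs
      have h2 : γ S s w = C1 * (1/2)^q * (2:ℝ)^(-(|(w:ℝ)|/2)) := by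
        simp only [γ, if_pos hs]
      rw [h1, h2]
      exact hv M q w
    · have h1 : T S s = fun p => BernT.Dm M p := by
        funext p
        exact if_neg hs
      have h2 : γ S s w = (2:ℝ)^(-(|(w:ℝ)|/2)) := by
        simp only [γ, if_neg hs, one_mul]
      rw [h1, h2]
      exact dfam M w
  have hNN0 : ∀ m, 0 ≤ NN m f := fun m => SQ_nonneg _ f
  -- one set S
  have key : ∀ S : Finset (Fin d), S.Nonempty →
      ∑ x, Real.sqrt (∑ K ∈ Finset.Nat.antidiagonalTuple d (n + j - S.card * q),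
        ‖opA (fun s => T S s (K s)) f x‖^2) ≤
      (2^d * C1^d * C2 * 2) * ((2:ℝ)^(-(3*(j:ℝ)/(4*d))) *
        ∑ m ∈ range (d*M), (2:ℝ)^(-(|(m:ℝ)-n|/(4*d))) * NN m f) := by
    intro S hS
    set ν := n + j - S.card * q with hν
    have hScard : S.card ≤ d := by
      have := Finset.card_le_univ S
      rwa [Fintype.card_fin] at this
    have hSq : S.card * q ≤ j := (Nat.mul_le_mul_right q hScard).trans hqd
    have hS1 : 1 ≤ S.card := hS.card_pos
    have h1 := GLsq (T S) (γ S) (hγ S) (hT S) f hf.1 (Finset.Nat.antidiagonalTuple d ν) ν (by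
      intro K hK s
      rw [Finset.Nat.mem_antidiagonalTuple] at hK
      rw [← hK]
      exact Finset.single_le_sum (fun i _ => Nat.zero_le _) (Finset.mem_univ s))
    refine h1.trans ?_
    have h2 : ∀ w ∈ Fintype.piFinset (fun _ : Fin d => Icc (-(ν:ℤ)) (M:ℤ)),
        (∏ s, 2 * γ S s (w s)) * SQ (shA (Finset.Nat.antidiagonalTuple d ν) w) f ≤
        (2^d * C1^d * (1/2)^(q * S.card)) * ((∏ s, (2:ℝ)^(-(|(w s:ℝ)|/2))) *
          (if 0 ≤ (ν:ℤ) + ∑ s, w s then NN ((ν:ℤ) + ∑ s, w s).toNat f else 0)) := by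
      intro w _
      have h3 : ∏ s, 2 * γ S s (w s) = (2^d * (C1 * (1/2)^q)^S.card) *
          ∏ s, (2:ℝ)^(-(|(w s:ℝ)|/2)) := by
        simp only [γ]
        rw [Finset.prod_mul_distrib, Finset.prod_mul_distrib, Finset.prod_const,
          Finset.card_univ, Fintype.card_fin, Finset.prod_ite_mem, Finset.univ_inter,
          Finset.prod_const]
        ring
      have h4 : (C1 * (1/2)^q)^S.card ≤ C1^d * (1/2)^(q * S.card) := by
        rw [mul_pow, ← pow_mul]
        exact mul_le_mul_of_nonneg_right (pow_le_pow_right₀ hC1 hScard) (by positivity)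
      have h5 := SQ_shA_diag ν w f
      have h6 : 0 ≤ ∏ s, (2:ℝ)^(-(|(w s:ℝ)|/2)) := Finset.prod_nonneg fun s _ => by positivity
      rw [h3]
      calc (2^d * (C1 * (1/2)^q)^S.card * ∏ s, (2:ℝ)^(-(|(w s:ℝ)|/2))) *
            SQ (shA (Finset.Nat.antidiagonalTuple d ν) w) f
          ≤ (2^d * (C1^d * (1/2)^(q * S.card)) * ∏ s, (2:ℝ)^(-(|(w s:ℝ)|/2))) *
            (if 0 ≤ (ν:ℤ) + ∑ s, w s then NN ((ν:ℤ) + ∑ s, w s).toNat f else 0) := by
            apply mul_le_mul _ h5 (SQ_nonneg _ f) (by positivity)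
            apply mul_le_mul_of_nonneg_right _ h6
            exact mul_le_mul_of_nonneg_left h4 (by positivity)
        _ = _ := by ring
    refine (Finset.sum_le_sum h2).trans ?_
    rw [← Finset.mul_sum]
    have h7 := hnum ν M (d*M) ν (fun m => NN m f) hNN0 (fun m hm => NN_zero hd m hm f)
    have h8 : (0:ℝ) ≤ 2^d * C1^d * (1/2)^(q * S.card) := by positivity
    refine (mul_le_mul_of_nonneg_left h7 h8).trans ?_
    have h9 : ∀ m ∈ range (d*M), (1/2:ℝ)^(q * S.card) *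
        ((2:ℝ)^(-(|(m:ℝ)-ν|/4)) * NN m f) ≤
        2 * ((2:ℝ)^(-(3*(j:ℝ)/(4*d))) * ((2:ℝ)^(-(|(m:ℝ)-n|/(4*d))) * NN m f)) := by
      intro m _
      have h10 := mul_le_mul_of_nonneg_right (C2_exp d hd n j S.card m hS1 hSq) (hNN0 m)
      calc (1/2:ℝ)^(q * S.card) * ((2:ℝ)^(-(|(m:ℝ)-ν|/4)) * NN m f)
          = (1/2:ℝ)^(q * S.card) * (2:ℝ)^(-(|(m:ℝ)-ν|/4)) * NN m f := by ring
        _ ≤ 2 * ((2:ℝ)^(-(3*(j:ℝ)/(4*d))) * (2:ℝ)^(-(|(m:ℝ)-n|/(4*d)))) * NN m f := h10
        _ = _ := by ring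
    calc 2^d * C1^d * (1/2)^(q * S.card) *
          (C2 * ∑ m ∈ range (d*M), (2:ℝ)^(-(|(m:ℝ)-ν|/4)) * NN m f)
        = 2^d * C1^d * C2 * ∑ m ∈ range (d*M), (1/2:ℝ)^(q * S.card) *
            ((2:ℝ)^(-(|(m:ℝ)-ν|/4)) * NN m f) := by
          rw [← Finset.mul_sum]; ring
      _ ≤ 2^d * C1^d * C2 * ∑ m ∈ range (d*M), 2 * ((2:ℝ)^(-(3*(j:ℝ)/(4*d))) *
            ((2:ℝ)^(-(|(m:ℝ)-n|/(4*d))) * NN m f)) := by
          apply mul_le_mul_of_nonneg_left (Finset.sum_le_sum h9) (by positivity)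
      _ = _ := by
          rw [← Finset.mul_sum, ← Finset.mul_sum]; ring
  -- the decomposition
  set R : ℝ := (2^d * C1^d * C2 * 2) * ((2:ℝ)^(-(3*(j:ℝ)/(4*d))) *
        ∑ m ∈ range (d*M), (2:ℝ)^(-(|(m:ℝ)-n|/(4*d))) * NN m f) with hR
  have hR0 : 0 ≤ R := by
    rw [hR]
    apply mul_nonneg (by positivity)
    apply mul_nonneg (by positivity)
    exact Finset.sum_nonneg fun m _ => mul_nonneg (by positivity) (hNN0 m)
  let B : Finset (Finset (Fin d)) := univ.filter fun S => S.Nonempty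
  let a : Gr d M → Finset (Fin d) → (Fin d → ℕ) → ℝ := fun x S K =>
    if ∀ s ∈ S, q ≤ K s then ‖opA (fun s => if s ∈ S then BernT.Dm M (K s) * BernT.Vm M (K s - q)
          else BernT.Dm M (K s)) f x‖ else 0
  have hstep : ∀ x, Real.sqrt (∑ K ∈ Finset.Nat.antidiagonalTuple d (n+j), ‖DD K f x‖^2) ≤
      ∑ S ∈ B, Real.sqrt (∑ K ∈ Finset.Nat.antidiagonalTuple d (n + j - S.card * q),
        ‖opA (fun s => T S s (K s)) f x‖^2) := by
    intro x
    have h1 : Real.sqrt (∑ K ∈ Finset.Nat.antidiagonalTuple d (n+j), ‖DD K f x‖^2) ≤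
        Real.sqrt (∑ K ∈ Finset.Nat.antidiagonalTuple d (n+j), (∑ S ∈ B, a x S K)^2) := by
      apply Real.sqrt_le_sqrt
      apply Finset.sum_le_sum
      intro K hK
      rw [Finset.Nat.mem_antidiagonalTuple] at hK
      apply pow_le_pow_left₀ (norm_nonneg _)
      refine (decomp hd n j hj f hf K hK x).trans (le_of_eq ?_)
      rw [← hq]
      have h2 : (univ : Finset (Finset (Fin d))).filter (fun S => S.Nonempty ∧ ∀ s ∈ S, q ≤ K s) =
          B.filter (fun S => ∀ s ∈ S, q ≤ K s) := by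
        rw [Finset.filter_filter]
      rw [h2, Finset.sum_filter]
    refine h1.trans ((C2_mink _ _ _).trans ?_)
    apply Finset.sum_le_sum
    intro S hS
    apply Real.sqrt_le_sqrt
    apply le_of_eq
    have hScard : S.card ≤ d := by
      have := Finset.card_le_univ S
      rwa [Fintype.card_fin] at this
    have hSq : S.card * q ≤ n + j :=
      ((Nat.mul_le_mul_right q hScard).trans hqd).trans (Nat.le_add_left j n)
    rw [← C2_reindex (n+j) q S hSq (fun K => ‖opA (fun s => T S s (K s)) f x‖^2),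
      Finset.sum_filter]
    apply Finset.sum_congr rfl
    intro K _
    simp only [a]
    by_cases hc : ∀ s ∈ S, q ≤ K s
    · rw [if_pos hc, if_pos hc]
      congr 3
      funext s
      simp only [T]
      by_cases hs : s ∈ S
      · simp only [if_pos hs]
        rw [Nat.sub_add_cancel (hc s hs)]
      · simp only [if_neg hs]
    · rw [if_neg hc, if_neg hc]
      norm_num
  have hfin : NN (n+j) f ≤ ∑ S ∈ B, R := by
    unfold NN SQ
    refine (Finset.sum_le_sum fun x _ => hstep x).trans ?_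
    rw [Finset.sum_comm]
    apply Finset.sum_le_sum
    intro S hS
    exact key S (Finset.mem_filter.mp hS).2
  refine hfin.trans ?_
  rw [Finset.sum_const, nsmul_eq_mul]
  have hB : (B.card : ℝ) ≤ 2^d := by
    have h1 : B.card ≤ 2^d := by
      refine (Finset.card_filter_le _ _).trans ?_
      rw [Finset.card_univ, Fintype.card_finset, Fintype.card_fin]
    exact_mod_cast h1
  refine (mul_le_mul_of_nonneg_right hB hR0).trans (le_of_eq ?_)
  rw [hR]
  ring

end Pool.Agent.H402R2.BX
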