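import Pool.Agent.Helper643.BernT
import Pool.Agent.Helper643.BernP

/-!
# The `L₁` Bernstein inequality on hyperbolic crosses, all dimensions: definitions

Everything is on the grid `Gr d M = (Fin (2^M))^d`; one-variable operators are the matrices of
`BernT` (`Em`, `Dm`, `Vm`, `Mm`, ...).
-/

set_option autoImplicit false

open Finset Matrix

namespace Pool.Agent.H402R2.BX

/-- the grid -/
abbrev Gr (d M : ℕ) := Fin d → Fin (2^M)

/-- one-variable operators -/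
abbrev Mat (M : ℕ) := Matrix (Fin (2^M)) (Fin (2^M)) ℂ

variable {d M : ℕ}

/-- tensor product operator -/
noncomputable def opA (A : Fin d → Mat M) (f : Gr d M → ℂ) : Gr d M → ℂ :=
  fun x => ∑ z : Gr d M, (∏ s, A s (x s) (z s)) * f z

/-- operator acting in the coordinate `s` only -/
noncomputable def opS (s : Fin d) (A : Mat M) (f : Gr d M → ℂ) : Gr d M → ℂ :=
  fun x => ∑ z : Fin (2^M), A (x s) z * f (Function.update x s z)

/-- Haar block of level tuple `K` -/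
noncomputable def DD (K : Fin d → ℕ) (f : Gr d M → ℂ) : Gr d M → ℂ :=
  opA (fun s => BernT.Dm M (K s)) f

/-- unnormalised `L¹` norm -/
noncomputable def L1 (f : Gr d M → ℂ) : ℝ := ∑ x, ‖f x‖

/-- `L¹` norm of the square function over a finite set of level tuples -/
noncomputable def SQ (A : Finset (Fin d → ℕ)) (f : Gr d M → ℂ) : ℝ :=
  ∑ x, Real.sqrt (∑ K ∈ A, ‖DD K f x‖^2)

/-- `L¹` norm of the square function of the diagonal `|K| = m` -/
noncomputable def NN (m : ℕ) (f : Gr d M → ℂ) : ℝ := SQ (Finset.Nat.antidiagonalTuple d m) f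

/-- partial sum of the diagonals `|L| < K` -/
noncomputable def PK (K : ℕ) (f : Gr d M → ℂ) : Gr d M → ℂ :=
  ∑ m ∈ range K, ∑ L ∈ Finset.Nat.antidiagonalTuple d m, DD L f

/-- the mean in each variable vanishes -/
def Kil (f : Gr d M → ℂ) : Prop := ∀ s, opS s (BernT.Em M 0) f = 0

/-- consequences of having spectrum in `{∏ |k_s| ≤ 2^n, k_s ≠ 0}` -/
def Spec (n : ℕ) (f : Gr d M → ℂ) : Prop :=
  Kil f ∧ ∀ (S : Finset (Fin d)) (p : Fin d → ℕ), S.Nonempty → (∀ s ∈ S, p s + 2 ≤ M) →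
    n ≤ ∑ s ∈ S, p s → opA (fun s => if s ∈ S then 1 - BernT.Vm M (p s) else 1) f = 0

/-- square function bound for a family of one-variable operators on Haar functions -/
def SqS (M : ℕ) (T : ℕ → Mat M) (γ : ℝ) : Prop :=
  ∀ F : ℕ → Fin (2^M) → ℂ, (∀ a, BernT.Haar M a (F a)) →
    ∑ x, Real.sqrt (∑ a ∈ range M, ‖(T a *ᵥ F a) x‖^2) ≤
      γ * ∑ x, Real.sqrt (∑ a ∈ range M, ‖F a x‖^2)

/-- bound for the sum of a family of one-variable operators on Haar functions -/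
def SmS (M : ℕ) (T : ℕ → Mat M) (γ : ℝ) : Prop :=
  ∀ F : ℕ → Fin (2^M) → ℂ, (∀ a, BernT.Haar M a (F a)) →
    ∑ x, ‖∑ a ∈ range M, (T a *ᵥ F a) x‖ ≤
      γ * ∑ x, Real.sqrt (∑ a ∈ range M, ‖F a x‖^2)

/-- shifted family -/
noncomputable def shf {M : ℕ} (T : ℕ → Mat M) (w : ℤ) (a : ℕ) : Mat M :=
  if 0 ≤ (a:ℤ) - w then T ((a:ℤ) - w).toNat else 0

/-- samples of a trigonometric polynomial on the grid -/
noncomputable def tp (M : ℕ) (S : Finset (Fin d → ℤ)) (c : (Fin d → ℤ) → ℂ) : Gr d M → ℂ :=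
  fun x => ∑ k ∈ S, c k * ∏ s, BernT.ex M (k s * ((x s : ℕ) : ℤ))

/-- trigonometric polynomial on the torus -/
noncomputable def P (S : Finset (Fin d → ℤ)) (c : (Fin d → ℤ) → ℂ) (x : Fin d → ℝ) : ℂ :=
  ∑ k ∈ S, c k * Complex.exp (Complex.I * ∑ s, (k s : ℂ) * (x s : ℂ))

/-- normalised `L¹` norm on `[0,2π]^d` -/
noncomputable def nrm1 (F : (Fin d → ℝ) → ℂ) : ℝ :=
  (1/(2*Real.pi)^d) * ∫ x in Set.Icc (0 : Fin d → ℝ) (fun _ => 2*Real.pi), ‖F x‖

end Pool.Agent.H402R2.BX
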