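import Pool.Agent.H402R2.BX.Lep1

set_option autoImplicit false
open Finset
namespace Pool.Agent.H402R2.BX
open Pool.Agent.H730R2.LD

variable {d R : ℕ} {X : Type} [Fintype X] (S : Sys d R X)

private theorem E_inv (s : Fin d) (l : ℕ) (φ : X → ℝ)
    (h : ∀ x y, S.rel s l x y → φ x = φ y) : S.E s l φ = φ := by
  have h1 := S.E_pull s l φ 1 h
  rw [mul_one, S.E_one, mul_one] at h1
  exact h1

/-- Minkowski inequality for a conditional expectation -/
private theorem mink (s : Fin d) (k : ℕ) (A : Finset (Fin d → ℕ)) (φ : (Fin d → ℕ) → X → ℝ)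
    (x : X) :
    ∑ K ∈ A, (S.E s k (φ K) x)^2 ≤
      (S.E s k (fun y => Real.sqrt (∑ K ∈ A, (φ K y)^2)) x)^2 := by
  set v : (Fin d → ℕ) → ℝ := fun K => S.E s k (φ K) x with hv
  set Φ : X → ℝ := fun y => Real.sqrt (∑ K ∈ A, (φ K y)^2) with hΦ
  set V : ℝ := Real.sqrt (∑ K ∈ A, (v K)^2) with hV
  have hs0 : 0 ≤ ∑ K ∈ A, (v K)^2 := Finset.sum_nonneg fun _ _ => sq_nonneg _
  have hVV : V * V = ∑ K ∈ A, (v K)^2 := Real.mul_self_sqrt hs0
  have hV0 : 0 ≤ V := Real.sqrt_nonneg _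
  have hE0 : 0 ≤ S.E s k Φ x := S.E_nonneg s k (fun y => Real.sqrt_nonneg _) x
  have h1 : V * V ≤ V * S.E s k Φ x := by
    have e1 : ∑ K ∈ A, (v K)^2 = S.E s k (∑ K ∈ A, v K • φ K) x := by
      rw [map_sum, Finset.sum_apply]
      apply Finset.sum_congr rfl
      intro K _
      rw [map_smul, Pi.smul_apply, smul_eq_mul, sq]
    have e2 : S.E s k (V • Φ) x = V * S.E s k Φ x := by
      rw [map_smul, Pi.smul_apply, smul_eq_mul]
    rw [hVV, e1, ← e2]
    apply S.E_mono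
    intro y
    rw [Finset.sum_apply]
    simp only [Pi.smul_apply, smul_eq_mul]
    exact Real.sum_mul_le_sqrt_mul_sqrt A v (fun K => φ K y)
  have h2 : V ≤ S.E s k Φ x := by
    rcases hV0.eq_or_lt with h | h
    · rw [← h]; exact hE0
    · exact le_of_mul_le_mul_left h1 h
  calc ∑ K ∈ A, (S.E s k (φ K) x)^2 = V * V := hVV.symm
    _ ≤ S.E s k Φ x * S.E s k Φ x := mul_self_le_mul_self hV0 h2
    _ = _ := by rw [sq]

/-- a family indexed by level tuples, one coordinate -/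
theorem lepS (s : Fin d) (κ : ℕ → ℕ) (hκ : Monotone κ) (A : Finset (Fin d → ℕ))
    (φ : (Fin d → ℕ) → X → ℝ) (h0 : ∀ K x, 0 ≤ φ K x)
    (hm : ∀ K ∈ A, ∀ x y, S.rel s (κ (K s + 1)) x y → φ K x = φ K y) :
    ∑ x, Real.sqrt (∑ K ∈ A, (S.E s (κ (K s)) (φ K) x)^2) ≤
      2 * ∑ x, Real.sqrt (∑ K ∈ A, (φ K x)^2) := by
  classical
  set n : ℕ := A.sup (fun K => K s) + 1 with hn
  have hlt : ∀ K ∈ A, K s < n := fun K hK =>
    Nat.lt_succ_of_le (Finset.le_sup (f := fun K : Fin d → ℕ => K s) hK)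
  set Φ : ℕ → X → ℝ := fun k y => Real.sqrt (∑ K ∈ A.filter (fun K => K s = k), (φ K y)^2) with hΦ
  have hfib : ∀ (F : (Fin d → ℕ) → ℝ), ∑ K ∈ A, F K =
      ∑ k ∈ range n, ∑ K ∈ A.filter (fun K => K s = k), F K := by
    intro F
    rw [Finset.sum_fiberwise_of_maps_to]
    intro K hK
    exact mem_range.2 (hlt K hK)
  have key := lep1 S s κ hκ n Φ (fun k x => Real.sqrt_nonneg _) (by
    intro k _ x y hxy
    simp only [hΦ]
    congr 1
    apply Finset.sum_congr rfl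
    intro K hK
    rw [Finset.mem_filter] at hK
    rw [hm K hK.1 x y (by rw [hK.2]; exact hxy)])
  have e1 : ∀ x, ∑ k ∈ range n, (Φ k x)^2 = ∑ K ∈ A, (φ K x)^2 := by
    intro x
    rw [hfib]
    apply Finset.sum_congr rfl
    intro k _
    exact Real.sq_sqrt (Finset.sum_nonneg fun _ _ => sq_nonneg _)
  have e2 : ∀ x, ∑ K ∈ A, (S.E s (κ (K s)) (φ K) x)^2 ≤
      ∑ k ∈ range n, (S.E s (κ k) (Φ k) x)^2 := by
    intro x
    rw [hfib]
    apply Finset.sum_le_sum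
    intro k _
    calc ∑ K ∈ A.filter (fun K => K s = k), (S.E s (κ (K s)) (φ K) x)^2 =
        ∑ K ∈ A.filter (fun K => K s = k), (S.E s (κ k) (φ K) x)^2 := by
          apply Finset.sum_congr rfl
          intro K hK
          rw [(Finset.mem_filter.1 hK).2]
      _ ≤ _ := mink S s (κ k) _ φ x
  calc ∑ x, Real.sqrt (∑ K ∈ A, (S.E s (κ (K s)) (φ K) x)^2) ≤
      ∑ x, Real.sqrt (∑ k ∈ range n, (S.E s (κ k) (Φ k) x)^2) :=
        Finset.sum_le_sum fun x _ => Real.sqrt_le_sqrt (e2 x)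
    _ ≤ 2 * ∑ x, Real.sqrt (∑ k ∈ range n, (Φ k x)^2) := key
    _ = _ := by simp only [e1]

/-- all the coordinates -/
theorem lepM (κ : Fin d → ℕ → ℕ) (hκ : ∀ s, Monotone (κ s)) (A : Finset (Fin d → ℕ))
    (φ : (Fin d → ℕ) → X → ℝ) (h0 : ∀ K x, 0 ≤ φ K x)
    (hm : ∀ K ∈ A, ∀ s x y, S.rel s (κ s (K s + 1)) x y → φ K x = φ K y) :
    ∑ x, Real.sqrt (∑ K ∈ A, (S.EU univ (fun s => κ s (K s)) (φ K) x)^2) ≤
      2^d * ∑ x, Real.sqrt (∑ K ∈ A, (φ K x)^2) := by
  classical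
  have key : ∀ U : Finset (Fin d),
      ∑ x, Real.sqrt (∑ K ∈ A, (S.EU U (fun s => κ s (K s)) (φ K) x)^2) ≤
        2^(U.card) * ∑ x, Real.sqrt (∑ K ∈ A, (φ K x)^2) := by
    intro U
    induction U using Finset.induction_on with
    | empty => simp
    | insert s U hs ih =>
      have h1 := lepS S s (κ s) (hκ s) A (fun K => S.EU U (fun s => κ s (K s)) (φ K))
        (fun K x => S.EU_nonneg _ (h0 K) x) (by
          intro K hK x y hxy
          have e : S.E s (κ s (K s + 1)) (S.EU U (fun s => κ s (K s)) (φ K)) =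
              S.EU U (fun s => κ s (K s)) (φ K) := by
            rw [S.EU_comm hs, E_inv S s _ (φ K) (fun x y h => hm K hK s x y h)]
          rw [← e]
          exact S.E_meas s _ _ x y hxy)
      have e3 : ∀ K : Fin d → ℕ, S.EU (insert s U) (fun s => κ s (K s)) (φ K) =
          S.E s (κ s (K s)) (S.EU U (fun s => κ s (K s)) (φ K)) := fun K =>
        S.EU_insert hs (fun s => κ s (K s)) (φ K)
      simp only [e3]
      rw [Finset.card_insert_of_notMem hs, pow_succ]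
      calc _ ≤ 2 * ∑ x, Real.sqrt (∑ K ∈ A, (S.EU U (fun s => κ s (K s)) (φ K) x)^2) := h1
        _ ≤ 2 * (2^(U.card) * ∑ x, Real.sqrt (∑ K ∈ A, (φ K x)^2)) := by
          exact mul_le_mul_of_nonneg_left ih (by norm_num)
        _ = _ := by ring
  have := key univ
  simpa using this

end Pool.Agent.H402R2.BX
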