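import Pool.Agent.H730R2.LD.Main

/-!
# Digit freezing

`S` is a system with `N` digits and `S'` the system on the same space which only uses the digits
`J k + ρ s` (`k < R'`, `N = J R'`), all the other digits being frozen.
-/

set_option autoImplicit false
open Finset
namespace Pool.Agent.H402R2.BX
open Pool.Agent.H730R2.LD

/-- the relations between `S` and the sparse system `S'` -/
structure Sparse {d R' J : ℕ} {X : Type} [Fintype X] (S : Sys d (J * R') X) (S' : Sys d R' X)
    (ρ : Fin d → ℕ) : Prop where
  r_eq : ∀ s k, k < R' → S'.r s k = S.r s (J * k + ρ s)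
  absorb : ∀ s k f, k ≤ R' → S.E s (J * k + ρ s) (S'.E s k f) = S.E s (J * k + ρ s) f
  rel : ∀ s k x y, S'.rel s k x y → S.rel s (J * k + ρ s) x y
  comm : ∀ s k t l f, S'.E s k (S.E t l f) = S.E t l (S'.E s k f)

end Pool.Agent.H402R2.BX
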