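import Pool.Agent.H402R2.BX.Top
import Pool.Agent.H402R2.BX.Lep
import Pool.Agent.H402R2.BX.SparseD

set_option autoImplicit false
open Finset
namespace Pool.Agent.H402R2.BX
open Pool.Agent.H730R2.LD

section frz

variable {d R : ℕ} {X : Type} [Fintype X] (S : Sys d R X)

/-- `co` is additive -/
private theorem frz_co_sum {ι : Type} (K : Fin d → ℕ) (A : Finset ι) (c : ι → ℝ) (f : ι → X → ℝ) :
    co S K (∑ i ∈ A, c i • f i) = ∑ i ∈ A, c i • co S K (f i) := by
  unfold co
  rw [Finset.mul_sum, map_sum]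
  refine Finset.sum_congr rfl fun i _ => ?_
  rw [mul_smul_comm, map_smul]

/-- the coefficient of a function which is constant along the cells of coordinate `s` vanishes -/
private theorem frz_co_inv (K : Fin d → ℕ) (s : Fin d) (hs : K s < R) (g : X → ℝ)
    (hg : ∀ x y, S.rel s (K s) x y → g x = g y) : co S K g = 0 := by
  classical
  unfold co
  rw [← S.EU_E_mem (Finset.mem_univ s)]
  have e1 : S.chi univ K = S.r s (K s) * S.chi (univ.erase s) K := by
    rw [← S.chi_insert (Finset.notMem_erase s univ), Finset.insert_erase (Finset.mem_univ s)]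
  have e2 : S.chi univ K * g = (S.chi (univ.erase s) K * g) * S.r s (K s) := by
    rw [e1]; ring
  rw [e2, S.E_pull s (K s) _ _ (fun x y hxy => by
    simp only [Pi.mul_apply]
    rw [hg x y hxy, S.chi_other (Finset.notMem_erase s univ) K (K s) x y hxy]), S.E_r s (K s) hs,
    mul_zero, map_zero]

/-- `r s k` is constant on the cells of order `k + 1` -/
private theorem frz_r_meas (s : Fin d) (k : ℕ) (hk : k < R) (x y : X) (h : S.rel s (k + 1) x y) :
    S.r s k x = S.r s k y := by
  have e : S.E s (k + 1) (S.r s k) = S.r s k := by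
    rw [S.haar s k _ hk, S.E_r s k hk, S.r_mul_r, S.E_one, mul_one, zero_add]
  rw [← e]
  exact S.E_meas s (k + 1) _ x y h

/-- from `QQ = 0`, a linear functional killing the terms `U ≠ ∅, U₀` -/
private theorem frz_QQ (k : Fin d → ℕ) (h : X → ℝ) (hQ : QQ S k h = 0)
    {R' : ℕ} (S' : Sys d R' X) (K : Fin d → ℕ)
    (hU : ∀ U : Finset (Fin d), U ≠ ∅ → co S' K (S.EU U k h) = 0) : co S' K h = 0 := by
  classical
  have h1 : co S' K (QQ S k h) = 0 := by
    rw [hQ]
    unfold co
    rw [mul_zero, map_zero]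
  unfold QQ at h1
  rw [frz_co_sum, Finset.sum_eq_single (∅ : Finset (Fin d))] at h1
  · simpa using h1
  · intro U _ hne
    rw [hU U hne, smul_zero]
  · intro hn
    exact absurd (Finset.empty_mem_powerset _) hn

private theorem frz_QQ2 (k : Fin d → ℕ) (h : X → ℝ) (hQ : QQ S k h = 0)
    {R' : ℕ} (S' : Sys d R' X) (K : Fin d → ℕ) (s : Fin d)
    (hU : ∀ U : Finset (Fin d), U ≠ ∅ → U ≠ {s} → co S' K (S.EU U k h) = 0) :
    co S' K h = co S' K (S.E s (k s) h) := by
  classical
  have h1 : co S' K (QQ S k h) = 0 := by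
    rw [hQ]
    unfold co
    rw [mul_zero, map_zero]
  unfold QQ at h1
  have hne : ({s} : Finset (Fin d)) ≠ ∅ := Finset.singleton_ne_empty s
  rw [frz_co_sum, ← Finset.add_sum_erase _ _ (Finset.empty_mem_powerset _),
    ← Finset.add_sum_erase _ _ (a := {s}) (by
      rw [Finset.mem_erase]
      exact ⟨hne, Finset.mem_powerset.2 (Finset.subset_univ _)⟩), Finset.sum_eq_zero] at h1
  · have e1 : S.EU {s} k h = S.E s (k s) h := by
      have := S.EU_insert (Finset.notMem_empty s) k h
      rw [S.EU_empty] at this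
      simpa using this
    rw [e1] at h1
    simp only [Finset.card_empty, pow_zero, one_smul, S.EU_empty, Finset.card_singleton, pow_one,
      add_zero, neg_smul] at h1
    exact eq_of_sub_eq_zero (by rw [sub_eq_add_neg]; exact h1)
  · intro U hUm
    rw [Finset.mem_erase, Finset.mem_erase] at hUm
    rw [hU U hUm.2.1 hUm.1, smul_zero]

variable {R' J : ℕ} {S}

end frz

section frz2

variable {d R' J : ℕ} {X : Type} [Fintype X] {S : Sys d (J * R') X} {S' : Sys d R' X}
  {ρ : Fin d → ℕ}

private theorem frz_comm' (hS : Sparse S S' ρ) (U : Finset (Fin d)) (K : Fin d → ℕ) (t : Fin d)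
    (l : ℕ) (f : X → ℝ) : S'.EU U K (S.E t l f) = S.E t l (S'.EU U K f) := by
  classical
  induction U using Finset.induction_on generalizing f with
  | empty => simp
  | insert s U hs ih =>
    rw [S'.EU_insert hs, S'.EU_insert hs, ih, hS.comm]

private theorem frz_comm (hS : Sparse S S' ρ) (U : Finset (Fin d)) (k : Fin d → ℕ) (t : Fin d)
    (l : ℕ) (f : X → ℝ) : S.EU U k (S'.E t l f) = S'.E t l (S.EU U k f) := by
  classical
  induction U using Finset.induction_on generalizing f with
  | empty => simp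
  | insert s U hs ih =>
    rw [S.EU_insert hs, S.EU_insert hs, ih, hS.comm]

private theorem frz_absorb (hS : Sparse S S' ρ) (U : Finset (Fin d)) (K : Fin d → ℕ)
    (hK : ∀ s, K s ≤ R') (f : X → ℝ) :
    S.EU U (fun s => J * K s + ρ s) (S'.EU U K f) = S.EU U (fun s => J * K s + ρ s) f := by
  classical
  induction U using Finset.induction_on generalizing f with
  | empty => simp
  | insert s U hs ih =>
    rw [S.EU_insert hs, S.EU_insert hs, S'.EU_insert hs, frz_comm hS, hS.absorb s (K s) _ (hK s),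
      ih]

private theorem frz_chi (hS : Sparse S S' ρ) (K : Fin d → ℕ) (hK : ∀ s, K s < R') :
    S'.chi univ K = S.chi univ (fun s => J * K s + ρ s) := by
  ext x
  unfold Sys.chi
  exact Finset.prod_congr rfl fun s _ => by rw [hS.r_eq s (K s) (hK s)]

private theorem frz_lt (hρ : ∀ s, ρ s < J) (K : Fin d → ℕ) (hK : ∀ s, K s < R') (s : Fin d) :
    J * K s + ρ s < J * R' := by
  calc J * K s + ρ s < J * K s + J := Nat.add_lt_add_left (hρ s) _
    _ = J * (K s + 1) := by ring
    _ ≤ J * R' := Nat.mul_le_mul_left J (hK s)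

/-- invariance of the coefficients of the sparse system -/
private theorem frz_inv (hρ : ∀ s, ρ s < J) (hJ : 1 ≤ J) (hS : Sparse S S' ρ) (h : X → ℝ) (m : ℕ)
    (hh : ∀ L : Fin d → ℕ, (∀ s, L s < J * R') → m + J ≤ ∑ s, L s → co S L h = 0)
    (K : Fin d → ℕ) (hK : ∀ s, K s < R') (hm : ∑ s, (J * K s + ρ s) = m) (s : Fin d) (x y : X)
    (hxy : S.rel s (J * (K s + 1) + ρ s) x y) : co S' K h x = co S' K h y := by
  classical
  by_cases hl : J * R' ≤ J * (K s + 1) + ρ s
  · rw [← S.E_top s (co S' K h)]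
    exact S.E_meas s _ _ x y (S.rel_mono s _ _ x y hl hxy)
  · rw [not_le] at hl
    set k : Fin d → ℕ := Function.update (fun t => J * K t + ρ t) s (J * (K s + 1) + ρ s) with hk
    have hks : k s = J * (K s + 1) + ρ s := by rw [hk, Function.update_self]
    have hkt : ∀ t, t ≠ s → k t = J * K t + ρ t := fun t ht => by
      rw [hk, Function.update_of_ne ht]
    have hkle : ∀ t, k t ≤ J * R' := by
      intro t
      by_cases ht : t = s
      · rw [ht, hks]; exact hl.le
      · rw [hkt t ht]; exact (frz_lt hρ K hK t).le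
    have hsum : m + J ≤ ∑ t, k t := by
      have e1 : ∑ t, k t = k s + ∑ t ∈ univ.erase s, k t :=
        (Finset.add_sum_erase _ _ (Finset.mem_univ s)).symm
      have e2 : ∑ t, (J * K t + ρ t) = (J * K s + ρ s) + ∑ t ∈ univ.erase s, (J * K t + ρ t) :=
        (Finset.add_sum_erase _ _ (Finset.mem_univ s)).symm
      have e3 : ∑ t ∈ univ.erase s, k t = ∑ t ∈ univ.erase s, (J * K t + ρ t) :=
        Finset.sum_congr rfl fun t ht => hkt t (Finset.ne_of_mem_erase ht)
      rw [e1, e3, hks, ← hm, e2]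
      have : J * (K s + 1) = J * K s + J := by ring
      omega
    have hQ : QQ S k h = 0 := QQ_zero S (m + J) h hh k hkle hsum
    have h1 : co S' K h = co S' K (S.E s (k s) h) := by
      refine frz_QQ2 S k h hQ S' K s fun U hU hUs => ?_
      obtain ⟨t, htU, hts⟩ : ∃ t ∈ U, t ≠ s := by
        by_contra hc
        push Not at hc
        apply hUs
        obtain ⟨u, hu⟩ := Finset.nonempty_iff_ne_empty.2 hU
        ext v
        rw [Finset.mem_singleton]
        exact ⟨fun hv => hc v hv, fun hv => by rw [hv, ← hc u hu]; exact hu⟩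
      refine frz_co_inv S' K t (hK t) _ fun a b hab => ?_
      refine S.EU_meas htU k h a b ?_
      rw [hkt t hts]
      exact hS.rel t (K t) a b hab
    have hchi : ∀ a b, S.rel s (k s) a b → S'.chi univ K a = S'.chi univ K b := by
      intro a b hab
      rw [frz_chi hS K hK]
      unfold Sys.chi
      refine Finset.prod_congr rfl fun t _ => ?_
      by_cases ht : t = s
      · subst ht
        refine frz_r_meas S t _ (frz_lt hρ K hK t) a b ?_
        refine S.rel_mono t _ _ a b ?_ hab
        rw [hks]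
        have : J * (K t + 1) = J * K t + J := by ring
        omega
      · exact S.r_other t s _ _ a b ht hab
    have h2 : co S' K (S.E s (k s) h) = S.E s (k s) (co S' K h) := by
      unfold co
      rw [← S.E_pull s (k s) _ h hchi, frz_comm' hS]
    rw [h1, h2]
    refine S.E_meas s (k s) _ x y ?_
    rw [hks]
    exact hxy

end frz2

/-- one residue class -/
theorem freezeOne (d : ℕ) (hd : 1 ≤ d) : ∃ C : ℝ, 0 < C ∧ ∀ (J R' : ℕ) (X : Type) [Fintype X]
    (S : Sys d (J * R') X) (S' : Sys d R' X) (ρ : Fin d → ℕ), 1 ≤ J → (∀ s, ρ s < J) →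
    Sparse S S' ρ → ∀ (h : X → ℝ) (m : ℕ),
    (∀ L : Fin d → ℕ, (∀ s, L s < J * R') → m + J ≤ ∑ s, L s → co S L h = 0) →
    ∑ x, Real.sqrt (∑ K ∈ (Lev d R' univ).filter (fun K => ∑ s, (J * K s + ρ s) = m),
      (co S (fun s => J * K s + ρ s) h x)^2) ≤ C * ∑ x, |h x| := by
  classical
  obtain ⟨C, hC, htop⟩ := top d hd
  refine ⟨2 ^ d * C, by positivity, ?_⟩
  intro J R' X _ S S' ρ hJ hρ hS h m hh
  set A := (Lev d R' univ).filter (fun K => ∑ s, (J * K s + ρ s) = m) with hA
  have hAmem : ∀ K ∈ A, (∀ s, K s < R') ∧ ∑ s, (J * K s + ρ s) = m := by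
    intro K hK
    rw [hA, Finset.mem_filter, mem_Lev] at hK
    exact ⟨fun s => hK.1.1 s (Finset.mem_univ s), hK.2⟩
  have habs : 0 ≤ ∑ x, |h x| := Finset.sum_nonneg fun _ _ => abs_nonneg _
  rcases Finset.eq_empty_or_nonempty A with hE | ⟨K0, hK0⟩
  · rw [hE]
    simp only [Finset.sum_empty, Real.sqrt_zero, Finset.sum_const_zero]
    positivity
  -- the order in the sparse system
  set n' := ∑ s, K0 s with hn'
  have hsum : ∀ K : Fin d → ℕ, ∑ s, (J * K s + ρ s) = J * ∑ s, K s + ∑ s, ρ s := by
    intro K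
    rw [Finset.sum_add_distrib, Finset.mul_sum]
  have hm0 : m = J * n' + ∑ s, ρ s := by
    rw [← (hAmem K0 hK0).2, hsum]
  have hAeq : A = (Lev d R' univ).filter (fun K => ∑ s, K s = n') := by
    rw [hA]
    apply Finset.filter_congr
    intro K _
    rw [hsum, hm0]
    constructor
    · intro h1
      have h2 : J * ∑ s, K s = J * n' := by omega
      exact Nat.eq_of_mul_eq_mul_left hJ h2
    · intro h1
      rw [h1]
  -- (a) the frozen function is in the cross of the sparse system
  have ha : ∀ L : Fin d → ℕ, (∀ s, L s < R') → n' < ∑ s, L s → co S' L h = 0 := by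
    intro L hL hn
    have hQ : QQ S (fun s => J * L s + ρ s) h = 0 := by
      refine QQ_zero S (m + J) h hh _ (fun s => (frz_lt hρ L hL s).le) ?_
      rw [hsum, hm0]
      have : J * (n' + 1) ≤ J * ∑ s, L s := Nat.mul_le_mul_left J hn
      have e : J * (n' + 1) = J * n' + J := by ring
      omega
    refine frz_QQ S _ h hQ S' L fun U hU => ?_
    obtain ⟨t, ht⟩ := Finset.nonempty_iff_ne_empty.2 hU
    refine frz_co_inv S' L t (hL t) _ fun a b hab => ?_
    exact S.EU_meas ht (fun s => J * L s + ρ s) h a b (hS.rel t (L t) a b hab)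
  have h1 := htop R' X S' h n' ha
  rw [← hAeq] at h1
  -- (c)
  have h2 : ∀ K ∈ A, ∀ x, |co S (fun s => J * K s + ρ s) h x| ≤
      S.EU univ (fun s => J * K s + ρ s) (fun y => |co S' K h y|) x := by
    intro K hK x
    have hK' := (hAmem K hK).1
    have e1 : co S (fun s => J * K s + ρ s) h =
        S.EU univ (fun s => J * K s + ρ s) (co S' K h) := by
      unfold co
      rw [frz_absorb hS univ K (fun s => (hK' s).le), frz_chi hS K hK']
    rw [e1]
    exact S.EU_abs_le _ _ x
  have h3 := lepM S (fun s i => J * i + ρ s)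
    (fun s => fun i j hij => Nat.add_le_add_right (Nat.mul_le_mul_left J hij) _) A
    (fun K y => |co S' K h y|) (fun K y => abs_nonneg _) (by
      intro K hK s x y hxy
      obtain ⟨hK', hKm⟩ := hAmem K hK
      show |co S' K h x| = |co S' K h y|
      rw [frz_inv hρ hJ hS h m hh K hK' hKm s x y hxy])
  calc ∑ x, Real.sqrt (∑ K ∈ A, (co S (fun s => J * K s + ρ s) h x) ^ 2)
      ≤ ∑ x, Real.sqrt (∑ K ∈ A,
          (S.EU univ (fun s => J * K s + ρ s) (fun y => |co S' K h y|) x) ^ 2) := by
        refine Finset.sum_le_sum fun x _ => Real.sqrt_le_sqrt ?_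
        refine Finset.sum_le_sum fun K hK => ?_
        rw [← sq_abs]
        exact pow_le_pow_left₀ (abs_nonneg _) (h2 K hK x) 2
    _ ≤ 2 ^ d * ∑ x, Real.sqrt (∑ K ∈ A, (|co S' K h x|) ^ 2) := h3
    _ = 2 ^ d * ∑ x, Real.sqrt (∑ K ∈ A, (co S' K h x) ^ 2) := by
        simp only [sq_abs]
    _ ≤ 2 ^ d * (C * ∑ x, |h x|) := by
        refine mul_le_mul_of_nonneg_left h1 (by positivity)
    _ = 2 ^ d * C * ∑ x, |h x| := by ring

end Pool.Agent.H402R2.BX
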