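import Pool.Agent.H402R2.BX.Bits
import Pool.Agent.H402R2.BX.Freeze

set_option autoImplicit false
open Finset
namespace Pool.Agent.H402R2.BX
open Pool.Agent.H730R2.LD

private theorem dy_sqrt_sum {ι : Type*} (s : Finset ι) (b : ι → ℝ) (hb : ∀ i ∈ s, 0 ≤ b i) :
    Real.sqrt (∑ i ∈ s, b i) ≤ ∑ i ∈ s, Real.sqrt (b i) := by
  rw [Real.sqrt_le_iff]
  refine ⟨Finset.sum_nonneg fun i _ => Real.sqrt_nonneg _, ?_⟩
  have h1 : ∑ i ∈ s, b i = ∑ i ∈ s, (Real.sqrt (b i)) ^ 2 :=
    Finset.sum_congr rfl fun i hi => (Real.sq_sqrt (hb i hi)).symm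
  rw [h1]
  exact Finset.sum_sq_le_sq_sum_of_nonneg fun i _ => Real.sqrt_nonneg _

/-- the dyadic theorem on the bit space, with polynomial loss `J^d` -/
theorem dyad (d : ℕ) (hd : 1 ≤ d) : ∃ C : ℝ, 0 < C ∧ ∀ (J R' m : ℕ) (h : Bt d (J * R') → ℝ),
    1 ≤ J → (∀ L : Fin d → ℕ, (∀ s, L s < J * R') → m + J ≤ ∑ s, L s →
      co (fS d (J * R')) L h = 0) →
    ∑ x, Real.sqrt (∑ K ∈ (Lev d (J * R') univ).filter (fun K => ∑ s, K s = m),
      (co (fS d (J * R')) K h x)^2) ≤ C * (J:ℝ)^d * ∑ x, |h x| := by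
  classical
  obtain ⟨C, hC, hfr⟩ := freezeOne d hd
  refine ⟨C, hC, fun J R' m h hJ hL => ?_⟩
  obtain ⟨S, hS⟩ : ∃ S, S = fS d (J * R') := ⟨_, rfl⟩
  rw [← hS] at hL ⊢
  set A := (Lev d (J * R') univ).filter (fun K => ∑ s, K s = m) with hA
  set P : Finset (Fin d → ℕ) := Fintype.piFinset (fun _ : Fin d => range J) with hP
  have hPm : ∀ ρ ∈ P, ∀ s, ρ s < J := fun ρ hρ s =>
    Finset.mem_range.1 ((Fintype.mem_piFinset.1 hρ) s)
  have h1 : ∀ x, ∑ K ∈ A, (co S K h x)^2 = ∑ ρ ∈ P,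
      ∑ K ∈ (Lev d R' univ).filter (fun K => ∑ s, (J * K s + ρ s) = m),
        (co S (fun s => J * K s + ρ s) h x)^2 := by
    intro x
    have hmaps : ∀ K ∈ A, (fun s => K s % J) ∈ P := fun K _ =>
      Fintype.mem_piFinset.2 fun s => Finset.mem_range.2 (Nat.mod_lt _ hJ)
    rw [← Finset.sum_fiberwise_of_maps_to hmaps]
    refine Finset.sum_congr rfl fun ρ hρ => ?_
    refine Finset.sum_nbij' (fun K s => K s / J) (fun K s => J * K s + ρ s) ?_ ?_ ?_ ?_ ?_
    · intro K hK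
      rw [Finset.mem_filter, hA, Finset.mem_filter, mem_Lev] at hK
      obtain ⟨⟨⟨hK1, -⟩, hK2⟩, hK3⟩ := hK
      rw [Finset.mem_filter, mem_Lev]
      refine ⟨⟨fun s hs => ?_, fun s hs => absurd (Finset.mem_univ s) hs⟩, ?_⟩
      · rw [Nat.div_lt_iff_lt_mul (by omega), mul_comm]
        exact hK1 s hs
      · rw [← hK2]
        refine Finset.sum_congr rfl fun s _ => ?_
        rw [← congrFun hK3 s]
        exact Nat.div_add_mod (K s) J
    · intro K hK
      rw [Finset.mem_filter, mem_Lev] at hK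
      obtain ⟨⟨hK1, -⟩, hK2⟩ := hK
      rw [Finset.mem_filter, hA, Finset.mem_filter, mem_Lev]
      refine ⟨⟨⟨fun s hs => ?_, fun s hs => absurd (Finset.mem_univ s) hs⟩, hK2⟩, ?_⟩
      · have h3 := hK1 s hs
        have h4 := hPm ρ hρ s
        calc J * K s + ρ s < J * K s + J := by omega
          _ = J * (K s + 1) := by ring
          _ ≤ J * R' := Nat.mul_le_mul_left _ h3
      · funext s
        show (J * K s + ρ s) % J = ρ s
        rw [Nat.mul_add_mod, Nat.mod_eq_of_lt (hPm ρ hρ s)]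
    · intro K hK
      rw [Finset.mem_filter] at hK
      funext s
      show J * (K s / J) + ρ s = K s
      rw [← congrFun hK.2 s]
      exact Nat.div_add_mod (K s) J
    · intro K _
      funext s
      show (J * K s + ρ s) / J = K s
      rw [Nat.mul_add_div (by omega), Nat.div_eq_of_lt (hPm ρ hρ s), add_zero]
    · intro K hK
      rw [Finset.mem_filter] at hK
      have h5 : (fun s => J * (K s / J) + ρ s) = K := by
        funext s
        rw [← congrFun hK.2 s]
        exact Nat.div_add_mod (K s) J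
      show (co S K h x)^2 = (co S (fun s => J * (K s / J) + ρ s) h x)^2
      rw [h5]
  calc ∑ x, Real.sqrt (∑ K ∈ A, (co S K h x)^2)
      ≤ ∑ x, ∑ ρ ∈ P, Real.sqrt (∑ K ∈ (Lev d R' univ).filter
          (fun K => ∑ s, (J * K s + ρ s) = m), (co S (fun s => J * K s + ρ s) h x)^2) := by
        refine Finset.sum_le_sum fun x _ => ?_
        rw [h1 x]
        exact dy_sqrt_sum P _ fun ρ _ => Finset.sum_nonneg fun K _ => sq_nonneg _
    _ = ∑ ρ ∈ P, ∑ x, Real.sqrt (∑ K ∈ (Lev d R' univ).filter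
          (fun K => ∑ s, (J * K s + ρ s) = m), (co S (fun s => J * K s + ρ s) h x)^2) :=
        Finset.sum_comm
    _ ≤ ∑ ρ ∈ P, C * ∑ x, |h x| := by
        refine Finset.sum_le_sum fun ρ hρ => ?_
        obtain ⟨S', hS'⟩ := exists_sparse d J R' hJ ρ (hPm ρ hρ)
        rw [← hS] at hS'
        exact hfr J R' _ S S' ρ hJ (hPm ρ hρ) hS' h m hL
    _ = C * (J:ℝ)^d * ∑ x, |h x| := by
        rw [Finset.sum_const, hP, Fintype.card_piFinset]
        simp only [Finset.card_range, Finset.prod_const, Finset.card_univ, Fintype.card_fin]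
        rw [nsmul_eq_mul]
        push_cast
        ring

end Pool.Agent.H402R2.BX
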