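import Pool.Agent.H402R2.BX.Expand0


set_option autoImplicit false
open Finset
namespace Pool.Agent.H402R2.BX
open Pool.Agent.H730R2.LD

variable {d R : ℕ} {X : Type} [Fintype X] (S : Sys d R X)

/-- pairing with a balanced function only sees `QQ` -/
theorem EU_mul_bal (K : Fin d → ℕ) (h W : X → ℝ) (hW : ∀ s, S.E s (K s) W = 0) :
    S.EU univ K (h * W) = S.EU univ K (QQ S K h * W) := sorry

/-- the key identity: on the top layer `E_K (h W) = c_K(h) E_K (χ_K W)` -/
theorem top_id (n : ℕ) (h : X → ℝ)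
    (hh : ∀ L : Fin d → ℕ, (∀ s, L s < R) → n < ∑ s, L s → co S L h = 0)
    (K : Fin d → ℕ) (hK : ∀ s, K s < R) (hn : ∑ s, K s = n) (W : X → ℝ)
    (hW : ∀ s, S.E s (K s) W = 0) :
    S.EU univ K (h * W) = co S K h * S.EU univ K (S.chi univ K * W) := sorry

end Pool.Agent.H402R2.BX
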