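import Pool.Agent.H730R2.LD.Main

/-!
# Expansion of `∏ (1 - E s (K s))` into Haar blocks, for an abstract system
-/

set_option autoImplicit false
open Finset
namespace Pool.Agent.H402R2.BX
open Pool.Agent.H730R2.LD

variable {d R : ℕ} {X : Type} [Fintype X] (S : Sys d R X)

/-- the Haar coefficient function `c_K(h)` -/
noncomputable def co (K : Fin d → ℕ) (h : X → ℝ) : X → ℝ := S.EU univ K (S.chi univ K * h)

/-- `∏_s (1 - E s (K s)) h`, by inclusion-exclusion -/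
noncomputable def QQ (K : Fin d → ℕ) (h : X → ℝ) : X → ℝ :=
  ∑ U ∈ (univ : Finset (Fin d)).powerset, (-1 : ℝ)^U.card • S.EU U K h

/-- `QQ K h = ∑_{L ≥ K} χ_L c_L(h)` -/
theorem expand (K : Fin d → ℕ) (hK : ∀ s, K s ≤ R) (h : X → ℝ) :
    QQ S K h = ∑ L ∈ (Lev d R univ).filter (fun L => ∀ s, K s ≤ L s), S.chi univ L * co S L h :=
  sorry

/-- if all the coefficients of order `≥ n` vanish then `QQ K h = 0` for `|K| ≥ n` -/
theorem QQ_zero (n : ℕ) (h : X → ℝ)
    (hh : ∀ L : Fin d → ℕ, (∀ s, L s < R) → n ≤ ∑ s, L s → co S L h = 0)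
    (K : Fin d → ℕ) (hK : ∀ s, K s ≤ R) (hn : n ≤ ∑ s, K s) : QQ S K h = 0 := sorry

end Pool.Agent.H402R2.BX
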