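import Pool.Agent.H402R2.BX.OpA

set_option autoImplicit false
open Finset Matrix
namespace Pool.Agent.H402R2.BX
variable {d M : ℕ}

/-- the level tuples `K + w ≥ 0`, `K ∈ A` -/
def shA (A : Finset (Fin d → ℕ)) (w : Fin d → ℤ) : Finset (Fin d → ℕ) :=
  (A.filter (fun K => ∀ s, 0 ≤ (K s : ℤ) + w s)).image (fun K s => ((K s : ℤ) + w s).toNat)

/-- shifts of a diagonal -/
theorem SQ_shA_diag (m : ℕ) (w : Fin d → ℤ) (f : Gr d M → ℂ) :
    SQ (shA (Finset.Nat.antidiagonalTuple d m) w) f ≤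
      if 0 ≤ (m:ℤ) + ∑ s, w s then NN ((m:ℤ) + ∑ s, w s).toNat f else 0 := sorry

end Pool.Agent.H402R2.BX
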