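import Pool.Agent.H402R2.BX.GLV3
import Pool.Agent.H402R2.BX.GLsh

set_option autoImplicit false
open Finset Matrix
namespace Pool.Agent.H402R2.BX
variable {d M : ℕ}

theorem GLsum (T : Fin d → ℕ → Mat M) (γ : Fin d → ℤ → ℝ) (hγ : ∀ s w, 0 ≤ γ s w)
    (hT : ∀ s w, SmS M (shf (T s) w) (γ s w)) (f : Gr d M → ℂ) (hf : Kil f)
    (A : Finset (Fin d → ℕ)) (W : ℕ) (hW : ∀ K ∈ A, ∀ s, K s ≤ W) :
    L1 (∑ K ∈ A, opA (fun s => T s (K s)) f) ≤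
      ∑ w ∈ Fintype.piFinset (fun _ : Fin d => Icc (-(W:ℤ)) (M:ℤ)),
        (∏ s, 2 * γ s (w s)) * SQ (shA A w) f := sorry

end Pool.Agent.H402R2.BX
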