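import Pool.Agent.H402R2.BX.Vec2

set_option autoImplicit false
open Finset Matrix
namespace Pool.Agent.H402R2.BX
variable {d M : ℕ}

/-- restriction of a level tuple to the coordinates in `S` -/
private def v3rs (S : Finset (Fin d)) (a : Fin d → ℕ) : Fin d → ℕ := fun s => if s ∈ S then a s else 0

/-- the operator acting in the coordinates outside `S` -/
private noncomputable def v3R (S : Finset (Fin d)) (T : Fin d → ℕ → Mat M) (a : Fin d → ℕ)
    (g : Gr d M → ℂ) : Gr d M → ℂ := opA (fun s => if s ∈ S then 1 else T s (a s)) g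

/-- the intermediate quantity -/
private noncomputable def v3Q (S : Finset (Fin d)) (T : Fin d → ℕ → Mat M) (A : Finset (Fin d → ℕ))
    (f : Gr d M → ℂ) : ℝ :=
  ∑ x, Real.sqrt (∑ u ∈ A.image (v3rs S),
    ‖∑ a ∈ A.filter (fun a => v3rs S a = u), v3R S T a (DD a f) x‖^2)

private theorem v3rs_rs (S : Finset (Fin d)) (s : Fin d) (a : Fin d → ℕ) :
    v3rs S (v3rs (insert s S) a) = v3rs S a := by
  funext t
  unfold v3rs
  by_cases ht : t ∈ S
  · simp [ht]
  · simp [ht]

private theorem v3_opS_sum {ι : Type} (s : Fin d) (B : Mat M) (t : Finset ι)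
    (f : ι → Gr d M → ℂ) : opS s B (∑ i ∈ t, f i) = ∑ i ∈ t, opS s B (f i) := by
  simp only [opS_eq, opA_sum]

private theorem v3_R_step (S : Finset (Fin d)) (s : Fin d) (hs : s ∉ S) (T : Fin d → ℕ → Mat M)
    (a : Fin d → ℕ) (g : Gr d M → ℂ) :
    opS s (T s (a s)) (v3R (insert s S) T a g) = v3R S T a g := by
  unfold v3R
  rw [opA_split (fun t => if t ∈ S then 1 else T t (a t)) s g]
  have h1 : Function.update (fun t => if t ∈ S then (1 : Mat M) else T t (a t)) s 1 =
      fun t => if t ∈ insert s S then 1 else T t (a t) := by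
    funext t
    by_cases hts : t = s
    · subst hts
      simp
    · rw [Function.update_of_ne hts]
      simp [hts]
  rw [h1]
  simp [hs]

private theorem v3_step (S : Finset (Fin d)) (s : Fin d) (hs : s ∉ S) (T : Fin d → ℕ → Mat M)
    (γ : ℝ) (hγ : 0 ≤ γ) (hT : SmS M (T s) γ) (A : Finset (Fin d → ℕ)) (f : Gr d M → ℂ) :
    v3Q S T A f ≤ 2 * γ * v3Q (insert s S) T A f := by
  classical
  have hπ : ∀ i : A.image (v3rs (insert s S)), v3rs S i.1 ∈ A.image (v3rs S) := by
    intro i
    obtain ⟨a, ha, hai⟩ := mem_image.1 i.2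
    rw [← hai, v3rs_rs]
    exact mem_image_of_mem _ ha
  have h := V2 (T s) γ hγ hT s (ι := A.image (v3rs (insert s S))) (υ := A.image (v3rs S))
    (fun i => i.1 s) (fun i => ⟨v3rs S i.1, hπ i⟩)
    (by
      intro i j hij hl
      have h1 : v3rs S i.1 = v3rs S j.1 := congrArg Subtype.val hij
      obtain ⟨a, ha, hai⟩ := mem_image.1 i.2
      obtain ⟨b, hb, hbj⟩ := mem_image.1 j.2
      apply Subtype.ext
      funext t
      by_cases ht : t ∈ S
      · have h2 := congrFun h1 t
        simpa [v3rs, ht] using h2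
      · by_cases hts : t = s
        · rw [hts]; exact hl
        · rw [← hai, ← hbj]
          simp [v3rs, ht, hts])
    (fun i => ∑ a ∈ A.filter (fun a => v3rs (insert s S) a = i.1), v3R (insert s S) T a (DD a f))
    (by
      intro i
      rw [v3_opS_sum]
      refine sum_congr rfl fun a ha => ?_
      have h1 : i.1 s = a s := by
        rw [← (mem_filter.1 ha).2]
        simp [v3rs]
      show opS s (BernT.Dm M (i.1 s)) _ = _
      rw [h1]
      unfold v3R
      rw [opS_opA_comm s _ (by simp), opS_DD])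
  have hL : v3Q S T A f = ∑ x, Real.sqrt (∑ u : A.image (v3rs S),
      ‖∑ i ∈ univ.filter (fun i : A.image (v3rs (insert s S)) =>
        (⟨v3rs S i.1, hπ i⟩ : A.image (v3rs S)) = u),
        opS s (T s (i.1 s)) (∑ a ∈ A.filter (fun a => v3rs (insert s S) a = i.1),
          v3R (insert s S) T a (DD a f)) x‖^2) := by
    unfold v3Q
    refine sum_congr rfl fun x _ => ?_
    congr 1
    rw [← Finset.sum_coe_sort (A.image (v3rs S))]
    refine sum_congr rfl fun u _ => ?_
    congr 2
    have h1 : ∀ i : A.image (v3rs (insert s S)),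
        opS s (T s (i.1 s)) (∑ a ∈ A.filter (fun a => v3rs (insert s S) a = i.1),
          v3R (insert s S) T a (DD a f)) x =
        ∑ a ∈ A.filter (fun a => v3rs (insert s S) a = i.1), v3R S T a (DD a f) x := by
      intro i
      rw [v3_opS_sum, Finset.sum_apply]
      refine sum_congr rfl fun a ha => ?_
      have h1 : i.1 s = a s := by
        rw [← (mem_filter.1 ha).2]
        simp [v3rs]
      rw [h1, v3_R_step S s hs]
    rw [sum_congr rfl (fun i _ => h1 i)]
    have h2 : ∑ i ∈ univ.filter (fun i : A.image (v3rs (insert s S)) =>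
        (⟨v3rs S i.1, hπ i⟩ : A.image (v3rs S)) = u),
        ∑ a ∈ A.filter (fun a => v3rs (insert s S) a = i.1), v3R S T a (DD a f) x =
        ∑ i ∈ (A.image (v3rs (insert s S))).filter (fun i => v3rs S i = u.1),
        ∑ a ∈ A.filter (fun a => v3rs (insert s S) a = i), v3R S T a (DD a f) x := by
      rw [sum_filter, sum_filter, ← Finset.sum_coe_sort (A.image (v3rs (insert s S)))]
      refine sum_congr rfl fun i _ => ?_
      by_cases hi : v3rs S i.1 = u.1
      · rw [if_pos (Subtype.ext hi), if_pos hi]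
      · rw [if_neg (fun h => hi (congrArg Subtype.val h)), if_neg hi]
    rw [h2, ← Finset.sum_fiberwise_of_maps_to (s := A.filter (fun a => v3rs S a = u.1))
      (t := (A.image (v3rs (insert s S))).filter (fun i => v3rs S i = u.1))
      (g := v3rs (insert s S))]
    · refine sum_congr rfl fun i hi => ?_
      refine sum_congr ?_ fun _ _ => rfl
      ext a
      simp only [mem_filter]
      constructor
      · rintro ⟨⟨h3, h4⟩, h5⟩
        exact ⟨h3, h5⟩
      · rintro ⟨h3, h5⟩
        refine ⟨⟨h3, ?_⟩, h5⟩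
        rw [← v3rs_rs S s a, h5]
        exact (mem_filter.1 hi).2
    · intro a ha
      rw [mem_filter] at ha ⊢
      exact ⟨mem_image_of_mem _ ha.1, by rw [v3rs_rs]; exact ha.2⟩
  have hR : v3Q (insert s S) T A f = ∑ x, Real.sqrt (∑ i : A.image (v3rs (insert s S)),
      ‖(∑ a ∈ A.filter (fun a => v3rs (insert s S) a = i.1),
        v3R (insert s S) T a (DD a f)) x‖^2) := by
    unfold v3Q
    refine sum_congr rfl fun x _ => ?_
    congr 1
    rw [← Finset.sum_coe_sort (A.image (v3rs (insert s S)))]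
    refine sum_congr rfl fun i _ => ?_
    rw [Finset.sum_apply]
  rw [hL, hR]
  exact h

private theorem v3_all (T : Fin d → ℕ → Mat M) (γ : Fin d → ℝ) (hγ : ∀ s, 0 ≤ γ s)
    (hT : ∀ s, SmS M (T s) (γ s)) (A : Finset (Fin d → ℕ)) (f : Gr d M → ℂ)
    (S : Finset (Fin d)) : v3Q ∅ T A f ≤ (∏ s ∈ S, 2 * γ s) * v3Q S T A f := by
  classical
  induction S using Finset.induction_on with
  | empty => simp
  | insert s S hs ih =>
    refine ih.trans ?_
    rw [prod_insert hs]
    have h1 := v3_step S s hs T (γ s) (hγ s) (hT s) A f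
    have h2 : 0 ≤ ∏ s ∈ S, 2 * γ s := prod_nonneg fun t _ => by have := hγ t; positivity
    calc (∏ s ∈ S, 2 * γ s) * v3Q S T A f
        ≤ (∏ s ∈ S, 2 * γ s) * (2 * γ s * v3Q (insert s S) T A f) :=
          mul_le_mul_of_nonneg_left h1 h2
      _ = 2 * γ s * (∏ s ∈ S, 2 * γ s) * v3Q (insert s S) T A f := by ring

private theorem v3_empty (T : Fin d → ℕ → Mat M) (A : Finset (Fin d → ℕ)) (f : Gr d M → ℂ) :
    L1 (∑ a ∈ A, opA (fun s => T s (a s)) (DD a f)) = v3Q ∅ T A f := by
  classical
  unfold L1 v3Q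
  refine sum_congr rfl fun x _ => ?_
  rw [Finset.sum_apply]
  have h0 : ∀ a : Fin d → ℕ, v3rs ∅ a = 0 := by
    intro a
    funext t
    simp [v3rs]
  have h1 : ∀ a, v3R ∅ T a (DD a f) x = opA (fun s => T s (a s)) (DD a f) x := by
    intro a
    simp [v3R]
  simp only [h1]
  rcases A.eq_empty_or_nonempty with hA | hA
  · subst hA
    simp
  · have h2 : A.image (v3rs ∅) = {0} := by
      ext u
      simp only [mem_image, mem_singleton, h0]
      constructor
      · rintro ⟨a, _, rfl⟩; rfl
      · rintro rfl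
        obtain ⟨a, ha⟩ := hA
        exact ⟨a, ha, rfl⟩
    rw [h2, sum_singleton]
    have h3 : A.filter (fun a => v3rs ∅ a = 0) = A := by
      apply filter_true_of_mem
      intro a _
      exact h0 a
    rw [h3, Real.sqrt_sq (norm_nonneg _)]

private theorem v3_univ (T : Fin d → ℕ → Mat M) (A : Finset (Fin d → ℕ)) (f : Gr d M → ℂ) :
    v3Q univ T A f = SQ A f := by
  classical
  unfold SQ v3Q
  refine sum_congr rfl fun x _ => ?_
  congr 1
  have h0 : ∀ a : Fin d → ℕ, v3rs univ a = a := by
    intro a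
    funext t
    simp [v3rs]
  have h1 : ∀ a, v3R univ T a (DD a f) = DD a f := by
    intro a
    unfold v3R
    simp only [mem_univ, if_true]
    exact opA_one _
  have h2 : A.image (v3rs univ) = A := by
    have : (v3rs univ : (Fin d → ℕ) → (Fin d → ℕ)) = id := funext h0
    rw [this, image_id]
  rw [h2]
  refine sum_congr rfl fun u hu => ?_
  have h3 : A.filter (fun a => v3rs univ a = u) = {u} := by
    ext a
    simp only [mem_filter, mem_singleton, h0]
    constructor
    · exact fun h => h.2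
    · rintro rfl; exact ⟨hu, rfl⟩
  rw [h3, sum_singleton, h1]

/-- all coordinates, sums -/
theorem V3 (T : Fin d → ℕ → Mat M) (γ : Fin d → ℝ) (hγ : ∀ s, 0 ≤ γ s)
    (hT : ∀ s, SmS M (T s) (γ s)) (A : Finset (Fin d → ℕ)) (f : Gr d M → ℂ) :
    L1 (∑ a ∈ A, opA (fun s => T s (a s)) (DD a f)) ≤ (∏ s, 2 * γ s) * SQ A f := by
  rw [v3_empty, ← v3_univ T A f]
  exact v3_all T γ hγ hT A f univ

end Pool.Agent.H402R2.BX
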