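import Pool.Agent.H402R2.BX.Vec1

set_option autoImplicit false
open Finset Matrix
namespace Pool.Agent.H402R2.BX
variable {d M : ℕ}

/-- the induction over the coordinates -/
private theorem V4_aux (T : Fin d → ℕ → Mat M) (γ : Fin d → ℝ) (hγ : ∀ s, 0 ≤ γ s)
    (hT : ∀ s, SqS M (T s) (γ s)) (A : Finset (Fin d → ℕ)) (f : Gr d M → ℂ)
    (U : Finset (Fin d)) :
    ∑ x, Real.sqrt (∑ a ∈ A, ‖opA (fun s => if s ∈ U then T s (a s) else 1) (DD a f) x‖^2) ≤
      (∏ s ∈ U, 2 * γ s) * SQ A f := by
  induction U using Finset.induction_on with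
  | empty =>
    rw [Finset.prod_empty, one_mul]
    unfold SQ
    apply le_of_eq
    apply Finset.sum_congr rfl
    intro x _
    congr 1
    apply Finset.sum_congr rfl
    intro a _
    have h : (fun s : Fin d => if s ∈ (∅ : Finset (Fin d)) then T s (a s) else (1 : Mat M)) =
        fun _ => (1 : Mat M) := by
      funext s
      exact if_neg (Finset.notMem_empty s)
    rw [h, opA_one]
  | insert t U ht ih =>
    have hA : ∀ a : Fin d → ℕ,
        opA (fun s => if s ∈ insert t U then T s (a s) else (1 : Mat M)) (DD a f) =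
          opS t (T t (a t)) (opA (fun s => if s ∈ U then T s (a s) else (1 : Mat M)) (DD a f)) := by
      intro a
      rw [opA_split _ t]
      have h1 : (if t ∈ insert t U then T t (a t) else (1 : Mat M)) = T t (a t) :=
        if_pos (Finset.mem_insert_self t U)
      have h2 : Function.update (fun s => if s ∈ insert t U then T s (a s) else (1 : Mat M)) t 1 =
          fun s => if s ∈ U then T s (a s) else (1 : Mat M) := by
        funext s
        by_cases hs : s = t
        · subst hs
          rw [Function.update_self, if_neg ht]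
        · rw [Function.update_of_ne hs]
          by_cases hU : s ∈ U
          · rw [if_pos hU, if_pos (Finset.mem_insert_of_mem hU)]
          · rw [if_neg hU, if_neg]
            intro h
            rcases Finset.mem_insert.1 h with h | h
            · exact hs h
            · exact hU h
      rw [h1, h2]
    have hG : ∀ a : Fin d → ℕ,
        opS t (BernT.Dm M (a t)) (opA (fun s => if s ∈ U then T s (a s) else (1 : Mat M)) (DD a f)) =
          opA (fun s => if s ∈ U then T s (a s) else (1 : Mat M)) (DD a f) := by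
      intro a
      rw [opS_opA_comm t _ (if_neg ht), opS_DD]
    have hV := V1 (T t) (γ t) (hγ t) (hT t) t (ι := {a // a ∈ A})
      (fun a => a.1 t)
      (fun a => opA (fun s => if s ∈ U then T s (a.1 s) else (1 : Mat M)) (DD a.1 f))
      (fun a => hG a.1)
    have hL : ∑ x, Real.sqrt (∑ a ∈ A,
        ‖opA (fun s => if s ∈ insert t U then T s (a s) else 1) (DD a f) x‖^2) =
        ∑ x, Real.sqrt (∑ a : {a // a ∈ A}, ‖opS t (T t (a.1 t))
          (opA (fun s => if s ∈ U then T s (a.1 s) else (1 : Mat M)) (DD a.1 f)) x‖^2) := by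
      apply Finset.sum_congr rfl
      intro x _
      congr 1
      rw [← Finset.sum_coe_sort A]
      apply Finset.sum_congr rfl
      intro a _
      rw [hA a.1]
    have hR : ∑ x, Real.sqrt (∑ a ∈ A,
        ‖opA (fun s => if s ∈ U then T s (a s) else 1) (DD a f) x‖^2) =
        ∑ x, Real.sqrt (∑ a : {a // a ∈ A},
          ‖opA (fun s => if s ∈ U then T s (a.1 s) else (1 : Mat M)) (DD a.1 f) x‖^2) := by
      apply Finset.sum_congr rfl
      intro x _
      congr 1
      rw [← Finset.sum_coe_sort A]
    rw [hL]
    refine le_trans hV ?_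
    rw [← hR, Finset.prod_insert ht, mul_assoc (2 * γ t)]
    exact mul_le_mul_of_nonneg_left ih (mul_nonneg zero_le_two (hγ t))

/-- all coordinates, square functions -/
theorem V4 (T : Fin d → ℕ → Mat M) (γ : Fin d → ℝ) (hγ : ∀ s, 0 ≤ γ s)
    (hT : ∀ s, SqS M (T s) (γ s)) (A : Finset (Fin d → ℕ)) (f : Gr d M → ℂ) :
    ∑ x, Real.sqrt (∑ a ∈ A, ‖opA (fun s => T s (a s)) (DD a f) x‖^2) ≤
      (∏ s, 2 * γ s) * SQ A f := by
  have h := V4_aux T γ hγ hT A f Finset.univ
  simpa using h

end Pool.Agent.H402R2.BX
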