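import Pool.Agent.H402R2.BX.GLV4
import Pool.Agent.H402R2.BX.GLsh

set_option autoImplicit false
open Finset Matrix
namespace Pool.Agent.H402R2.BX
variable {d M : ℕ}

/-- Minkowski's inequality for the `ℓ₂` norm over `A` -/
private theorem glsq_mink {ι κ : Type} (A : Finset ι) (t : Finset κ) (g : κ → ι → ℂ) :
    Real.sqrt (∑ K ∈ A, ‖∑ w ∈ t, g w K‖^2) ≤ ∑ w ∈ t, Real.sqrt (∑ K ∈ A, ‖g w K‖^2) := by
  classical
  have h := norm_sum_le t (fun w => (WithLp.toLp 2 (fun K : A => g w K) : EuclideanSpace ℂ A))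
  have e1 : ‖∑ w ∈ t, (WithLp.toLp 2 (fun K : A => g w K) : EuclideanSpace ℂ A)‖ =
      Real.sqrt (∑ K ∈ A, ‖∑ w ∈ t, g w K‖^2) := by
    rw [EuclideanSpace.norm_eq]
    congr 1
    rw [← Finset.sum_coe_sort A (fun K => ‖∑ w ∈ t, g w K‖^2)]
    refine Finset.sum_congr rfl fun K _ => ?_
    congr 2
    simp
  have e2 : ∀ w, ‖(WithLp.toLp 2 (fun K : A => g w K) : EuclideanSpace ℂ A)‖ =
      Real.sqrt (∑ K ∈ A, ‖g w K‖^2) := by
    intro w
    rw [EuclideanSpace.norm_eq]
    congr 1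
    rw [← Finset.sum_coe_sort A (fun K => ‖g w K‖^2)]
  rw [e1] at h
  simpa only [e2] using h

/-- the term of shift `w` -/
private noncomputable def glsq_g (T : Fin d → ℕ → Mat M) (f : Gr d M → ℂ) (x : Gr d M)
    (w : Fin d → ℤ) (K : Fin d → ℕ) : ℂ :=
  if ∀ s, 0 ≤ (K s : ℤ) + w s then
    opA (fun s => T s (K s)) (DD (fun s => ((K s : ℤ) + w s).toNat) f) x else 0

private theorem glsq_expand (T : Fin d → ℕ → Mat M) (f : Gr d M → ℂ) (hf : Kil f)
    (K : Fin d → ℕ) (W : ℕ) (hW : ∀ s, K s ≤ W) (x : Gr d M) :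
    opA (fun s => T s (K s)) f x =
      ∑ w ∈ Fintype.piFinset (fun _ : Fin d => Icc (-(W:ℤ)) (M:ℤ)), glsq_g T f x w K := by
  classical
  rw [opA_haar _ f hf, Finset.sum_apply]
  symm
  have hsub : (Fintype.piFinset (fun _ : Fin d => Icc (-(W:ℤ)) (M:ℤ))).filter
      (fun w => ∀ s, 0 ≤ (K s : ℤ) + w s ∧ (K s : ℤ) + w s < M) ⊆
      Fintype.piFinset (fun _ : Fin d => Icc (-(W:ℤ)) (M:ℤ)) := Finset.filter_subset _ _
  rw [← Finset.sum_subset hsub]
  · refine Finset.sum_bij' (fun w _ => fun s => ((K s : ℤ) + w s).toNat)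
      (fun a _ => fun s => (a s : ℤ) - K s) ?_ ?_ ?_ ?_ ?_
    · intro w hw
      rw [Finset.mem_filter] at hw
      rw [Fintype.mem_piFinset]
      intro s
      rw [Finset.mem_range]
      have := hw.2 s
      omega
    · intro a ha
      rw [Fintype.mem_piFinset] at ha
      rw [Finset.mem_filter, Fintype.mem_piFinset]
      constructor
      · intro s
        have h1 := Finset.mem_range.1 (ha s)
        have h2 := hW s
        rw [Finset.mem_Icc]
        omega
      · intro s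
        have h1 := Finset.mem_range.1 (ha s)
        show 0 ≤ (K s : ℤ) + ((a s : ℤ) - K s) ∧ (K s : ℤ) + ((a s : ℤ) - K s) < M
        omega
    · intro w hw
      rw [Finset.mem_filter] at hw
      funext s
      have := hw.2 s
      show ((((K s : ℤ) + w s).toNat : ℕ) : ℤ) - K s = w s
      omega
    · intro a ha
      funext s
      show ((K s : ℤ) + ((a s : ℤ) - K s)).toNat = a s
      omega
    · intro w hw
      rw [Finset.mem_filter] at hw
      have h0 : ∀ s, 0 ≤ (K s : ℤ) + w s := fun s => (hw.2 s).1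
      unfold glsq_g
      rw [if_pos h0]
  · intro w hw hw'
    unfold glsq_g
    split_ifs with h0
    · have : ∃ s, ¬ ((K s : ℤ) + w s < M) := by
        by_contra hcon
        push Not at hcon
        exact hw' (Finset.mem_filter.2 ⟨hw, fun s => ⟨h0 s, hcon s⟩⟩)
      obtain ⟨s, hs⟩ := this
      rw [DD_big (fun s => ((K s : ℤ) + w s).toNat) s (by show M ≤ ((K s : ℤ) + w s).toNat; omega) f,
        opA_zero]
      rfl
    · rfl

private theorem glsq_shift (T : Fin d → ℕ → Mat M) (f : Gr d M → ℂ)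
    (A : Finset (Fin d → ℕ)) (w : Fin d → ℤ) (x : Gr d M) :
    ∑ K ∈ A, ‖glsq_g T f x w K‖^2 =
      ∑ a ∈ shA A w, ‖opA (fun s => shf (T s) (w s) (a s)) (DD a f) x‖^2 := by
  classical
  unfold shA
  rw [Finset.sum_image]
  · rw [Finset.sum_filter]
    refine Finset.sum_congr rfl fun K _ => ?_
    unfold glsq_g
    split_ifs with h0
    · have e : (fun s => shf (T s) (w s) (((K s : ℤ) + w s).toNat)) = fun s => T s (K s) := by
        funext s
        have h1 := h0 s
        have h2 : (((((K s : ℤ) + w s).toNat : ℕ) : ℤ) - w s) = K s := by omega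
        unfold shf
        rw [h2, if_pos (by omega)]
        rfl
      rw [e]
    · simp
  · intro K hK L hL hKL
    rw [Finset.mem_coe, Finset.mem_filter] at hK hL
    funext s
    have h1 := congrFun hKL s
    have h2 := hK.2 s
    have h3 := hL.2 s
    have h4 : ((K s : ℤ) + w s).toNat = ((L s : ℤ) + w s).toNat := h1
    omega

theorem GLsq (T : Fin d → ℕ → Mat M) (γ : Fin d → ℤ → ℝ) (hγ : ∀ s w, 0 ≤ γ s w)
    (hT : ∀ s w, SqS M (shf (T s) w) (γ s w)) (f : Gr d M → ℂ) (hf : Kil f)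
    (A : Finset (Fin d → ℕ)) (W : ℕ) (hW : ∀ K ∈ A, ∀ s, K s ≤ W) :
    ∑ x, Real.sqrt (∑ K ∈ A, ‖opA (fun s => T s (K s)) f x‖^2) ≤
      ∑ w ∈ Fintype.piFinset (fun _ : Fin d => Icc (-(W:ℤ)) (M:ℤ)),
        (∏ s, 2 * γ s (w s)) * SQ (shA A w) f := by
  classical
  have h1 : ∀ x, Real.sqrt (∑ K ∈ A, ‖opA (fun s => T s (K s)) f x‖^2) ≤
      ∑ w ∈ Fintype.piFinset (fun _ : Fin d => Icc (-(W:ℤ)) (M:ℤ)),
        Real.sqrt (∑ a ∈ shA A w, ‖opA (fun s => shf (T s) (w s) (a s)) (DD a f) x‖^2) := by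
    intro x
    have e : ∑ K ∈ A, ‖opA (fun s => T s (K s)) f x‖^2 =
        ∑ K ∈ A, ‖∑ w ∈ Fintype.piFinset (fun _ : Fin d => Icc (-(W:ℤ)) (M:ℤ)),
          glsq_g T f x w K‖^2 :=
      Finset.sum_congr rfl fun K hK => by rw [glsq_expand T f hf K W (hW K hK) x]
    rw [e]
    refine (glsq_mink A _ (fun w K => glsq_g T f x w K)).trans (le_of_eq ?_)
    exact Finset.sum_congr rfl fun w _ => by rw [glsq_shift]
  refine (Finset.sum_le_sum fun x _ => h1 x).trans ?_
  rw [Finset.sum_comm]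
  refine Finset.sum_le_sum fun w _ => ?_
  exact V4 (fun s => shf (T s) (w s)) (fun s => γ s (w s)) (fun s => hγ s (w s))
    (fun s => hT s (w s)) (shA A w) f

end Pool.Agent.H402R2.BX
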