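import Pool.Agent.H402R2.BX.OpA
import Pool.Agent.H402R2.BX.Expand0
import Pool.Agent.H730R2.LD.Grid

set_option autoImplicit false
open Finset Matrix
namespace Pool.Agent.H402R2.BX
open Pool.Agent.H730R2.LD
variable {d M : ℕ}

/-- a real function as a complex function -/
private def hdaC (h : Gr d M → ℝ) : Gr d M → ℂ := fun x => ((h x : ℝ) : ℂ)

private theorem hda_Em (s : Fin d) (k : ℕ) (h : Gr d M → ℝ) :
    opS s (BernT.Em M k) (hdaC h) = hdaC (Egrid d M s k h) := by
  funext x
  unfold opS hdaC BernT.Em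
  rw [Egrid_apply, Complex.ofReal_div, Complex.ofReal_sum, div_eq_mul_inv, Finset.sum_mul]
  refine Finset.sum_congr rfl fun b _ => ?_
  by_cases hb : (x s : ℕ) / 2 ^ (M - k) = (b : ℕ) / 2 ^ (M - k)
  · rw [if_pos hb, if_pos hb.symm, Complex.ofReal_pow, Complex.ofReal_ofNat, mul_comm]
  · rw [if_neg hb, if_neg (fun h' => hb h'.symm), zero_mul, Complex.ofReal_zero, zero_mul]

private theorem hda_opS_sub (s : Fin d) (A B : Mat M) (f : Gr d M → ℂ) :
    opS s (A - B) f = opS s A f - opS s B f := by
  funext x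
  simp only [opS, Pi.sub_apply, Matrix.sub_apply, sub_mul, Finset.sum_sub_distrib]

private theorem hda_Dm (s : Fin d) (k : ℕ) (hk : k < M) (h : Gr d M → ℝ) :
    opS s (BernT.Dm M k) (hdaC h) =
      hdaC ((gridSys d M).r s k * (gridSys d M).E s k ((gridSys d M).r s k * h)) := by
  have h1 := (gridSys d M).haar s k h hk
  rw [gridSys_E, gridSys_E] at h1
  unfold BernT.Dm
  rw [hda_opS_sub, hda_Em, hda_Em, gridSys_E, h1]
  funext x
  simp only [hdaC, Pi.sub_apply, Pi.add_apply, Complex.ofReal_add, add_sub_cancel_left]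

private theorem hda_EU_r {X : Type} [Fintype X] {R : ℕ} (S : Sys d R X) {U : Finset (Fin d)}
    {s : Fin d} (hs : s ∉ U) (K : Fin d → ℕ) (l : ℕ) (f : X → ℝ) :
    S.EU U K (S.r s l * f) = S.r s l * S.EU U K f := by
  classical
  induction U using Finset.induction_on generalizing f with
  | empty => simp
  | insert t U ht ih =>
    have hst : s ≠ t := fun h => hs (h ▸ Finset.mem_insert_self t U)
    have hsU : s ∉ U := fun h => hs (Finset.mem_insert_of_mem h)
    rw [S.EU_insert ht, S.EU_insert ht, ih hsU, S.E_r_other t s (K t) l hst]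

private theorem hda_ind (h : Gr d M → ℝ) (L : Fin d → ℕ) (hL : ∀ s, L s < M)
    (U : Finset (Fin d)) :
    opA (fun s => if s ∈ U then BernT.Dm M (L s) else 1) (hdaC h) =
      hdaC ((gridSys d M).chi U L * (gridSys d M).EU U L ((gridSys d M).chi U L * h)) := by
  classical
  induction U using Finset.induction_on with
  | empty =>
    simp only [Finset.notMem_empty, if_false]
    rw [opA_one, Sys.chi_empty, one_mul, one_mul, Sys.EU_empty]
  | insert s U hs ih =>
    have e1 : Function.update (fun t => if t ∈ insert s U then BernT.Dm M (L t) else (1 : Mat M)) s 1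
        = fun t => if t ∈ U then BernT.Dm M (L t) else 1 := by
      funext t
      by_cases ht : t = s
      · subst ht
        rw [Function.update_self, if_neg hs]
      · rw [Function.update_of_ne ht]
        by_cases htU : t ∈ U
        · rw [if_pos (Finset.mem_insert_of_mem htU), if_pos htU]
        · rw [if_neg (fun h' => (Finset.mem_insert.1 h').elim ht htU), if_neg htU]
    rw [opA_split _ s, e1, ih, if_pos (Finset.mem_insert_self s U), hda_Dm s (L s) (hL s)]
    congr 1
    set S := gridSys d M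
    have e2 : S.r s (L s) * (S.chi U L * S.EU U L (S.chi U L * h)) =
        S.chi U L * (S.r s (L s) * S.EU U L (S.chi U L * h)) := by ring
    rw [e2, S.E_chi hs, ← hda_EU_r S hs, S.chi_insert hs, S.EU_insert hs, mul_assoc, mul_assoc]

/-- the Haar blocks of a real function, in terms of the grid system of helper730 -/
theorem DD_co (h : Gr d M → ℝ) (L : Fin d → ℕ) (hL : ∀ s, L s < M) :
    DD L (fun x => ((h x : ℝ) : ℂ)) =
      fun x => (((gridSys d M).chi univ L x * co (gridSys d M) L h x : ℝ) : ℂ) := by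
  have h1 := hda_ind h L hL univ
  simp only [Finset.mem_univ, if_true] at h1
  exact h1

private theorem hda_real (k : ℕ) (x z : Fin (2 ^ M)) :
    BernT.Dm M k x z = (((BernT.Dm M k x z).re : ℝ) : ℂ) := by
  have hE : ∀ a, BernT.Em M a x z = (((BernT.Em M a x z).re : ℝ) : ℂ) := by
    intro a
    unfold BernT.Em
    split_ifs
    · have : ((2 : ℂ) ^ (M - a))⁻¹ = ((((2 : ℝ) ^ (M - a))⁻¹ : ℝ) : ℂ) := by push_cast; rfl
      rw [this, Complex.ofReal_re]
    · simp
  unfold BernT.Dm
  rw [Matrix.sub_apply, Complex.sub_re, Complex.ofReal_sub, ← hE, ← hE]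

private theorem hda_opA (L : Fin d → ℕ) (f : Gr d M → ℂ) (x : Gr d M) :
    DD L f x = ∑ z : Gr d M,
      (((∏ s, (BernT.Dm M (L s) (x s) (z s)).re : ℝ) : ℝ) : ℂ) * f z := by
  unfold DD opA
  refine Finset.sum_congr rfl fun z _ => ?_
  rw [Complex.ofReal_prod]
  congr 1
  exact Finset.prod_congr rfl fun s _ => hda_real _ _ _

/-- real and imaginary parts -/
theorem DD_re (f : Gr d M → ℂ) (L : Fin d → ℕ) (x : Gr d M) :
    ((DD L f) x).re = ((DD L (fun y => (((f y).re : ℝ) : ℂ))) x).re ∧
    ((DD L f) x).im = ((DD L (fun y => (((f y).im : ℝ) : ℂ))) x).re := by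
  rw [hda_opA, hda_opA, hda_opA, Complex.re_sum, Complex.re_sum, Complex.im_sum, Complex.re_sum]
  constructor
  · refine Finset.sum_congr rfl fun z _ => ?_
    rw [Complex.re_ofReal_mul, Complex.re_ofReal_mul, Complex.ofReal_re]
  · refine Finset.sum_congr rfl fun z _ => ?_
    rw [Complex.im_ofReal_mul, Complex.re_ofReal_mul, Complex.ofReal_re]

end Pool.Agent.H402R2.BX
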