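import Pool.Agent.H402R2.BX.BitsF
import Pool.Agent.H402R2.BX.Expand0
import Pool.Agent.H730R2.LD.Grid

set_option autoImplicit false
open Finset
namespace Pool.Agent.H402R2.BX
open Pool.Agent.H730R2.LD
variable {d : ℕ}

/-- reading a point of the grid off its first `M` binary digits -/
theorem co_bits (M N : ℕ) (hMN : M ≤ N) : ∃ τ : Bt d N → (Fin d → Fin (2^M)),
    (∀ φ : (Fin d → Fin (2^M)) → ℝ, ∑ b, φ (τ b) = (2:ℝ)^(d*(N-M)) * ∑ x, φ x) ∧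
    (∀ (h : (Fin d → Fin (2^M)) → ℝ) (L : Fin d → ℕ), (∀ s, L s < M) → ∀ b,
      |co (fS d N) L (h ∘ τ) b| = |co (gridSys d M) L h (τ b)|) ∧
    (∀ (h : (Fin d → Fin (2^M)) → ℝ) (L : Fin d → ℕ), (∀ s, L s < N) → (∃ s, M ≤ L s) →
      co (fS d N) L (h ∘ τ) = 0) := sorry

end Pool.Agent.H402R2.BX
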