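import Pool.Agent.H402R2.BX.Dyad
import Pool.Agent.H402R2.BX.HDa
import Pool.Agent.H402R2.BX.HDb

set_option autoImplicit false
open Finset Matrix
namespace Pool.Agent.H402R2.BX
open Pool.Agent.H730R2.LD

private theorem hd_DD_PK (d M : ℕ) (K : ℕ) (f : Gr d M → ℂ) (L : Fin d → ℕ) :
    DD L (PK K f) =
      ∑ m ∈ range K, ∑ L' ∈ Finset.Nat.antidiagonalTuple d m, DD L (DD L' f) := by
  unfold PK DD
  rw [opA_sum]
  exact Finset.sum_congr rfl fun m _ => opA_sum _ _ _

private theorem hd_PK_lt (d M : ℕ) (K : ℕ) (f : Gr d M → ℂ) (L : Fin d → ℕ)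
    (hL : ∑ s, L s < K) : DD L (PK K f) = DD L f := by
  rw [hd_DD_PK, Finset.sum_eq_single (∑ s, L s), Finset.sum_eq_single L, DD_idem]
  · intro L' _ hne
    exact DD_orth L L' hne.symm f
  · intro h
    exact absurd (Finset.Nat.mem_antidiagonalTuple.2 rfl) h
  · intro m _ hm
    refine Finset.sum_eq_zero fun L' hL' => DD_orth L L' ?_ f
    rintro rfl
    exact hm (Finset.Nat.mem_antidiagonalTuple.1 hL').symm
  · intro h
    exact absurd (Finset.mem_range.2 hL) h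

private theorem hd_PK_ge (d M : ℕ) (K : ℕ) (f : Gr d M → ℂ) (L : Fin d → ℕ)
    (hL : K ≤ ∑ s, L s) : DD L (PK K f) = 0 := by
  rw [hd_DD_PK]
  refine Finset.sum_eq_zero fun m hm => Finset.sum_eq_zero fun L' hL' => DD_orth L L' ?_ f
  rintro rfl
  have h1 := Finset.Nat.mem_antidiagonalTuple.1 hL'
  have h2 := Finset.mem_range.1 hm
  omega

private theorem hd_real (d M : ℕ) (C : ℝ)
    (hdyad : ∀ (J R' m : ℕ) (h : Bt d (J * R') → ℝ),
      1 ≤ J → (∀ L : Fin d → ℕ, (∀ s, L s < J * R') → m + J ≤ ∑ s, L s →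
        co (fS d (J * R')) L h = 0) →
      ∑ x, Real.sqrt (∑ K ∈ (Lev d (J * R') univ).filter (fun K => ∑ s, K s = m),
        (co (fS d (J * R')) K h x)^2) ≤ C * (J:ℝ)^d * ∑ x, |h x|)
    (J m : ℕ) (hJ : 1 ≤ J) (h : Gr d M → ℝ)
    (hh : ∀ L : Fin d → ℕ, m + J ≤ ∑ s, L s → ∀ x,
      (DD L (fun y => ((h y : ℝ) : ℂ)) x).re = 0) :
    ∑ x, Real.sqrt (∑ L ∈ Finset.Nat.antidiagonalTuple d m,
      ((DD L (fun y => ((h y : ℝ) : ℂ)) x).re)^2) ≤ C * (J:ℝ)^d * ∑ x, |h x| := by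
  have hMN : M ≤ J * M := Nat.le_mul_of_pos_left M hJ
  obtain ⟨τ, t1, t2, t3⟩ := co_bits (d := d) M (J * M) hMN
  have hcoDD : ∀ L : Fin d → ℕ, (∀ s, L s < M) → ∀ x,
      ((DD L (fun y => ((h y : ℝ) : ℂ)) x).re)^2 = (co (gridSys d M) L h x)^2 := by
    intro L hL x
    rw [DD_co h L hL]
    show ((((gridSys d M).chi univ L x * co (gridSys d M) L h x : ℝ) : ℂ).re)^2 = _
    rw [Complex.ofReal_re, mul_pow, (gridSys d M).chi_sq, one_mul]
  have h1 := hdyad J M m (h ∘ τ) hJ (by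
    intro L hL hm
    by_cases hLM : ∀ s, L s < M
    · funext b
      have e1 := t2 h L hLM b
      have e2 := hcoDD L hLM (τ b)
      rw [hh L hm] at e2
      have e3 : co (gridSys d M) L h (τ b) = 0 := by
        have e4 : (co (gridSys d M) L h (τ b))^2 = 0 := by rw [← e2]; norm_num
        exact (pow_eq_zero_iff two_ne_zero).1 e4
      rw [e3, abs_zero, abs_eq_zero] at e1
      exact e1
    · push Not at hLM
      exact t3 h L hL hLM)
  have h2 : ∀ b, Real.sqrt (∑ K ∈ (Lev d (J * M) univ).filter (fun K => ∑ s, K s = m),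
      (co (fS d (J * M)) K (h ∘ τ) b)^2) =
      Real.sqrt (∑ L ∈ Finset.Nat.antidiagonalTuple d m,
        ((DD L (fun y => ((h y : ℝ) : ℂ)) (τ b)).re)^2) := by
    intro b
    congr 1
    classical
    have a1 : ∑ K ∈ (Lev d M univ).filter (fun K => ∑ s, K s = m),
        (co (gridSys d M) K h (τ b))^2 =
        ∑ K ∈ (Lev d (J * M) univ).filter (fun K => ∑ s, K s = m),
        (co (fS d (J * M)) K (h ∘ τ) b)^2 := by
      apply Finset.sum_subset_zero_on_sdiff
      · intro K hK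
        rw [Finset.mem_filter, mem_Lev] at hK ⊢
        exact ⟨⟨fun s hs => (hK.1.1 s hs).trans_le hMN, hK.1.2⟩, hK.2⟩
      · intro K hK
        rw [Finset.mem_sdiff, Finset.mem_filter, Finset.mem_filter, mem_Lev, mem_Lev] at hK
        obtain ⟨⟨⟨b1, b2⟩, b3⟩, b4⟩ := hK
        have b5 : ∃ s, M ≤ K s := by
          by_contra hcon
          push Not at hcon
          exact b4 ⟨⟨fun s _ => hcon s, b2⟩, b3⟩
        rw [t3 h K (fun s => b1 s (Finset.mem_univ s)) b5]
        simp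
      · intro K hK
        rw [Finset.mem_filter, mem_Lev] at hK
        have e1 := t2 h K (fun s => hK.1.1 s (Finset.mem_univ s)) b
        rw [← sq_abs (co (gridSys d M) K h (τ b)), ← e1, sq_abs]
    have a2 : ∑ K ∈ (Lev d M univ).filter (fun K => ∑ s, K s = m),
        (co (gridSys d M) K h (τ b))^2 =
        ∑ L ∈ Finset.Nat.antidiagonalTuple d m,
        ((DD L (fun y => ((h y : ℝ) : ℂ)) (τ b)).re)^2 := by
      apply Finset.sum_subset_zero_on_sdiff
      · intro K hK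
        rw [Finset.mem_filter] at hK
        exact Finset.Nat.mem_antidiagonalTuple.2 hK.2
      · intro K hK
        rw [Finset.mem_sdiff, Finset.mem_filter, mem_Lev,
          Finset.Nat.mem_antidiagonalTuple] at hK
        have b5 : ∃ s, M ≤ K s := by
          by_contra hcon
          push Not at hcon
          exact hK.2 ⟨⟨fun s _ => hcon s, fun s hs => absurd (Finset.mem_univ s) hs⟩, hK.1⟩
        obtain ⟨s, hs⟩ := b5
        rw [DD_big K s hs]
        simp
      · intro K hK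
        rw [Finset.mem_filter, mem_Lev] at hK
        exact (hcoDD K (fun s => hK.1.1 s (Finset.mem_univ s)) (τ b)).symm
    rw [← a1, a2]
  rw [Finset.sum_congr rfl fun b _ => h2 b] at h1
  have e1 := t1 (fun x => Real.sqrt (∑ L ∈ Finset.Nat.antidiagonalTuple d m,
        ((DD L (fun y => ((h y : ℝ) : ℂ)) x).re)^2))
  have e2 := t1 (fun x => |h x|)
  have e3 : ∑ b, |(h ∘ τ) b| = ∑ b, |h (τ b)| := rfl
  rw [e1, e3, e2] at h1
  have hp : (0 : ℝ) < 2 ^ (d * (J * M - M)) := by positivity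
  have e4 : C * (J:ℝ)^d * ((2:ℝ) ^ (d * (J * M - M)) * ∑ x, |h x|) =
      2 ^ (d * (J * M - M)) * (C * (J:ℝ)^d * ∑ x, |h x|) := by ring
  rw [e4] at h1
  exact le_of_mul_le_mul_left h1 hp

/-- the dyadic theorem on the grid -/
theorem hD (d : ℕ) (hd : 1 ≤ d) : ∃ C : ℝ, 0 < C ∧ ∀ (M K : ℕ), K ≤ M → ∀ (f : Gr d M → ℂ),
    ∀ m < K, NN m f ≤ C * ((K:ℝ) - m)^d * L1 (PK K f) := by
  obtain ⟨C, hC, hdyad⟩ := dyad d hd
  refine ⟨2 * C, by positivity, ?_⟩
  intro M K _ f m hm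
  set g : Gr d M → ℂ := PK K f with hg
  obtain ⟨J, hJ⟩ : ∃ J, K = m + J := ⟨K - m, by omega⟩
  have hJ1 : 1 ≤ J := by omega
  have hJc : ((K:ℝ) - m) = J := by rw [hJ]; push_cast; ring
  rw [hJc]
  have hz : ∀ L : Fin d → ℕ, m + J ≤ ∑ s, L s → ∀ x, DD L g x = 0 := by
    intro L hL x
    rw [hg, hd_PK_ge d M K f L (by omega)]
    rfl
  have hre := hd_real d M C hdyad J m hJ1 (fun x => (g x).re) (fun L hL x => by
    rw [← (DD_re g L x).1, hz L hL x]; rfl)
  have him := hd_real d M C hdyad J m hJ1 (fun x => (g x).im) (fun L hL x => by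
    rw [← (DD_re g L x).2, hz L hL x]; rfl)
  have hle : NN m f ≤ (∑ x, Real.sqrt (∑ L ∈ Finset.Nat.antidiagonalTuple d m,
      ((DD L (fun y => (((g y).re : ℝ) : ℂ)) x).re)^2)) +
      ∑ x, Real.sqrt (∑ L ∈ Finset.Nat.antidiagonalTuple d m,
      ((DD L (fun y => (((g y).im : ℝ) : ℂ)) x).re)^2) := by
    unfold NN SQ
    rw [← Finset.sum_add_distrib]
    refine Finset.sum_le_sum fun x _ => ?_
    have e1 : ∑ K' ∈ Finset.Nat.antidiagonalTuple d m, ‖DD K' f x‖^2 =
        (∑ L ∈ Finset.Nat.antidiagonalTuple d m,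
          ((DD L (fun y => (((g y).re : ℝ) : ℂ)) x).re)^2) +
        ∑ L ∈ Finset.Nat.antidiagonalTuple d m,
          ((DD L (fun y => (((g y).im : ℝ) : ℂ)) x).re)^2 := by
      rw [← Finset.sum_add_distrib]
      refine Finset.sum_congr rfl fun L hL => ?_
      rw [Finset.Nat.mem_antidiagonalTuple] at hL
      rw [← hd_PK_lt d M K f L (by omega), ← hg, ← (DD_re g L x).1, ← (DD_re g L x).2,
        ← Complex.normSq_eq_norm_sq, Complex.normSq_apply]
      ring
    rw [e1]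
    set a := ∑ L ∈ Finset.Nat.antidiagonalTuple d m,
          ((DD L (fun y => (((g y).re : ℝ) : ℂ)) x).re)^2
    set b := ∑ L ∈ Finset.Nat.antidiagonalTuple d m,
          ((DD L (fun y => (((g y).im : ℝ) : ℂ)) x).re)^2
    have ha : 0 ≤ a := Finset.sum_nonneg fun _ _ => sq_nonneg _
    have hb : 0 ≤ b := Finset.sum_nonneg fun _ _ => sq_nonneg _
    rw [Real.sqrt_le_left (by positivity)]
    nlinarith [Real.sq_sqrt ha, Real.sq_sqrt hb, Real.sqrt_nonneg a, Real.sqrt_nonneg b,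
      mul_nonneg (Real.sqrt_nonneg a) (Real.sqrt_nonneg b)]
  have hr : ∑ x, |(g x).re| ≤ L1 g := Finset.sum_le_sum fun x _ => Complex.abs_re_le_norm _
  have hi : ∑ x, |(g x).im| ≤ L1 g := Finset.sum_le_sum fun x _ => Complex.abs_im_le_norm _
  have hCJ : 0 ≤ C * (J:ℝ)^d := by positivity
  have q1 := mul_le_mul_of_nonneg_left hr hCJ
  have q2 := mul_le_mul_of_nonneg_left hi hCJ
  calc NN m f ≤ _ := hle
    _ ≤ C * (J:ℝ)^d * (∑ x, |(g x).re|) + C * (J:ℝ)^d * (∑ x, |(g x).im|) :=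
        add_le_add hre him
    _ ≤ 2 * C * (J:ℝ)^d * L1 g := by linarith

end Pool.Agent.H402R2.BX
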