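import Pool.Agent.H402R2.BX.OpA
import Pool.Agent.Helper643.Bern.T17a
import Pool.Agent.Helper643.Bern.T17b

set_option autoImplicit false
open Finset Matrix
namespace Pool.Agent.H402R2.BX
variable {d : ℕ}

theorem derivTrig (M n : ℕ) (hM : n + d + 4 ≤ M) (r : ℝ) (hr : 0 < r) (u v : Fin d → ℂ)
    (S : Finset (Fin d → ℤ)) (c : (Fin d → ℤ) → ℂ)
    (hS : ∀ k ∈ S, (∀ s, k s ≠ 0) ∧ ∏ s, |k s| ≤ 2^n) :
    ∑ m ∈ range (n+d), (((2:ℝ)^(r*m) : ℝ) : ℂ) •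
      (∑ t ∈ Finset.Nat.antidiagonalTuple d m,
        opA (fun s => BernT.Mm r (u s) (v s) M (t s)) (tp M S c)) =
    tp M S (fun k => (∏ s, ((((|(k s:ℝ)|)^r : ℝ) : ℂ) * (if 0 < k s then u s else v s))) * c k) := sorry

end Pool.Agent.H402R2.BX
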