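import Pool.Agent.H402R2.BX.Decay
import Pool.Agent.H402R2.BX.Block
import Pool.Agent.H402R2.BX.Absorb
import Pool.Agent.H402R2.BX.Trig
import Pool.Agent.H402R2.BX.HD

set_option autoImplicit false
open Finset Matrix
namespace Pool.Agent.H402R2.BX

theorem grid (d : ℕ) (hd : 1 ≤ d) (r : ℝ) (hr : 0 < r) : ∃ C : ℝ, 0 < C ∧ ∃ L : ℕ,
    ∀ (M n : ℕ) (S : Finset (Fin d → ℤ)) (c : (Fin d → ℤ) → ℂ) (u v : Fin d → ℂ),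
    (∀ s, ‖u s‖ ≤ 1) → (∀ s, ‖v s‖ ≤ 1) →
    (∀ k ∈ S, (∀ s, k s ≠ 0) ∧ ∏ s, |k s| ≤ 2^n) → n + L ≤ M →
    L1 (tp M S (fun k => (∏ s, ((((|(k s:ℝ)|)^r : ℝ) : ℂ) * (if 0 < k s then u s else v s))) * c k))
      ≤ C * (2:ℝ)^(r*n) * L1 (tp M S c) := sorry

end Pool.Agent.H402R2.BX
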