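import Mathlib

set_option autoImplicit false
open Finset
namespace Pool.Agent.H402R2.BX

/-- sign of a bit -/
noncomputable def sg (b : Bool) : ℂ := if b then 1 else -1

private theorem sg_not (b : Bool) : sg (!b) = - sg b := by
  cases b <;> simp [sg]

private theorem norm_sg (b : Bool) : ‖sg b‖ = 1 := by
  cases b <;> simp [sg]

section aux

variable {ι : Type} [Fintype ι] [DecidableEq ι]
variable {V : Type} [NormedAddCommGroup V] [InnerProductSpace ℂ V]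

/-- flipping the sign number `a` -/
private def flip (a : ι) (ε : ι → Bool) : ι → Bool := Function.update ε a (!ε a)

omit [Fintype ι] in
private theorem flip_invol (a : ι) : Function.Involutive (flip a : (ι → Bool) → (ι → Bool)) := by
  intro ε
  unfold flip
  funext j
  by_cases h : j = a
  · subst h; simp
  · simp [Function.update_of_ne h]

/-- the signed sum over `s` -/
private noncomputable def ss (x : ι → V) (s : Finset ι) (ε : ι → Bool) : V :=
  ∑ i ∈ s, sg (ε i) • x i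

omit [Fintype ι] in
private theorem ss_flip (x : ι → V) {s : Finset ι} {a : ι} (ha : a ∉ s) (ε : ι → Bool) :
    ss x (insert a s) (flip a ε) = ss x s ε - sg (ε a) • x a := by
  unfold ss flip
  rw [Finset.sum_insert ha]
  have h1 : ∑ i ∈ s, sg (Function.update ε a (!ε a) i) • x i = ∑ i ∈ s, sg (ε i) • x i := by
    apply Finset.sum_congr rfl
    intro i hi
    have hia : i ≠ a := by
      rintro rfl
      exact ha hi
    rw [Function.update_of_ne hia]
  rw [h1, Function.update_self, sg_not, neg_smul]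
  abel

omit [Fintype ι] in
private theorem ss_insert (x : ι → V) {s : Finset ι} {a : ι} (ha : a ∉ s) (ε : ι → Bool) :
    ss x (insert a s) ε = ss x s ε + sg (ε a) • x a := by
  unfold ss
  rw [Finset.sum_insert ha, add_comm]

private theorem sum_insert_flip (x : ι → V) {s : Finset ι} {a : ι} (ha : a ∉ s) (F : V → ℝ) :
    2 * ∑ ε : ι → Bool, F (ss x (insert a s) ε) =
      ∑ ε : ι → Bool, (F (ss x s ε + sg (ε a) • x a) + F (ss x s ε - sg (ε a) • x a)) := by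
  rw [Finset.sum_add_distrib, two_mul]
  congr 1
  · exact Finset.sum_congr rfl fun ε _ => by rw [ss_insert x ha]
  · rw [← Equiv.sum_comp (flip_invol a).toPerm (fun ε => F (ss x (insert a s) ε))]
    exact Finset.sum_congr rfl fun ε _ => by
      rw [Function.Involutive.coe_toPerm, ss_flip x ha]

private theorem mom2 (x : ι → V) (s : Finset ι) :
    ∑ ε : ι → Bool, ‖ss x s ε‖ ^ 2 = 2 ^ Fintype.card ι * ∑ i ∈ s, ‖x i‖ ^ 2 := by
  induction s using Finset.induction_on with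
  | empty => simp [ss]
  | insert a s ha ih =>
    have h := sum_insert_flip x ha (fun v => ‖v‖ ^ 2)
    have h2 : ∀ ε : ι → Bool, ‖ss x s ε + sg (ε a) • x a‖ ^ 2 + ‖ss x s ε - sg (ε a) • x a‖ ^ 2 =
        2 * (‖ss x s ε‖ ^ 2 + ‖x a‖ ^ 2) := by
      intro ε
      have hp := parallelogram_law_with_norm ℂ (ss x s ε) (sg (ε a) • x a)
      rw [norm_smul, norm_sg, one_mul] at hp
      nlinarith [hp]
    simp only [h2] at h
    rw [← Finset.mul_sum, Finset.sum_add_distrib, ih, Finset.sum_const, Finset.card_univ,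
      nsmul_eq_mul] at h
    rw [Finset.sum_insert ha]
    have hc : ((Fintype.card (ι → Bool) : ℕ) : ℝ) = 2 ^ Fintype.card ι := by
      simp
    rw [hc] at h
    linarith

private theorem step4 (w z : V) :
    ‖w + z‖ ^ 4 + ‖w - z‖ ^ 4 ≤ 2 * (‖w‖ ^ 4 + 6 * (‖w‖ ^ 2 * ‖z‖ ^ 2) + ‖z‖ ^ 4) := by
  have h1 := norm_add_sq (𝕜 := ℂ) w z
  have h2 := norm_sub_sq (𝕜 := ℂ) w z
  have h3 : |RCLike.re (inner ℂ w z : ℂ)| ≤ ‖w‖ * ‖z‖ :=
    (RCLike.abs_re_le_norm _).trans (norm_inner_le_norm w z)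
  set t := RCLike.re (inner ℂ w z : ℂ) with ht
  have h4 : t ^ 2 ≤ ‖w‖ ^ 2 * ‖z‖ ^ 2 := by
    rw [← mul_pow, ← sq_abs t]
    exact pow_le_pow_left₀ (abs_nonneg _) h3 2
  have e1 : ‖w + z‖ ^ 4 = (‖w‖ ^ 2 + 2 * t + ‖z‖ ^ 2) ^ 2 := by
    rw [← h1]; ring
  have e2 : ‖w - z‖ ^ 4 = (‖w‖ ^ 2 - 2 * t + ‖z‖ ^ 2) ^ 2 := by
    rw [← h2]; ring
  rw [e1, e2]
  nlinarith [h4]

private theorem mom4 (x : ι → V) (s : Finset ι) :
    ∑ ε : ι → Bool, ‖ss x s ε‖ ^ 4 ≤ 2 ^ Fintype.card ι * (3 * (∑ i ∈ s, ‖x i‖ ^ 2) ^ 2) := by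
  induction s using Finset.induction_on with
  | empty => simp [ss]
  | insert a s ha ih =>
    have h := sum_insert_flip x ha (fun v => ‖v‖ ^ 4)
    have h2 : ∀ ε : ι → Bool, ‖ss x s ε + sg (ε a) • x a‖ ^ 4 + ‖ss x s ε - sg (ε a) • x a‖ ^ 4 ≤
        2 * (‖ss x s ε‖ ^ 4 + 6 * (‖ss x s ε‖ ^ 2 * ‖x a‖ ^ 2) + ‖x a‖ ^ 4) := by
      intro ε
      have hp := step4 (ss x s ε) (sg (ε a) • x a)
      rwa [norm_smul, norm_sg, one_mul] at hp
    have h3 : 2 * ∑ ε : ι → Bool, ‖ss x (insert a s) ε‖ ^ 4 ≤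
        ∑ ε : ι → Bool, 2 * (‖ss x s ε‖ ^ 4 + 6 * (‖ss x s ε‖ ^ 2 * ‖x a‖ ^ 2) + ‖x a‖ ^ 4) := by
      rw [h]
      exact Finset.sum_le_sum fun ε _ => h2 ε
    rw [← Finset.mul_sum, Finset.sum_add_distrib, Finset.sum_add_distrib, ← Finset.mul_sum,
      ← Finset.sum_mul, mom2, Finset.sum_const, Finset.card_univ, nsmul_eq_mul] at h3
    have hc : ((Fintype.card (ι → Bool) : ℕ) : ℝ) = 2 ^ Fintype.card ι := by
      simp
    rw [hc] at h3
    rw [Finset.sum_insert ha]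
    have hN : (0:ℝ) ≤ 2 ^ Fintype.card ι := by positivity
    set B := ∑ i ∈ s, ‖x i‖ ^ 2 with hB
    have e : 2 ^ Fintype.card ι * (3 * (‖x a‖ ^ 2 + B) ^ 2) =
        2 ^ Fintype.card ι * (3 * B ^ 2) + 6 * (2 ^ Fintype.card ι * B * ‖x a‖ ^ 2) +
          2 ^ Fintype.card ι * ‖x a‖ ^ 4 + 2 * (2 ^ Fintype.card ι * ‖x a‖ ^ 4) := by ring
    rw [e]
    have h5 : (0:ℝ) ≤ 2 ^ Fintype.card ι * ‖x a‖ ^ 4 := by positivity
    linarith

/-- the two bounds in a Hilbert space -/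
private theorem low (x : ι → V) :
    Real.sqrt (∑ i, ‖x i‖ ^ 2) ≤
      2 * (((2:ℝ)^(Fintype.card ι))⁻¹ * ∑ ε : ι → Bool, ‖ss x univ ε‖) := by
  set A := ∑ i, ‖x i‖ ^ 2 with hA
  have hA0 : 0 ≤ A := Finset.sum_nonneg fun _ _ => sq_nonneg _
  set q := Real.sqrt A with hq
  have hq0 : 0 ≤ q := Real.sqrt_nonneg _
  have hq2 : q ^ 2 = A := Real.sq_sqrt hA0
  have hN : (0:ℝ) < 2 ^ Fintype.card ι := by positivity
  rcases hq0.eq_or_lt with h | h
  · rw [← h]
    positivity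
  · have h2 := mom2 x univ
    have h4 := mom4 x univ
    rw [← hA] at h2 h4
    -- pointwise
    have hpt : ∀ ε : ι → Bool, 12 * q ^ 2 * ‖ss x univ ε‖ ^ 2 - ‖ss x univ ε‖ ^ 4 ≤
        16 * q ^ 3 * ‖ss x univ ε‖ := by
      intro ε
      have hy : 0 ≤ ‖ss x univ ε‖ := norm_nonneg _
      have : 0 ≤ ‖ss x univ ε‖ * ((‖ss x univ ε‖ - 2 * q) ^ 2 * (‖ss x univ ε‖ + 4 * q)) := by
        positivity
      nlinarith [this]
    have hs : ∑ ε : ι → Bool, (12 * q ^ 2 * ‖ss x univ ε‖ ^ 2 - ‖ss x univ ε‖ ^ 4) ≤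
        ∑ ε : ι → Bool, 16 * q ^ 3 * ‖ss x univ ε‖ := Finset.sum_le_sum fun ε _ => hpt ε
    rw [Finset.sum_sub_distrib, ← Finset.mul_sum, ← Finset.mul_sum, h2] at hs
    set T := ∑ ε : ι → Bool, ‖ss x univ ε‖ with hT
    set N : ℝ := 2 ^ Fintype.card ι with hNN
    rw [← hq2] at hs h4
    have h5 : N * (9 * q ^ 4) ≤ 16 * q ^ 3 * T := by nlinarith [hs, h4]
    have h6 : q ^ 3 * (9 * (N * q)) ≤ q ^ 3 * (16 * T) := by nlinarith [h5]
    have h7 : 9 * (N * q) ≤ 16 * T := le_of_mul_le_mul_left h6 (by positivity)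
    have h8 : q * N ≤ 2 * T := by
      have : 0 ≤ N * q := by positivity
      nlinarith
    have h9 : q ≤ 2 * T / N := (le_div_iff₀ hN).2 h8
    calc q ≤ 2 * T / N := h9
      _ = 2 * (N⁻¹ * T) := by rw [div_eq_mul_inv]; ring

private theorem upp (x : ι → V) :
    ((2:ℝ)^(Fintype.card ι))⁻¹ * ∑ ε : ι → Bool, ‖ss x univ ε‖ ≤
      Real.sqrt (∑ i, ‖x i‖ ^ 2) := by
  have hN : (0:ℝ) < 2 ^ Fintype.card ι := by positivity
  have h2 := mom2 x univ
  have hc : ((Fintype.card (ι → Bool) : ℕ) : ℝ) = 2 ^ Fintype.card ι := by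
    simp
  have hcs := sq_sum_le_card_mul_sum_sq (s := (univ : Finset (ι → Bool)))
    (f := fun ε => ‖ss x univ ε‖)
  rw [Finset.card_univ, hc, h2] at hcs
  apply Real.le_sqrt_of_sq_le
  rw [mul_pow, inv_pow]
  have : ((2 ^ Fintype.card ι : ℝ) ^ 2)⁻¹ * (∑ ε : ι → Bool, ‖ss x univ ε‖) ^ 2 ≤
      ((2 ^ Fintype.card ι : ℝ) ^ 2)⁻¹ *
        (2 ^ Fintype.card ι * (2 ^ Fintype.card ι * ∑ i, ‖x i‖ ^ 2)) :=
    mul_le_mul_of_nonneg_left hcs (by positivity)
  refine this.trans (le_of_eq ?_)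
  field_simp

end aux

section spec

variable {ι κ : Type} [Fintype ι] [DecidableEq ι] [Fintype κ]

omit [DecidableEq ι] in
private theorem ss_spec (H : ι → κ → ℂ) (ε : ι → Bool) :
    ‖ss (fun i => (WithLp.toLp 2 (H i) : EuclideanSpace ℂ κ)) univ ε‖ =
      Real.sqrt (∑ k, ‖∑ i, sg (ε i) * H i k‖^2) := by
  rw [EuclideanSpace.norm_eq]
  congr 1
  apply Finset.sum_congr rfl
  intro k _
  unfold ss
  simp

omit [Fintype ι] [DecidableEq ι] in
private theorem ns_spec (H : ι → κ → ℂ) (i : ι) :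
    ‖(WithLp.toLp 2 (H i) : EuclideanSpace ℂ κ)‖ ^ 2 = ∑ k, ‖H i k‖^2 := by
  rw [EuclideanSpace.norm_sq_eq]

end spec

/-- Kahane–Khintchine from below (`ℓ²`-valued, `L¹` against `L²`) -/
theorem khin_lower {ι κ : Type} [Fintype ι] [DecidableEq ι] [Fintype κ] (H : ι → κ → ℂ) :
    Real.sqrt (∑ i, ∑ k, ‖H i k‖^2) ≤
      2 * (((2:ℝ)^(Fintype.card ι))⁻¹ * ∑ ε : ι → Bool,
        Real.sqrt (∑ k, ‖∑ i, sg (ε i) * H i k‖^2)) := by
  have h := low (fun i => (WithLp.toLp 2 (H i) : EuclideanSpace ℂ κ))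
  simp only [ss_spec, ns_spec] at h
  exact h

/-- the upper bound (Cauchy–Schwarz) -/
theorem khin_upper {ι κ : Type} [Fintype ι] [DecidableEq ι] [Fintype κ] (H : ι → κ → ℂ) :
    ((2:ℝ)^(Fintype.card ι))⁻¹ * ∑ ε : ι → Bool, Real.sqrt (∑ k, ‖∑ i, sg (ε i) * H i k‖^2) ≤
      Real.sqrt (∑ i, ∑ k, ‖H i k‖^2) := by
  have h := upp (fun i => (WithLp.toLp 2 (H i) : EuclideanSpace ℂ κ))
  simp only [ss_spec, ns_spec] at h
  exact h

/-- the upper bound when the index `i` is mapped to the sign number `π i`, injectively on the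
fibres of `ℓ` -/
theorem khin_upper' {ι υ κ : Type} [Fintype ι] [Fintype υ] [DecidableEq υ] [Fintype κ]
    [DecidableEq κ] (π : ι → υ) (ℓ : ι → κ)
    (hinj : ∀ i j, π i = π j → ℓ i = ℓ j → i = j) (H : ι → ℂ) :
    ((2:ℝ)^(Fintype.card υ))⁻¹ * ∑ ε : υ → Bool,
      Real.sqrt (∑ k, ‖∑ i ∈ univ.filter (fun i => ℓ i = k), sg (ε (π i)) * H i‖^2) ≤
      Real.sqrt (∑ i, ‖H i‖^2) := by
  classical
  have h := khin_upper (fun (u : υ) (k : κ) =>
    ∑ i ∈ univ.filter (fun i => ℓ i = k ∧ π i = u), H i)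
  have e1 : ∀ (ε : υ → Bool) (k : κ),
      ∑ i ∈ univ.filter (fun i => ℓ i = k), sg (ε (π i)) * H i =
      ∑ u, sg (ε u) * ∑ i ∈ univ.filter (fun i => ℓ i = k ∧ π i = u), H i := by
    intro ε k
    rw [← Finset.sum_fiberwise (univ.filter (fun i => ℓ i = k)) π]
    apply Finset.sum_congr rfl
    intro u _
    rw [Finset.mul_sum, Finset.filter_filter]
    apply Finset.sum_congr rfl
    intro i hi
    rw [(Finset.mem_filter.1 hi).2.2]
  have e2 : ∀ (u : υ) (k : κ), ‖∑ i ∈ univ.filter (fun i => ℓ i = k ∧ π i = u), H i‖^2 =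
      ∑ i ∈ univ.filter (fun i => ℓ i = k ∧ π i = u), ‖H i‖^2 := by
    intro u k
    have hc : (univ.filter (fun i => ℓ i = k ∧ π i = u)).card ≤ 1 := by
      rw [Finset.card_le_one]
      intro i hi j hj
      have hi2 := (Finset.mem_filter.1 hi).2
      have hj2 := (Finset.mem_filter.1 hj).2
      exact hinj i j (hi2.2.trans hj2.2.symm) (hi2.1.trans hj2.1.symm)
    rcases Nat.le_one_iff_eq_zero_or_eq_one.1 hc with hc0 | hc1
    · rw [Finset.card_eq_zero.1 hc0]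
      simp
    · obtain ⟨a, ha⟩ := Finset.card_eq_one.1 hc1
      rw [ha, Finset.sum_singleton, Finset.sum_singleton]
  have e3 : ∑ u, ∑ k, ‖∑ i ∈ univ.filter (fun i => ℓ i = k ∧ π i = u), H i‖^2 =
      ∑ i, ‖H i‖^2 := by
    simp only [e2]
    rw [← Finset.sum_fiberwise univ π (fun i => ‖H i‖^2)]
    apply Finset.sum_congr rfl
    intro u _
    rw [← Finset.sum_fiberwise (univ.filter (fun i => π i = u)) ℓ (fun i => ‖H i‖^2)]
    apply Finset.sum_congr rfl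
    intro k _
    rw [Finset.filter_filter]
    apply Finset.sum_congr _ (fun _ _ => rfl)
    ext i
    simp only [Finset.mem_filter, Finset.mem_univ, true_and]
    exact and_comm
  rw [e3] at h
  simp only [e1]
  exact h

end Pool.Agent.H402R2.BX
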