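import Mathlib

set_option autoImplicit false
open Finset
namespace Pool.Agent.H402R2.BX

/-- layer cake: from the weak type estimate to `L¹` -/
theorem layer {X : Type} [Fintype X] (C : ℝ) (hC : 0 < C) (S h : X → ℝ) (hS : ∀ x, 0 ≤ S x)
    (hyp : ∀ t : ℝ, 0 < t → ((univ.filter (fun x => t < S x)).card : ℝ) ≤
      C * ((univ.filter (fun x => t < |h x|)).card +
        (t^2)⁻¹ * ∑ x ∈ univ.filter (fun x => |h x| ≤ t), (h x)^2)) :
    ∑ x, S x ≤ 16 * C * ∑ x, |h x| := sorry

end Pool.Agent.H402R2.BX
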