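import Pool.Agent.H730R2.LD.Main

set_option autoImplicit false
open Finset
namespace Pool.Agent.H402R2.BX
open Pool.Agent.H730R2.LD

variable {d R : ℕ} {X : Type} [Fintype X] (S : Sys d R X)

/-- the square function of the first `k` terms -/
private noncomputable def lepSig (Φ : ℕ → X → ℝ) (k : ℕ) (x : X) : ℝ :=
  Real.sqrt (∑ j ∈ range k, (Φ j x)^2)

omit [Fintype X] in
private theorem lepSig_nonneg (Φ : ℕ → X → ℝ) (k : ℕ) (x : X) : 0 ≤ lepSig Φ k x :=
  Real.sqrt_nonneg _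

omit [Fintype X] in
private theorem lepSig_sq (Φ : ℕ → X → ℝ) (k : ℕ) (x : X) :
    lepSig Φ k x ^ 2 = ∑ j ∈ range k, (Φ j x)^2 :=
  Real.sq_sqrt (Finset.sum_nonneg fun _ _ => sq_nonneg _)

omit [Fintype X] in
private theorem lepSig_succ_sq (Φ : ℕ → X → ℝ) (k : ℕ) (x : X) :
    lepSig Φ (k+1) x ^ 2 = lepSig Φ k x ^ 2 + (Φ k x)^2 := by
  rw [lepSig_sq, lepSig_sq, Finset.sum_range_succ]

omit [Fintype X] in
private theorem lepSig_mono (Φ : ℕ → X → ℝ) {k l : ℕ} (h : k ≤ l) (x : X) :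
    lepSig Φ k x ≤ lepSig Φ l x := by
  unfold lepSig
  apply Real.sqrt_le_sqrt
  exact Finset.sum_le_sum_of_subset_of_nonneg (Finset.range_subset_range.2 h)
    fun _ _ _ => sq_nonneg _

/-- one step: the conditional expectation of the next square function -/
private theorem lep_step (s : Fin d) (κ : ℕ → ℕ) (hκ : Monotone κ) (n : ℕ) (Φ : ℕ → X → ℝ)
    (hm : ∀ k, k < n → ∀ x y, S.rel s (κ (k+1)) x y → Φ k x = Φ k y)
    (k : ℕ) (hk : k < n) (x : X) :
    Real.sqrt (lepSig Φ k x ^ 2 + (S.E s (κ k) (Φ k) x)^2) ≤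
      S.E s (κ k) (lepSig Φ (k+1)) x := by
  set A := Real.sqrt (lepSig Φ k x ^ 2 + (S.E s (κ k) (Φ k) x)^2) with hA
  have hA0 : 0 ≤ A := Real.sqrt_nonneg _
  have hA2 : A ^ 2 = lepSig Φ k x ^ 2 + (S.E s (κ k) (Φ k) x)^2 :=
    Real.sq_sqrt (by positivity)
  rcases hA0.eq_or_lt with h | h
  · rw [← h]
    exact S.E_nonneg s (κ k) (fun y => lepSig_nonneg Φ (k+1) y) x
  · set a := lepSig Φ k x / A with ha
    set b := S.E s (κ k) (Φ k) x / A with hb
    have hab : a ^ 2 + b ^ 2 = 1 := by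
      rw [ha, hb, div_pow, div_pow, ← add_div, ← hA2]
      exact div_self (by positivity)
    have hle : S.E s (κ k) ((a * lepSig Φ k x) • (1 : X → ℝ) + b • Φ k) x ≤
        S.E s (κ k) (lepSig Φ (k+1)) x := by
      apply S.E_le
      intro y hy
      have hσ : lepSig Φ k x = lepSig Φ k y := by
        unfold lepSig
        congr 1
        apply Finset.sum_congr rfl
        intro j hj
        have hj' : j < k := Finset.mem_range.1 hj
        rw [hm j (hj'.trans hk) x y (S.rel_mono s _ _ x y (hκ (by omega : j + 1 ≤ k)) hy)]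
      simp only [Pi.add_apply, Pi.smul_apply, Pi.one_apply, smul_eq_mul, mul_one]
      rw [hσ]
      refine (abs_le_of_sq_le_sq' ?_ (lepSig_nonneg Φ (k+1) y)).2
      rw [lepSig_succ_sq]
      nlinarith [sq_nonneg (a * Φ k y - b * lepSig Φ k y)]
    rw [map_add, map_smul, map_smul, S.E_one] at hle
    simp only [Pi.add_apply, Pi.smul_apply, Pi.one_apply, smul_eq_mul, mul_one] at hle
    have hAe : a * lepSig Φ k x + b * S.E s (κ k) (Φ k) x = A := by
      rw [ha, hb]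
      field_simp
      rw [hA2]
    rw [hAe] at hle
    exact hle

/-- Lepingle's inequality (one coordinate `s`, levels `κ 0 ≤ κ 1 ≤ …`, adapted sequence `Φ`) -/
theorem lep1 (s : Fin d) (κ : ℕ → ℕ) (hκ : Monotone κ) (n : ℕ) (Φ : ℕ → X → ℝ)
    (h0 : ∀ k x, 0 ≤ Φ k x)
    (hm : ∀ k, k < n → ∀ x y, S.rel s (κ (k+1)) x y → Φ k x = Φ k y) :
    ∑ x, Real.sqrt (∑ k ∈ range n, (S.E s (κ k) (Φ k) x)^2) ≤
      2 * ∑ x, Real.sqrt (∑ k ∈ range n, (Φ k x)^2) := by
  -- the increments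
  have hz0 : ∀ k x, 0 ≤ Real.sqrt (lepSig Φ k x ^ 2 + (S.E s (κ k) (Φ k) x)^2) -
      lepSig Φ k x := by
    intro k x
    rw [sub_nonneg]
    apply Real.le_sqrt_of_sq_le
    nlinarith [sq_nonneg (S.E s (κ k) (Φ k) x)]
  have hsum : ∑ x, ∑ k ∈ range n, (Real.sqrt (lepSig Φ k x ^ 2 + (S.E s (κ k) (Φ k) x)^2) -
      lepSig Φ k x) ≤ ∑ x, lepSig Φ n x := by
    rw [Finset.sum_comm]
    calc ∑ k ∈ range n, ∑ x, (Real.sqrt (lepSig Φ k x ^ 2 + (S.E s (κ k) (Φ k) x)^2) -
            lepSig Φ k x)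
        ≤ ∑ k ∈ range n, ((∑ x, lepSig Φ (k+1) x) - ∑ x, lepSig Φ k x) := by
          apply Finset.sum_le_sum
          intro k hk
          rw [Finset.sum_sub_distrib]
          apply sub_le_sub_right
          calc ∑ x, Real.sqrt (lepSig Φ k x ^ 2 + (S.E s (κ k) (Φ k) x)^2)
              ≤ ∑ x, S.E s (κ k) (lepSig Φ (k+1)) x :=
                Finset.sum_le_sum fun x _ =>
                  lep_step S s κ hκ n Φ hm k (Finset.mem_range.1 hk) x
            _ = ∑ x, lepSig Φ (k+1) x := S.E_sum s (κ k) _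
      _ = (∑ x, lepSig Φ n x) - ∑ x, lepSig Φ 0 x :=
          Finset.sum_range_sub (fun k => ∑ x, lepSig Φ k x) n
      _ = ∑ x, lepSig Φ n x := by
          have : ∑ x, lepSig Φ 0 x = 0 := by
            apply Finset.sum_eq_zero
            intro x _
            unfold lepSig
            simp
          rw [this, sub_zero]
  have hpt : ∀ x, Real.sqrt (∑ k ∈ range n, (S.E s (κ k) (Φ k) x)^2) ≤
      ∑ k ∈ range n, (Real.sqrt (lepSig Φ k x ^ 2 + (S.E s (κ k) (Φ k) x)^2) -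
        lepSig Φ k x) + lepSig Φ n x := by
    intro x
    set Z := ∑ k ∈ range n, (Real.sqrt (lepSig Φ k x ^ 2 + (S.E s (κ k) (Φ k) x)^2) -
        lepSig Φ k x) with hZ
    have hZ0 : 0 ≤ Z := Finset.sum_nonneg fun k _ => hz0 k x
    have hn0 := lepSig_nonneg Φ n x
    apply Real.sqrt_le_iff.2
    refine ⟨by positivity, ?_⟩
    calc ∑ k ∈ range n, (S.E s (κ k) (Φ k) x)^2
        ≤ ∑ k ∈ range n, (Real.sqrt (lepSig Φ k x ^ 2 + (S.E s (κ k) (Φ k) x)^2) -
            lepSig Φ k x) * (Z + 2 * lepSig Φ n x) := by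
          apply Finset.sum_le_sum
          intro k hk
          have h1 : Real.sqrt (lepSig Φ k x ^ 2 + (S.E s (κ k) (Φ k) x)^2) -
              lepSig Φ k x ≤ Z :=
            Finset.single_le_sum (f := fun k =>
              Real.sqrt (lepSig Φ k x ^ 2 + (S.E s (κ k) (Φ k) x)^2) - lepSig Φ k x)
              (fun j _ => hz0 j x) hk
          have h2 : lepSig Φ k x ≤ lepSig Φ n x :=
            lepSig_mono Φ (Finset.mem_range.1 hk).le x
          have h3 := hz0 k x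
          have h4 : Real.sqrt (lepSig Φ k x ^ 2 + (S.E s (κ k) (Φ k) x)^2) ^ 2 =
              lepSig Φ k x ^ 2 + (S.E s (κ k) (Φ k) x)^2 := Real.sq_sqrt (by positivity)
          have h5 : (S.E s (κ k) (Φ k) x)^2 =
              (Real.sqrt (lepSig Φ k x ^ 2 + (S.E s (κ k) (Φ k) x)^2) - lepSig Φ k x) *
              ((Real.sqrt (lepSig Φ k x ^ 2 + (S.E s (κ k) (Φ k) x)^2) - lepSig Φ k x) +
                2 * lepSig Φ k x) := by
            linear_combination -h4
          calc (S.E s (κ k) (Φ k) x)^2 = _ := h5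
            _ ≤ _ := by
              apply mul_le_mul_of_nonneg_left _ h3
              linarith
      _ = Z * (Z + 2 * lepSig Φ n x) := by rw [← Finset.sum_mul]
      _ ≤ (Z + lepSig Φ n x) ^ 2 := by nlinarith [sq_nonneg (lepSig Φ n x)]
  calc ∑ x, Real.sqrt (∑ k ∈ range n, (S.E s (κ k) (Φ k) x)^2)
      ≤ ∑ x, (∑ k ∈ range n, (Real.sqrt (lepSig Φ k x ^ 2 + (S.E s (κ k) (Φ k) x)^2) -
        lepSig Φ k x) + lepSig Φ n x) := Finset.sum_le_sum fun x _ => hpt x
    _ = ∑ x, ∑ k ∈ range n, (Real.sqrt (lepSig Φ k x ^ 2 + (S.E s (κ k) (Φ k) x)^2) -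
        lepSig Φ k x) + ∑ x, lepSig Φ n x := Finset.sum_add_distrib
    _ ≤ ∑ x, lepSig Φ n x + ∑ x, lepSig Φ n x := by linarith
    _ = 2 * ∑ x, Real.sqrt (∑ k ∈ range n, (Φ k x)^2) := by
        unfold lepSig
        ring

end Pool.Agent.H402R2.BX
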