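import Mathlib

set_option autoImplicit false
open Finset
namespace Pool.Agent.H402R2.BX

theorem numA (D : ℕ) : ∃ C : ℝ, 0 < C ∧ ∀ (J m n : ℕ),
    ∑ s ∈ range J, (2:ℝ)^(-(|(s:ℝ)-m|/4)) * (|(s:ℝ)-n|+1)^D ≤ C * (|(m:ℝ)-n|+1)^D := sorry

theorem numB (D e : ℕ) (r : ℝ) (hr : 0 < r) : ∃ C : ℝ, 0 < C ∧ ∀ n : ℕ,
    ∑ m ∈ range (n+e), (2:ℝ)^(r*m) * (|(m:ℝ)-n|+1)^D ≤ C * (2:ℝ)^(r*n) := sorry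

end Pool.Agent.H402R2.BX
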