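import Pool.Agent.H402R2.BX.OpA0
import Pool.Agent.Helper643.Bern.T15b2
import Pool.Agent.Helper643.Bern.T14c

set_option autoImplicit false
open Finset Matrix
namespace Pool.Agent.H402R2.BX
variable {d M : ℕ}

theorem DD_big (K : Fin d → ℕ) (s : Fin d) (h : M ≤ K s) (f : Gr d M → ℂ) : DD K f = 0 := by
  unfold DD
  exact opA_zero_fac _ s (BernT.ST14c.decay_Dm M (K s) h) f

theorem DD_idem (K : Fin d → ℕ) (f : Gr d M → ℂ) : DD K (DD K f) = DD K f := by
  unfold DD
  rw [opA_mul]
  congr 1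
  funext s
  exact BernT.ST15b2.hD_DD_self M (K s)

theorem DD_orth (K L : Fin d → ℕ) (h : K ≠ L) (f : Gr d M → ℂ) : DD K (DD L f) = 0 := by
  obtain ⟨s, hs⟩ := Function.ne_iff.1 h
  unfold DD
  rw [opA_mul]
  exact opA_zero_fac _ s (BernT.ST15b2.hD_DD_ne M (K s) (L s) hs) f

theorem opS_DD (K : Fin d → ℕ) (s : Fin d) (f : Gr d M → ℂ) :
    opS s (BernT.Dm M (K s)) (DD K f) = DD K f := by
  rw [opS_eq]
  unfold DD
  rw [opA_mul]
  congr 1
  funext t
  by_cases h : t = s
  · subst h
    rw [Function.update_self]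
    exact BernT.ST15b2.hD_DD_self M (K t)
  · rw [Function.update_of_ne h, one_mul]

theorem SQ_mono (A B : Finset (Fin d → ℕ)) (h : A ⊆ B) (f : Gr d M → ℂ) : SQ A f ≤ SQ B f := by
  unfold SQ
  refine Finset.sum_le_sum fun x _ => Real.sqrt_le_sqrt ?_
  exact Finset.sum_le_sum_of_subset_of_nonneg h fun K _ _ => by positivity

theorem SQ_nonneg (A : Finset (Fin d → ℕ)) (f : Gr d M → ℂ) : 0 ≤ SQ A f := by
  unfold SQ
  exact Finset.sum_nonneg fun x _ => Real.sqrt_nonneg _

/-- the sum of the coordinates of a point of the box -/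
theorem A2_box_sum (hd : 1 ≤ d) (K : Fin d → ℕ) (h : ∀ s, K s < M) : ∑ s, K s < d * M := by
  have h1 : ∑ s, K s < ∑ _s : Fin d, M := by
    apply Finset.sum_lt_sum_of_nonempty
    · exact ⟨⟨0, hd⟩, Finset.mem_univ _⟩
    · intro s _
      exact h s
  rw [Finset.sum_const, Finset.card_univ, Fintype.card_fin, smul_eq_mul] at h1
  exact h1

theorem NN_zero (hd : 1 ≤ d) (m : ℕ) (hm : d * M ≤ m) (f : Gr d M → ℂ) : NN m f = 0 := by
  unfold NN SQ
  refine Finset.sum_eq_zero fun x _ => ?_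
  have h1 : ∑ K ∈ Finset.Nat.antidiagonalTuple d m, ‖DD K f x‖^2 = 0 := by
    refine Finset.sum_eq_zero fun K hK => ?_
    rw [Finset.Nat.mem_antidiagonalTuple] at hK
    have h2 : ∃ s, M ≤ K s := by
      by_contra hcon
      push Not at hcon
      have := A2_box_sum hd K hcon
      omega
    obtain ⟨s, hs⟩ := h2
    rw [DD_big K s hs f]
    simp
  rw [h1, Real.sqrt_zero]

theorem L1_sum_le {ι : Type} (t : Finset ι) (f : ι → Gr d M → ℂ) :
    L1 (∑ i ∈ t, f i) ≤ ∑ i ∈ t, L1 (f i) := by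
  unfold L1
  rw [Finset.sum_comm]
  refine Finset.sum_le_sum fun x _ => ?_
  rw [Finset.sum_apply]
  exact norm_sum_le _ _

theorem L1_smul (c : ℂ) (f : Gr d M → ℂ) : L1 (c • f) = ‖c‖ * L1 f := by
  unfold L1
  rw [Finset.mul_sum]
  refine Finset.sum_congr rfl fun x _ => ?_
  rw [Pi.smul_apply, smul_eq_mul, norm_mul]

theorem L1_nonneg (f : Gr d M → ℂ) : 0 ≤ L1 f :=
  Finset.sum_nonneg fun x _ => norm_nonneg _

/-- all the Haar blocks add up to `f` -/
theorem PK_all (hd : 1 ≤ d) (K : ℕ) (hK : d * M ≤ K) (f : Gr d M → ℂ) (hf : Kil f) :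
    PK K f = f := by
  have h1 : f = ∑ a ∈ Fintype.piFinset (fun _ : Fin d => range M), DD a f := by
    have h2 := opA_haar (fun _ => (1 : Mat M)) f hf
    rw [opA_one] at h2
    have h3 : ∑ a ∈ Fintype.piFinset (fun _ : Fin d => range M),
        opA (fun _ => (1 : Mat M)) (DD a f) =
        ∑ a ∈ Fintype.piFinset (fun _ : Fin d => range M), DD a f :=
      Finset.sum_congr rfl fun a _ => opA_one _
    rw [h3] at h2
    exact h2
  have h4 : ∀ m ∈ range K, ∑ L ∈ Finset.Nat.antidiagonalTuple d m, DD L f =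
      ∑ a ∈ (Fintype.piFinset (fun _ : Fin d => range M)).filter (fun a => ∑ s, a s = m),
        DD a f := by
    intro m _
    symm
    apply Finset.sum_subset
    · intro a ha
      rw [Finset.mem_filter] at ha
      exact Finset.Nat.mem_antidiagonalTuple.2 ha.2
    · intro a ha ha'
      rw [Finset.Nat.mem_antidiagonalTuple] at ha
      have h5 : ∃ s, M ≤ a s := by
        by_contra hcon
        push Not at hcon
        apply ha'
        rw [Finset.mem_filter, Fintype.mem_piFinset]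
        exact ⟨fun s => Finset.mem_range.2 (hcon s), ha⟩
      obtain ⟨s, hs⟩ := h5
      exact DD_big a s hs f
  have h6 : PK K f = ∑ a ∈ Fintype.piFinset (fun _ : Fin d => range M), DD a f := by
    unfold PK
    rw [Finset.sum_congr rfl h4]
    apply Finset.sum_fiberwise_of_maps_to
    intro a ha
    rw [Fintype.mem_piFinset] at ha
    have := A2_box_sum hd a (fun s => Finset.mem_range.1 (ha s))
    exact Finset.mem_range.2 (by omega)
  rw [h6]
  exact h1.symm

end Pool.Agent.H402R2.BX
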