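import Pool.Agent.H402R2.BX.Defs

set_option autoImplicit false
open Finset Matrix
namespace Pool.Agent.H402R2.BX
variable {d M : ℕ}

private theorem oa_upd (A : Fin d → Mat M) (s : Fin d) (C : Mat M) (x z : Gr d M) :
    ∏ t, Function.update A s C t (x t) (z t) =
      C (x s) (z s) * ∏ t ∈ univ.erase s, A t (x t) (z t) := by
  rw [← Finset.mul_prod_erase univ _ (mem_univ s), Function.update_self]
  congr 1
  refine Finset.prod_congr rfl fun t ht => ?_
  rw [Function.update_of_ne (Finset.ne_of_mem_erase ht)]

theorem opA_mul (A B : Fin d → Mat M) (f : Gr d M → ℂ) :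
    opA A (opA B f) = opA (fun s => A s * B s) f := by
  funext x
  unfold opA
  have h1 : ∀ y : Gr d M, (∏ s, A s (x s) (y s)) * ∑ z : Gr d M, (∏ s, B s (y s) (z s)) * f z =
      ∑ z : Gr d M, (∏ s, (A s (x s) (y s) * B s (y s) (z s))) * f z := by
    intro y
    rw [Finset.mul_sum]
    refine Finset.sum_congr rfl fun z _ => ?_
    rw [Finset.prod_mul_distrib]
    ring
  rw [Finset.sum_congr rfl (fun y _ => h1 y), Finset.sum_comm]
  refine Finset.sum_congr rfl fun z _ => ?_
  rw [← Finset.sum_mul]
  congr 1
  simp only [Matrix.mul_apply]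
  rw [Fintype.prod_sum (fun (s : Fin d) (t : Fin (2^M)) => A s (x s) t * B s t (z s))]

theorem opA_one (f : Gr d M → ℂ) : opA (fun _ => (1 : Mat M)) f = f := by
  funext x
  unfold opA
  rw [Finset.sum_eq_single x]
  · simp
  · intro z _ hz
    obtain ⟨s, hs⟩ : ∃ s, z s ≠ x s := by
      by_contra h
      push Not at h
      exact hz (funext h)
    rw [Finset.prod_eq_zero (Finset.mem_univ s), zero_mul]
    exact Matrix.one_apply_ne (fun h => hs h.symm)
  · intro h
    exact absurd (Finset.mem_univ x) h

theorem opA_add (A : Fin d → Mat M) (f g : Gr d M → ℂ) : opA A (f + g) = opA A f + opA A g := by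
  funext x
  simp only [opA, Pi.add_apply, mul_add, Finset.sum_add_distrib]

theorem opA_smul (A : Fin d → Mat M) (c : ℂ) (f : Gr d M → ℂ) :
    opA A (c • f) = c • opA A f := by
  funext x
  simp only [opA, Pi.smul_apply, smul_eq_mul, Finset.mul_sum]
  refine Finset.sum_congr rfl fun z _ => ?_
  ring

theorem opA_sum {ι : Type} (A : Fin d → Mat M) (t : Finset ι) (f : ι → Gr d M → ℂ) :
    opA A (∑ i ∈ t, f i) = ∑ i ∈ t, opA A (f i) := by
  funext x
  simp only [opA, Finset.sum_apply, Finset.mul_sum]
  rw [Finset.sum_comm]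

theorem opA_zero (A : Fin d → Mat M) : opA A (0 : Gr d M → ℂ) = 0 := by
  funext x
  simp [opA]

/-- a zero factor -/
theorem opA_zero_fac (A : Fin d → Mat M) (s : Fin d) (h : A s = 0) (f : Gr d M → ℂ) :
    opA A f = 0 := by
  funext x
  unfold opA
  refine Finset.sum_eq_zero fun z _ => ?_
  rw [Finset.prod_eq_zero (Finset.mem_univ s), zero_mul]
  rw [h]
  rfl

theorem opS_eq (s : Fin d) (A : Mat M) (f : Gr d M → ℂ) :
    opS s A f = opA (Function.update (fun _ => 1) s A) f := by
  funext x
  unfold opS opA
  refine Finset.sum_of_injOn (fun z₀ => Function.update x s z₀) ?_ ?_ ?_ ?_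
  · intro a _ b _ hab
    have := congrFun hab s
    simpa using this
  · intro a _
    exact Finset.mem_coe.2 (Finset.mem_univ _)
  · intro z _ hz
    obtain ⟨t, hts, ht⟩ : ∃ t, t ≠ s ∧ z t ≠ x t := by
      by_contra h
      push Not at h
      refine hz ⟨z s, Finset.mem_coe.2 (Finset.mem_univ _), ?_⟩
      funext t
      by_cases hts : t = s
      · subst hts
        simp
      · show Function.update x s (z s) t = z t
        rw [Function.update_of_ne hts, h t hts]
    rw [Finset.prod_eq_zero (Finset.mem_univ t), zero_mul]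
    rw [Function.update_of_ne hts]
    exact Matrix.one_apply_ne (fun h => ht h.symm)
  · intro z₀ _
    rw [oa_upd]
    show A (x s) z₀ * f (Function.update x s z₀) = _
    rw [Function.update_self, Finset.prod_eq_one, mul_one]
    intro t ht
    rw [Function.update_of_ne (Finset.ne_of_mem_erase ht)]
    exact Matrix.one_apply_eq _

/-- multilinearity: sum in one coordinate -/
theorem opA_update_sum {ι : Type} (A : Fin d → Mat M) (s : Fin d) (t : Finset ι) (B : ι → Mat M)
    (f : Gr d M → ℂ) : opA (Function.update A s (∑ i ∈ t, B i)) f =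
      ∑ i ∈ t, opA (Function.update A s (B i)) f := by
  funext x
  unfold opA
  rw [Finset.sum_apply, Finset.sum_comm]
  refine Finset.sum_congr rfl fun z _ => ?_
  rw [← Finset.sum_mul, oa_upd, Matrix.sum_apply, Finset.sum_mul]
  congr 1
  exact Finset.sum_congr rfl fun i _ => (oa_upd _ _ _ _ _).symm

/-- multilinearity: sums in all coordinates -/
theorem opA_prod_sum {ι : Type} [DecidableEq ι] (t : Fin d → Finset ι) (B : Fin d → ι → Mat M)
    (f : Gr d M → ℂ) : opA (fun s => ∑ i ∈ t s, B s i) f =
      ∑ i ∈ Fintype.piFinset t, opA (fun s => B s (i s)) f := by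
  funext x
  unfold opA
  rw [Finset.sum_apply, Finset.sum_comm]
  refine Finset.sum_congr rfl fun z _ => ?_
  rw [← Finset.sum_mul]
  congr 1
  simp only [Matrix.sum_apply]
  rw [Finset.prod_univ_sum]

/-- if the coordinate `s` factor is `C * B` and `B` kills `f` in the coordinate `s` -/
theorem opA_kill (A : Fin d → Mat M) (s : Fin d) (C B : Mat M) (hA : A s = C * B)
    (f : Gr d M → ℂ) (h : opS s B f = 0) : opA A f = 0 := by
  have h1 : A = fun t => (Function.update A s C) t * (Function.update (fun _ => (1 : Mat M)) s B) t := by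
    funext t
    by_cases ht : t = s
    · subst ht
      rw [Function.update_self, Function.update_self, hA]
    · rw [Function.update_of_ne ht, Function.update_of_ne ht, mul_one]
  rw [h1, ← opA_mul, ← opS_eq, h, opA_zero]

/-- splitting off one coordinate -/
theorem opA_split (A : Fin d → Mat M) (s : Fin d) (f : Gr d M → ℂ) :
    opA A f = opS s (A s) (opA (Function.update A s 1) f) := by
  rw [opS_eq, opA_mul]
  congr 1
  funext t
  by_cases ht : t = s
  · subst ht
    rw [Function.update_self, Function.update_self, mul_one]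
  · rw [Function.update_of_ne ht, Function.update_of_ne ht, one_mul]

theorem opS_comm (s t : Fin d) (hst : s ≠ t) (A B : Mat M) (f : Gr d M → ℂ) :
    opS s A (opS t B f) = opS t B (opS s A f) := by
  rw [opS_eq, opS_eq, opS_eq, opS_eq, opA_mul, opA_mul]
  congr 1
  funext r
  by_cases hr : r = s
  · subst hr
    rw [Function.update_self, Function.update_of_ne hst, mul_one, one_mul]
  · rw [Function.update_of_ne hr, one_mul, mul_one]

/-- `opS s B` passes through `opA A` if `A s = 1` -/
theorem opS_opA_comm (s : Fin d) (A : Fin d → Mat M) (hA : A s = 1) (B : Mat M)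
    (f : Gr d M → ℂ) : opS s B (opA A f) = opA A (opS s B f) := by
  rw [opS_eq, opS_eq, opA_mul, opA_mul]
  congr 1
  funext r
  by_cases hr : r = s
  · subst hr
    rw [Function.update_self, hA, mul_one, one_mul]
  · rw [Function.update_of_ne hr, one_mul, mul_one]

/-- product functions -/
theorem opA_prod (A : Fin d → Mat M) (g : Fin d → Fin (2^M) → ℂ) :
    opA A (fun x => ∏ s, g s (x s)) = fun x => ∏ s, (A s *ᵥ g s) (x s) := by
  funext x
  unfold opA
  simp only [Matrix.mulVec, dotProduct]
  rw [Fintype.prod_sum (fun (s : Fin d) (t : Fin (2^M)) => A s (x s) t * g s t)]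
  refine Finset.sum_congr rfl fun z _ => ?_
  rw [Finset.prod_mul_distrib]

private theorem oa_Em (M : ℕ) : BernT.Em M M = 1 := by
  ext x z
  unfold BernT.Em
  rw [Nat.sub_self, pow_zero, Nat.div_one, Nat.div_one, pow_zero, inv_one, Matrix.one_apply]
  by_cases hxz : x = z
  · subst hxz
    simp
  · rw [if_neg, if_neg hxz]
    intro h
    exact hxz (Fin.ext h)

private theorem oa_sum_Dm (M : ℕ) : ∑ a ∈ range M, BernT.Dm M a = 1 - BernT.Em M 0 := by
  unfold BernT.Dm
  rw [Finset.sum_range_sub, oa_Em M]

private theorem oa_id (f : Gr d M → ℂ) (hf : Kil f) :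
    opA (fun _ : Fin d => (1 - BernT.Em M 0 : Mat M)) f = f := by
  have h1 : (fun _ : Fin d => (1 - BernT.Em M 0 : Mat M)) =
      fun _ : Fin d => ∑ b ∈ (univ : Finset Bool), (if b then (1 : Mat M) else -BernT.Em M 0) := by
    funext s
    rw [Fintype.sum_bool]
    simp [sub_eq_add_neg]
  rw [h1, opA_prod_sum (fun _ : Fin d => (univ : Finset Bool))
    (fun _ b => if b then (1 : Mat M) else -BernT.Em M 0)]
  rw [Finset.sum_eq_single (fun _ => true)]
  · simp only [if_true]
    exact opA_one f
  · intro b _ hb
    obtain ⟨s, hs⟩ : ∃ s, b s ≠ true := by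
      by_contra h
      push Not at h
      exact hb (funext h)
    refine opA_kill _ s (-1) (BernT.Em M 0) ?_ f (hf s)
    have h2 : b s = false := by simpa using hs
    simp [h2]
  · intro h
    exact absurd (Fintype.mem_piFinset.2 fun s => Finset.mem_univ _) h

/-- expansion of a function with vanishing means into Haar blocks, inside an operator -/
theorem opA_haar (A : Fin d → Mat M) (f : Gr d M → ℂ) (hf : Kil f) :
    opA A f = ∑ a ∈ Fintype.piFinset (fun _ : Fin d => range M), opA A (DD a f) := by
  rw [← opA_sum]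
  congr 1
  unfold DD
  rw [← opA_prod_sum (fun _ : Fin d => range M) (fun _ a => BernT.Dm M a)]
  simp only [oa_sum_Dm]
  exact (oa_id f hf).symm

end Pool.Agent.H402R2.BX
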