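import Pool.Agent.H402R2.BX.OpA
import Pool.Agent.Helper643.Bern.T17a

set_option autoImplicit false
open Finset Matrix
namespace Pool.Agent.H402R2.BX

namespace PartAux

variable {d M : ℕ}

/-- average in the coordinate `s` -/
noncomputable def avg (s : Fin d) (f : Gr d M → ℂ) : Gr d M → ℂ :=
  fun x => ((2:ℂ)^M)⁻¹ * ∑ z : Fin (2^M), f (Function.update x s z)

/-- exchange of the coordinate `s` with an extra variable -/
def exch (s : Fin d) : (Gr d M × Fin (2^M)) ≃ (Gr d M × Fin (2^M)) where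
  toFun p := (Function.update p.1 s p.2, p.1 s)
  invFun p := (Function.update p.1 s p.2, p.1 s)
  left_inv p := by simp
  right_inv p := by simp

theorem sum_update (s : Fin d) (g : Gr d M → ℝ) :
    ∑ x : Gr d M, ∑ z : Fin (2^M), g (Function.update x s z) = 2^M * ∑ x : Gr d M, g x := by
  rw [← Fintype.sum_prod_type' (fun (x : Gr d M) (z : Fin (2^M)) => g (Function.update x s z))]
  have h1 : ∑ p : Gr d M × Fin (2^M), g (Function.update p.1 s p.2) =
      ∑ p : Gr d M × Fin (2^M), g p.1 :=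
    Equiv.sum_comp (exch s) (fun p : Gr d M × Fin (2^M) => g p.1)
  rw [h1, Fintype.sum_prod_type]
  simp only [Finset.sum_const, Finset.card_univ, Fintype.card_fin, nsmul_eq_mul]
  rw [← Finset.mul_sum]
  push_cast
  ring

theorem L1_avg (s : Fin d) (f : Gr d M → ℂ) : L1 (avg s f) ≤ L1 f := by
  unfold L1 avg
  have h2 : (0:ℝ) < 2^M := by positivity
  calc ∑ x, ‖((2:ℂ)^M)⁻¹ * ∑ z : Fin (2^M), f (Function.update x s z)‖
      ≤ ∑ x : Gr d M, ((2:ℝ)^M)⁻¹ * ∑ z : Fin (2^M), ‖f (Function.update x s z)‖ := by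
        apply Finset.sum_le_sum
        intro x _
        rw [norm_mul, norm_inv, norm_pow, Complex.norm_ofNat]
        exact mul_le_mul_of_nonneg_left (norm_sum_le _ _) (by positivity)
    _ = ∑ x, ‖f x‖ := by
        rw [← Finset.mul_sum, sum_update s (fun x => ‖f x‖)]
        field_simp

theorem avg_char (s : Fin d) (k : Fin d → ℤ) (hk : |k s| < (2:ℤ)^M) (x : Gr d M) :
    ((2:ℂ)^M)⁻¹ * ∑ z : Fin (2^M), ∏ t, BernT.ex M (k t * (((Function.update x s z) t : ℕ) : ℤ)) =
      if k s = 0 then ∏ t, BernT.ex M (k t * ((x t : ℕ) : ℤ)) else 0 := by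
  have h1 : ∀ z : Fin (2^M), ∏ t, BernT.ex M (k t * (((Function.update x s z) t : ℕ) : ℤ)) =
      BernT.ex M (k s * ((z:ℕ):ℤ)) * ∏ t ∈ univ.erase s, BernT.ex M (k t * ((x t : ℕ) : ℤ)) := by
    intro z
    rw [← Finset.mul_prod_erase univ _ (Finset.mem_univ s)]
    congr 1
    · simp
    · apply Finset.prod_congr rfl
      intro t ht
      rw [Function.update_of_ne (Finset.ne_of_mem_erase ht)]
  simp only [h1]
  rw [← Finset.sum_mul, BernT.ST17a.sum_ex]
  have hM : (2:ℂ)^M ≠ 0 := pow_ne_zero _ two_ne_zero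
  by_cases h : k s = 0
  · rw [if_pos h, h, if_pos (dvd_zero _)]
    rw [← Finset.mul_prod_erase univ (fun t => BernT.ex M (k t * ((x t : ℕ) : ℤ))) (Finset.mem_univ s)]
    have : BernT.ex M (k s * ((x s : ℕ) : ℤ)) = 1 := by
      rw [h, zero_mul]; simp [BernT.ex]
    rw [this]
    field_simp
  · rw [if_neg h, if_neg]
    · simp
    · intro hd
      exact h (Int.eq_zero_of_abs_lt_dvd hd hk)

theorem avg_tp (s : Fin d) (S : Finset (Fin d → ℤ)) (c : (Fin d → ℤ) → ℂ)
    (hS : ∀ k ∈ S, |k s| < (2:ℤ)^M) :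
    avg s (tp M S c) = tp M (S.filter (fun k => k s = 0)) c := by
  funext x
  unfold avg tp
  rw [Finset.sum_comm, Finset.mul_sum, Finset.sum_filter]
  apply Finset.sum_congr rfl
  intro k hk
  rw [← Finset.mul_sum, mul_left_comm, avg_char s k (hS k hk) x]
  split_ifs <;> simp

theorem L1_add_le (f g : Gr d M → ℂ) : L1 (f + g) ≤ L1 f + L1 g := by
  unfold L1
  rw [← Finset.sum_add_distrib]
  exact Finset.sum_le_sum fun x _ => norm_add_le _ _

theorem L1_neg' (f : Gr d M → ℂ) : L1 (-f) = L1 f := by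
  unfold L1
  simp

theorem step (s : Fin d) (b : Prop) [Decidable b] (S : Finset (Fin d → ℤ)) (c : (Fin d → ℤ) → ℂ)
    (hS : ∀ k ∈ S, |k s| < (2:ℤ)^M) :
    L1 (tp M (S.filter (fun k => k s ≠ 0 ↔ b)) c) ≤ 2 * L1 (tp M S c) := by
  have h0 : L1 (tp M (S.filter (fun k => k s = 0)) c) ≤ L1 (tp M S c) := by
    rw [← avg_tp s S c hS]; exact L1_avg s _
  have hn : 0 ≤ L1 (tp M S c) := Finset.sum_nonneg fun _ _ => norm_nonneg _
  by_cases hb : b
  · have e : S.filter (fun k => k s ≠ 0 ↔ b) = S.filter (fun k => ¬ (k s = 0)) := by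
      apply Finset.filter_congr
      intro k _
      simp [hb]
    rw [e]
    have h1 : tp M (S.filter (fun k => ¬ (k s = 0))) c =
        tp M S c + -(tp M (S.filter (fun k => k s = 0)) c) := by
      funext x
      simp only [Pi.add_apply, Pi.neg_apply, tp]
      rw [← Finset.sum_filter_add_sum_filter_not S (fun k => k s = 0)]
      ring
    rw [h1]
    calc _ ≤ L1 (tp M S c) + L1 (-(tp M (S.filter (fun k => k s = 0)) c)) := L1_add_le _ _
      _ ≤ _ := by rw [L1_neg']; linarith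
  · have e : S.filter (fun k => k s ≠ 0 ↔ b) = S.filter (fun k => k s = 0) := by
      apply Finset.filter_congr
      intro k _
      simp [hb]
    rw [e]
    linarith

theorem part1 (S : Finset (Fin d → ℤ)) (c : (Fin d → ℤ) → ℂ) (T : Finset (Fin d))
    (hS : ∀ k ∈ S, ∀ s, |k s| < (2:ℤ)^M) (U : Finset (Fin d)) :
    L1 (tp M (S.filter (fun k => ∀ s ∈ U, k s ≠ 0 ↔ s ∈ T)) c) ≤ 2^(U.card) * L1 (tp M S c) := by
  classical
  induction U using Finset.induction_on with
  | empty => simp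
  | insert a U ha ih =>
    have e : S.filter (fun k => ∀ s ∈ insert a U, k s ≠ 0 ↔ s ∈ T) =
        (S.filter (fun k => ∀ s ∈ U, k s ≠ 0 ↔ s ∈ T)).filter (fun k => k a ≠ 0 ↔ a ∈ T) := by
      ext k
      simp only [Finset.mem_filter, Finset.mem_insert, forall_eq_or_imp]
      tauto
    rw [e, Finset.card_insert_of_notMem ha]
    have h1 := step (M := M) a (a ∈ T) (S.filter (fun k => ∀ s ∈ U, k s ≠ 0 ↔ s ∈ T)) c
      (fun k hk => hS k (Finset.mem_filter.1 hk).1 a)
    calc _ ≤ _ := h1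
      _ ≤ 2 * (2^(U.card) * L1 (tp M S c)) := by linarith
      _ = _ := by ring

/-- the shift -/
def sh (T : Finset (Fin d)) (k : Fin d → ℤ) : Fin d → ℤ := fun s => if s ∈ T then k s else 1

/-- its inverse -/
def sh' (T : Finset (Fin d)) (k : Fin d → ℤ) : Fin d → ℤ := fun s => if s ∈ T then k s else 0

theorem sh'_sh (T : Finset (Fin d)) (k : Fin d → ℤ) (h : ∀ s, s ∉ T → k s = 0) :
    sh' T (sh T k) = k := by
  funext s
  unfold sh' sh
  by_cases hs : s ∈ T
  · simp [hs]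
  · simp [hs, h s hs]

theorem norm_ex (a : ℤ) : ‖BernT.ex M a‖ = 1 := by
  unfold BernT.ex
  have : 2 * Real.pi * Complex.I * (a:ℂ) / (2:ℂ)^M = ((2 * Real.pi * a / 2^M : ℝ) : ℂ) * Complex.I := by
    push_cast; ring
  rw [this, Complex.norm_exp_ofReal_mul_I]

theorem shift (T : Finset (Fin d)) (S : Finset (Fin d → ℤ)) (F : (Fin d → ℤ) → ℂ)
    (hS : ∀ k ∈ S, ∀ s, s ∉ T → k s = 0) :
    L1 (tp M (S.image (sh T)) F) = L1 (tp M S (fun k => F (sh T k))) := by
  classical
  unfold L1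
  apply Finset.sum_congr rfl
  intro x _
  have h1 : tp M (S.image (sh T)) F x =
      (∏ s, BernT.ex M ((if s ∈ T then 0 else 1) * ((x s : ℕ) : ℤ))) *
        tp M S (fun k => F (sh T k)) x := by
    unfold tp
    rw [Finset.sum_image, Finset.mul_sum]
    · apply Finset.sum_congr rfl
      intro k hk
      rw [mul_left_comm, ← Finset.prod_mul_distrib]
      congr 1
      apply Finset.prod_congr rfl
      intro s _
      rw [← BernT.ST17a.ex_add, ← add_mul]
      congr 2
      unfold sh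
      by_cases hs : s ∈ T
      · simp [hs]
      · simp [hs, hS k hk s hs]
    · intro k hk k' hk' h
      have h1 := congrArg (sh' T) h
      rw [sh'_sh T k (hS k hk), sh'_sh T k' (hS k' hk')] at h1
      exact h1
  rw [h1, norm_mul, norm_prod]
  simp only [norm_ex, Finset.prod_const_one, one_mul]

theorem tp_congr (S : Finset (Fin d → ℤ)) (c c' : (Fin d → ℤ) → ℂ) (h : ∀ k ∈ S, c k = c' k) :
    tp M S c = tp M S c' := by
  funext x
  unfold tp
  exact Finset.sum_congr rfl fun k hk => by rw [h k hk]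

end PartAux

open PartAux in
/-- the part of the spectrum with support exactly `T`; `grid` is the theorem of `Grid.lean` -/
theorem part (d : ℕ) (r : ℝ)
    (grid : ∃ C : ℝ, 0 < C ∧ ∃ L : ℕ,
      ∀ (M n : ℕ) (S : Finset (Fin d → ℤ)) (c : (Fin d → ℤ) → ℂ) (u v : Fin d → ℂ),
      (∀ s, ‖u s‖ ≤ 1) → (∀ s, ‖v s‖ ≤ 1) →
      (∀ k ∈ S, (∀ s, k s ≠ 0) ∧ ∏ s, |k s| ≤ 2^n) → n + L ≤ M →
      L1 (tp M S (fun k => (∏ s, ((((|(k s:ℝ)|)^r : ℝ) : ℂ) * (if 0 < k s then u s else v s))) *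
        c k)) ≤ C * (2:ℝ)^(r*n) * L1 (tp M S c)) :
    ∃ C : ℝ, 0 < C ∧ ∃ L : ℕ, ∀ (M n : ℕ) (S : Finset (Fin d → ℤ)) (c : (Fin d → ℤ) → ℂ)
      (α : Fin d → ℝ) (T : Finset (Fin d)), (∀ k ∈ S, ∏ s, max |k s| 1 ≤ 2^n) → n + L ≤ M →
      L1 (tp M (S.filter (fun k => ∀ s, k s ≠ 0 ↔ s ∈ T))
        (fun k => (∏ s, BernP.mu r (α s) (k s)) * c k)) ≤ C * (2:ℝ)^(r*n) * L1 (tp M S c) := by
  classical
  obtain ⟨C, hC, L, hL⟩ := grid
  refine ⟨C * 2^d, by positivity, L + 1, ?_⟩
  intro M n S c α T hS hM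
  have hb : ∀ k ∈ S, ∀ s, |k s| < (2:ℤ)^M := by
    intro k hk s
    have h1 : max |k s| 1 ≤ ∏ t, max |k t| 1 := by
      rw [← Finset.mul_prod_erase univ _ (Finset.mem_univ s)]
      have h2 : (1:ℤ) ≤ ∏ t ∈ univ.erase s, max |k t| 1 := by
        exact Finset.prod_induction _ (fun x : ℤ => 1 ≤ x)
          (fun a b ha hb => one_le_mul_of_one_le_of_one_le ha hb) le_rfl
          (fun t _ => le_max_right _ _)
      have h3 : (0:ℤ) ≤ max |k s| 1 := le_trans zero_le_one (le_max_right _ _)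
      calc max |k s| 1 = max |k s| 1 * 1 := (mul_one _).symm
        _ ≤ _ := mul_le_mul_of_nonneg_left h2 h3
    calc |k s| ≤ max |k s| 1 := le_max_left _ _
      _ ≤ _ := h1
      _ ≤ 2^n := hS k hk
      _ < 2^M := pow_lt_pow_right₀ one_lt_two (by omega)
  set ST := S.filter (fun k => ∀ s, k s ≠ 0 ↔ s ∈ T) with hST
  have hST0 : ∀ k ∈ ST, ∀ s, s ∉ T → k s = 0 := by
    intro k hk s hs
    by_contra h
    exact hs (((Finset.mem_filter.1 hk).2 s).1 h)
  have h1 : L1 (tp M ST c) ≤ 2^d * L1 (tp M S c) := by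
    have := part1 (M := M) S c T hb univ
    simpa [hST] using this
  set u : Fin d → ℂ := fun s => if s ∈ T then Complex.exp (Complex.I * ((α s * Real.pi / 2 : ℝ) : ℂ)) else 1 with hu
  set v : Fin d → ℂ := fun s => if s ∈ T then Complex.exp (Complex.I * ((-(α s * Real.pi / 2) : ℝ) : ℂ)) else 1 with hv
  have nrm : ∀ t : ℝ, ‖Complex.exp (Complex.I * (t:ℂ))‖ = 1 := by
    intro t
    rw [mul_comm]; exact Complex.norm_exp_ofReal_mul_I t
  have hun : ∀ s, ‖u s‖ ≤ 1 := by
    intro s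
    simp only [hu]
    split_ifs
    · rw [nrm]
    · simp
  have hvn : ∀ s, ‖v s‖ ≤ 1 := by
    intro s
    simp only [hv]
    split_ifs
    · rw [nrm]
    · simp
  have hmem : ∀ k ∈ ST.image (sh T), (∀ s, k s ≠ 0) ∧ ∏ s, |k s| ≤ 2^n := by
    intro k hk
    obtain ⟨k0, hk0, rfl⟩ := Finset.mem_image.1 hk
    have hk1 := (Finset.mem_filter.1 hk0)
    refine ⟨?_, ?_⟩
    · intro s
      unfold sh
      split_ifs with h
      · exact (hk1.2 s).2 h
      · exact one_ne_zero
    · have e : ∏ s, |sh T k0 s| = ∏ s, max |k0 s| 1 := by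
        apply Finset.prod_congr rfl
        intro s _
        unfold sh
        split_ifs with h
        · have := Int.one_le_abs ((hk1.2 s).2 h)
          rw [max_eq_left this]
        · rw [hST0 k0 hk0 s h]; simp
      rw [e]
      exact hS k0 hk1.1
  have h2 := hL M n (ST.image (sh T)) (fun k => c (sh' T k)) u v hun hvn hmem (by omega)
  rw [shift T ST _ hST0, shift T ST _ hST0] at h2
  have e1 : tp M ST (fun k => (fun k => c (sh' T k)) (sh T k)) = tp M ST c := by
    apply tp_congr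
    intro k hk
    show c (sh' T (sh T k)) = c k
    rw [sh'_sh T k (hST0 k hk)]
  rw [e1] at h2
  have e2 : tp M ST (fun k => (fun k => (∏ s, ((((|(k s:ℝ)|)^r : ℝ) : ℂ) *
      (if 0 < k s then u s else v s))) * (fun k => c (sh' T k)) k) (sh T k)) =
      tp M ST (fun k => (∏ s, BernP.mu r (α s) (k s)) * c k) := by
    apply tp_congr
    intro k hk
    show (∏ s, ((((|((sh T k) s:ℝ)|)^r : ℝ) : ℂ) * (if 0 < (sh T k) s then u s else v s))) *
      c (sh' T (sh T k)) = _
    rw [sh'_sh T k (hST0 k hk)]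
    congr 1
    apply Finset.prod_congr rfl
    intro s _
    unfold BernP.mu sh
    by_cases hs : s ∈ T
    · have hks : k s ≠ 0 := ((Finset.mem_filter.1 hk).2 s).2 hs
      rw [if_neg hks]
      simp only [if_pos hs, hu, hv]
      congr 1
      rcases lt_or_gt_of_ne hks with h | h
      · rw [if_neg (by omega), Int.sign_eq_neg_one_of_neg h]
        congr 1
        push_cast
        ring
      · rw [if_pos h, Int.sign_eq_one_of_pos h]
        congr 1
        push_cast
        ring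
    · have hks : k s = 0 := hST0 k hk s hs
      simp [hs, hks, hu]
  rw [e2] at h2
  calc _ ≤ _ := h2
    _ ≤ C * (2:ℝ)^(r*n) * (2^d * L1 (tp M S c)) := mul_le_mul_of_nonneg_left h1 (by positivity)
    _ = _ := by ring

end Pool.Agent.H402R2.BX
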