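import Pool.Agent.H402R2.BX.Defs

set_option autoImplicit false
open Finset Matrix
namespace Pool.Agent.H402R2.BX
variable {d : ℕ}

/-- Riemann sums -/
theorem riemann (S : Finset (Fin d → ℤ)) (c : (Fin d → ℤ) → ℂ) :
    Filter.Tendsto (fun M : ℕ => (1/((2:ℝ)^M)^d) * L1 (tp M S c)) Filter.atTop
      (nhds (nrm1 (P S c))) := sorry

/-- passing from the grids to the torus -/
theorem toTorus (n L : ℕ) (C : ℝ) (S S' : Finset (Fin d → ℤ)) (c c' : (Fin d → ℤ) → ℂ)
    (h : ∀ M, n + L ≤ M → L1 (tp M S' c') ≤ C * L1 (tp M S c)) :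
    nrm1 (P S' c') ≤ C * nrm1 (P S c) := by
  have h1 := riemann S' c'
  have h2 := (riemann S c).const_mul C
  refine le_of_tendsto_of_tendsto h1 h2 ?_
  filter_upwards [Filter.eventually_ge_atTop (n + L)] with M hM
  have h3 := h M hM
  have h4 : (0:ℝ) ≤ 1 / ((2:ℝ)^M)^d := by positivity
  calc _ ≤ (1 / ((2:ℝ)^M)^d) * (C * L1 (tp M S c)) := mul_le_mul_of_nonneg_left h3 h4
    _ = _ := by ring

end Pool.Agent.H402R2.BX
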