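import Pool.Agent.H402R2.BX.Expand

set_option autoImplicit false
open Finset
namespace Pool.Agent.H402R2.BX
open Pool.Agent.H730R2.LD

private theorem cheb {X : Type} [Fintype X] (g : X → ℝ) {τ : ℝ} (hτ : 0 < τ) :
    ((univ.filter fun x => τ < g x).card : ℝ) ≤ nsq g / τ ^ 2 := by
  classical
  have h2 : ((univ.filter fun x => τ < g x).card : ℝ) * τ ^ 2 ≤ nsq g := by
    rw [← nsmul_eq_mul, ← Finset.sum_const]
    unfold nsq
    calc ∑ x ∈ univ.filter (fun x => τ < g x), τ ^ 2
        ≤ ∑ x ∈ univ.filter (fun x => τ < g x), g x ^ 2 := by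
          refine sum_le_sum fun x hx => ?_
          have hx' := (mem_filter.mp hx).2
          nlinarith
      _ ≤ ∑ x, g x ^ 2 := sum_le_sum_of_subset_of_nonneg (filter_subset _ _)
          fun x _ _ => sq_nonneg _
  have ht2 : 0 < τ ^ 2 := by positivity
  rw [le_div_iff₀ ht2]
  exact h2

/-- pairing with a bounded function which vanishes on `B` -/
private theorem pairing' {d R : ℕ} {X : Type} [Fintype X] (S : Sys d R X) {Bs : ℕ → Finset X}
    {F : Finset (Fin d) → (Fin d → ℕ) → X → ℝ}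
    (hF : Fam S Bs F d) (hd : 1 ≤ d)
    (g : X → ℝ) (M : ℝ) (hg : ∀ x, |g x| ≤ M) :
    ∑ K ∈ Lev d R univ, nsq (S.EU univ K (g * WW S F K)) ≤
      2 ^ d * (2 ^ d * (nsq g + M ^ 2 * ((4 * 2 ^ d * d) ^ d * (Bs 0).card))) := by
  classical
  have hd1 : (1 : ℝ) ≤ d := by exact_mod_cast hd
  have h2d : (1 : ℝ) ≤ 2 ^ d := one_le_pow₀ (by norm_num)
  have hΛ : (1 : ℝ) ≤ 4 * 2 ^ d * d := by nlinarith
  have hb0 : (0 : ℝ) ≤ (Bs 0).card := Nat.cast_nonneg _
  -- one set V
  have hone : ∀ V ∈ (univ : Finset (Fin d)).powerset, ∑ K ∈ Lev d R univ,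
      nsq (S.EU univ K (S.chi (univ \ V) K * (g * F V K))) ≤
        nsq g + M ^ 2 * ((4 * 2 ^ d * d) ^ d * (Bs 0).card) := by
    intro V _
    have hcard : V.card ≤ d := by simpa using Finset.card_le_univ V
    have hdisj : Disjoint V (univ \ V) := Finset.disjoint_sdiff
    have hun : V ∪ (univ \ V) = univ := Finset.union_sdiff_of_subset (Finset.subset_univ V)
    have h1 : ∑ K ∈ Lev d R univ, nsq (S.EU univ K (S.chi (univ \ V) K * (g * F V K))) ≤
        ∑ K ∈ Lev d R univ, nsq (S.EU (univ \ V) K (S.chi (univ \ V) K * (g * F V K))) := by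
      apply Finset.sum_le_sum
      intro K _
      have e : S.EU univ K (S.chi (univ \ V) K * (g * F V K)) =
          S.EU V K (S.EU (univ \ V) K (S.chi (univ \ V) K * (g * F V K))) := by
        rw [← EU_union S hdisj, hun]
      rw [e]
      exact S.nsq_EU_le K _
    have h2 := bessel_multi S V (univ \ V) hdisj (fun K => g * F V K) (by
      intro K K' h
      rw [hF.dep V K K' h])
    rw [hun] at h2
    have hM0 : 0 ≤ M ^ 2 * ((4 * 2 ^ d * (d : ℝ)) ^ d * (Bs 0).card) := by positivity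
    have h4 : ∑ K ∈ Lev d R V, nsq (g * F V K) ≤
        nsq g + M ^ 2 * ((4 * 2 ^ d * d) ^ d * (Bs 0).card) := by
      rcases Finset.eq_empty_or_nonempty V with he | he
      · rw [he, Lev_empty, Finset.sum_singleton, hF.zero]
        have hle : nsq (g * (1 - ind (Bs 0))) ≤ nsq g := by
          unfold nsq
          apply Finset.sum_le_sum
          intro x _
          simp only [Pi.sub_apply, Pi.one_apply, Pi.mul_apply]
          rw [mul_pow]
          have h0 := ind_nonneg (Bs 0) x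
          have h1 := ind_le_one (Bs 0) x
          have h3 : (1 - ind (Bs 0) x) ^ 2 ≤ 1 := by nlinarith
          nlinarith [sq_nonneg (g x)]
        linarith
      · have h3 : ∀ K ∈ Lev d R V, nsq (g * F V K) ≤ M ^ 2 * nsq (F V K) := by
          intro K hK
          unfold nsq
          rw [Finset.mul_sum]
          apply Finset.sum_le_sum
          intro x _
          simp only [Pi.mul_apply]
          rw [mul_pow]
          apply mul_le_mul_of_nonneg_right _ (sq_nonneg _)
          rw [← sq_abs]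
          exact pow_le_pow_left₀ (abs_nonneg _) (hg x) 2
        have h5 : ∑ K ∈ Lev d R V, nsq (F V K) ≤ (4 * 2 ^ d * d) ^ d * (Bs 0).card := by
          refine (sum_fam S hF hd V he).trans ?_
          have : (4 * 2 ^ d * (d : ℝ)) ^ V.card ≤ (4 * 2 ^ d * d) ^ d := pow_le_pow_right₀ hΛ hcard
          exact mul_le_mul_of_nonneg_right this hb0
        calc ∑ K ∈ Lev d R V, nsq (g * F V K) ≤ ∑ K ∈ Lev d R V, M ^ 2 * nsq (F V K) :=
              Finset.sum_le_sum h3
          _ = M ^ 2 * ∑ K ∈ Lev d R V, nsq (F V K) := by rw [Finset.mul_sum]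
          _ ≤ M ^ 2 * ((4 * 2 ^ d * d) ^ d * (Bs 0).card) :=
              mul_le_mul_of_nonneg_left h5 (sq_nonneg M)
          _ ≤ _ := by linarith [nsq_nonneg g]
    exact (h1.trans h2).trans h4
  have hsplit : ∀ K, S.EU univ K (g * WW S F K) =
      ∑ V ∈ (univ : Finset (Fin d)).powerset,
        S.EU univ K (S.chi (univ \ V) K * (g * F V K)) := by
    intro K
    unfold WW
    rw [Finset.mul_sum, map_sum]
    apply Finset.sum_congr rfl
    intro V _
    congr 1
    ring
  have hcp : (((univ : Finset (Fin d)).powerset.card : ℕ) : ℝ) = 2 ^ d := by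
    rw [Finset.card_powerset]; simp
  calc ∑ K ∈ Lev d R univ, nsq (S.EU univ K (g * WW S F K))
      ≤ ∑ K ∈ Lev d R univ, 2 ^ d * ∑ V ∈ (univ : Finset (Fin d)).powerset,
          nsq (S.EU univ K (S.chi (univ \ V) K * (g * F V K))) := by
        apply Finset.sum_le_sum
        intro K _
        rw [hsplit, ← hcp]
        exact nsq_sum_le _ _
    _ = 2 ^ d * ∑ V ∈ (univ : Finset (Fin d)).powerset, ∑ K ∈ Lev d R univ,
          nsq (S.EU univ K (S.chi (univ \ V) K * (g * F V K))) := by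
        rw [← Finset.mul_sum, Finset.sum_comm]
    _ ≤ 2 ^ d * ∑ V ∈ (univ : Finset (Fin d)).powerset,
          (nsq g + M ^ 2 * ((4 * 2 ^ d * d) ^ d * (Bs 0).card)) :=
        mul_le_mul_of_nonneg_left (Finset.sum_le_sum hone) (by positivity)
    _ = _ := by rw [Finset.sum_const, nsmul_eq_mul, hcp]

/-- the exceptional set -/
private noncomputable def btil {d R : ℕ} {X : Type} [Fintype X] (S : Sys d R X) (B0 : Finset X)
    (F : Finset (Fin d) → (Fin d → ℕ) → X → ℝ) : Finset X := by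
  classical
  exact (univ.filter fun x => 1 / 4 < S.MM (List.finRange d) (ind B0) x) ∪
    ((univ : Finset (Fin d)).powerset.erase ∅).biUnion fun V => (Lev d R V).biUnion fun K =>
      univ.filter fun x => 1 / (4 * 2 ^ d) <
        S.MM (List.finRange d) (fun y => |S.EU V K (S.chi V K * F V K) y|) x

private theorem nsq_abs {X : Type} [Fintype X] (f : X → ℝ) : nsq (fun y => |f y|) = nsq f := by
  unfold nsq
  exact Finset.sum_congr rfl fun x _ => sq_abs _

private theorem btil_card {d R : ℕ} {X : Type} [Fintype X] (S : Sys d R X) {Bs : ℕ → Finset X}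
    {F : Finset (Fin d) → (Fin d → ℕ) → X → ℝ} (hF : Fam S Bs F d) (hd : 1 ≤ d) :
    ((btil S (Bs 0) F).card : ℝ) ≤
      (16 * 4 ^ d + 2 ^ d * (4 ^ d * (4 * 2 ^ d) ^ 2 * (4 * 2 ^ d * d) ^ d)) * (Bs 0).card := by
  classical
  have hd1 : (1 : ℝ) ≤ d := by exact_mod_cast hd
  have h2d : (1 : ℝ) ≤ 2 ^ d := one_le_pow₀ (by norm_num)
  have hΛ : (1 : ℝ) ≤ 4 * 2 ^ d * d := by nlinarith
  have hb0 : (0 : ℝ) ≤ (Bs 0).card := Nat.cast_nonneg _
  have h1 : ((univ.filter fun x => 1 / 4 < S.MM (List.finRange d) (ind (Bs 0)) x).card : ℝ) ≤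
      16 * 4 ^ d * (Bs 0).card := by
    refine (cheb _ (by norm_num)).trans ?_
    have := S.nsq_MM (List.finRange d) (ind (Bs 0))
    rw [List.length_finRange, nsq_ind] at this
    rw [div_le_iff₀ (by norm_num)]
    nlinarith
  have h2 : ∀ V ∈ (univ : Finset (Fin d)).powerset.erase ∅,
      (((Lev d R V).biUnion fun K => univ.filter fun x => 1 / (4 * 2 ^ d) <
        S.MM (List.finRange d) (fun y => |S.EU V K (S.chi V K * F V K) y|) x).card : ℝ) ≤
      4 ^ d * (4 * 2 ^ d) ^ 2 * (4 * 2 ^ d * d) ^ d * (Bs 0).card := by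
    intro V hVm
    have hne : V.Nonempty := Finset.nonempty_iff_ne_empty.2 (Finset.mem_erase.1 hVm).1
    have hcard : V.card ≤ d := by simpa using Finset.card_le_univ V
    calc (((Lev d R V).biUnion fun K => univ.filter fun x => 1 / (4 * 2 ^ d) <
        S.MM (List.finRange d) (fun y => |S.EU V K (S.chi V K * F V K) y|) x).card : ℝ)
        ≤ ∑ K ∈ Lev d R V, ((univ.filter fun x => 1 / (4 * 2 ^ d) <
        S.MM (List.finRange d) (fun y => |S.EU V K (S.chi V K * F V K) y|) x).card : ℝ) := by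
          exact_mod_cast Finset.card_biUnion_le
      _ ≤ ∑ K ∈ Lev d R V, 4 ^ d * (4 * 2 ^ d) ^ 2 * nsq (F V K) := by
          apply Finset.sum_le_sum
          intro K _
          refine (cheb _ (by positivity)).trans ?_
          have h3 := S.nsq_MM (List.finRange d) (fun y => |S.EU V K (S.chi V K * F V K) y|)
          rw [List.length_finRange, nsq_abs] at h3
          have h4 : nsq (S.EU V K (S.chi V K * F V K)) ≤ nsq (F V K) := by
            refine (S.nsq_EU_le K _).trans ?_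
            rw [S.nsq_chi_mul]
          have h5 : nsq (S.MM (List.finRange d) (fun y => |S.EU V K (S.chi V K * F V K) y|)) ≤
              4 ^ d * nsq (F V K) :=
            h3.trans (mul_le_mul_of_nonneg_left h4 (by positivity))
          have e : (1 / (4 * 2 ^ d) : ℝ) ^ 2 = 1 / (4 * 2 ^ d) ^ 2 := by rw [div_pow, one_pow]
          rw [e, div_div_eq_mul_div, div_one]
          nlinarith [h5, sq_nonneg (4 * 2 ^ d : ℝ)]
      _ = 4 ^ d * (4 * 2 ^ d) ^ 2 * ∑ K ∈ Lev d R V, nsq (F V K) := by rw [Finset.mul_sum]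
      _ ≤ 4 ^ d * (4 * 2 ^ d) ^ 2 * ((4 * 2 ^ d * d) ^ d * (Bs 0).card) := by
          apply mul_le_mul_of_nonneg_left _ (by positivity)
          refine (sum_fam S hF hd V hne).trans ?_
          have : (4 * 2 ^ d * (d : ℝ)) ^ V.card ≤ (4 * 2 ^ d * d) ^ d := pow_le_pow_right₀ hΛ hcard
          exact mul_le_mul_of_nonneg_right this hb0
      _ = _ := by ring
  have hcp : ((((univ : Finset (Fin d)).powerset.erase ∅).card : ℕ) : ℝ) ≤ 2 ^ d := by
    have h1 : ((univ : Finset (Fin d)).powerset.erase ∅).card ≤ 2 ^ d := by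
      refine (Finset.card_erase_le).trans ?_
      rw [Finset.card_powerset]; simp
    exact_mod_cast h1
  unfold btil
  calc _ ≤ ((univ.filter fun x => 1 / 4 < S.MM (List.finRange d) (ind (Bs 0)) x).card : ℝ) +
        ((((univ : Finset (Fin d)).powerset.erase ∅).biUnion fun V => (Lev d R V).biUnion fun K =>
          univ.filter fun x => 1 / (4 * 2 ^ d) <
        S.MM (List.finRange d) (fun y => |S.EU V K (S.chi V K * F V K) y|) x).card : ℝ) := by
        exact_mod_cast Finset.card_union_le _ _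
    _ ≤ 16 * 4 ^ d * (Bs 0).card + ∑ V ∈ (univ : Finset (Fin d)).powerset.erase ∅,
        (((Lev d R V).biUnion fun K => univ.filter fun x => 1 / (4 * 2 ^ d) <
        S.MM (List.finRange d) (fun y => |S.EU V K (S.chi V K * F V K) y|) x).card : ℝ) := by
        apply add_le_add h1
        exact_mod_cast Finset.card_biUnion_le
    _ ≤ 16 * 4 ^ d * (Bs 0).card + ∑ V ∈ (univ : Finset (Fin d)).powerset.erase ∅,
        4 ^ d * (4 * 2 ^ d) ^ 2 * (4 * 2 ^ d * (d : ℝ)) ^ d * (Bs 0).card := by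
        gcongr with V hV
        exact h2 V hV
    _ = 16 * 4 ^ d * (Bs 0).card + ((univ : Finset (Fin d)).powerset.erase ∅).card *
        (4 ^ d * (4 * 2 ^ d) ^ 2 * (4 * 2 ^ d * (d : ℝ)) ^ d * (Bs 0).card) := by
        rw [Finset.sum_const, nsmul_eq_mul]
    _ ≤ 16 * 4 ^ d * (Bs 0).card + 2 ^ d *
        (4 ^ d * (4 * 2 ^ d) ^ 2 * (4 * 2 ^ d * (d : ℝ)) ^ d * (Bs 0).card) := by
        gcongr
    _ = _ := by ring

private theorem chi_mul_WW {d R : ℕ} {X : Type} [Fintype X] (S : Sys d R X)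
    (F : Finset (Fin d) → (Fin d → ℕ) → X → ℝ) (K : Fin d → ℕ) :
    S.chi univ K * WW S F K = ∑ V ∈ (univ : Finset (Fin d)).powerset, S.chi V K * F V K := by
  classical
  unfold WW
  rw [Finset.mul_sum]
  apply Finset.sum_congr rfl
  intro V _
  ext x
  simp only [Pi.mul_apply]
  have h1 : S.chi univ K x = S.chi V K x * S.chi (univ \ V) K x := by
    unfold Sys.chi
    rw [mul_comm, Finset.prod_sdiff (Finset.subset_univ V)]
  have h2 := S.chi_sq (univ \ V) K x
  rw [h1]
  calc S.chi V K x * S.chi (univ \ V) K x * (S.chi (univ \ V) K x * F V K x)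
      = S.chi V K x * (S.chi (univ \ V) K x ^ 2) * F V K x := by ring
    _ = _ := by rw [h2, mul_one]

private theorem btil_bd {d R : ℕ} {X : Type} [Fintype X] (S : Sys d R X) {Bs : ℕ → Finset X}
    {F : Finset (Fin d) → (Fin d → ℕ) → X → ℝ} (hF : Fam S Bs F d)
    (K : Fin d → ℕ) (hK : ∀ s, K s < R) (x : X) (hx : x ∉ btil S (Bs 0) F) :
    1 / 2 ≤ S.EU univ K (S.chi univ K * WW S F K) x := by
  classical
  have hmem : (∅ : Finset (Fin d)) ∈ (univ : Finset (Fin d)).powerset :=
    Finset.mem_powerset.2 (Finset.empty_subset _)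
  unfold btil at hx
  rw [Finset.mem_union, not_or] at hx
  obtain ⟨hx1, hx2⟩ := hx
  rw [mem_filter, not_and, not_lt] at hx1
  have h1 : S.EU univ K (ind (Bs 0)) x ≤ 1 / 4 :=
    (S.EU_le_MM K (fun s => (hK s).le) (ind (Bs 0)) (List.finRange d) univ
      (fun s _ => List.mem_finRange s) x).trans (hx1 (mem_univ x))
  have h2 : ∀ V ∈ (univ : Finset (Fin d)).powerset.erase ∅,
      |S.EU univ K (S.chi V K * F V K) x| ≤ 1 / (4 * 2 ^ d) := by
    intro V hV
    have hmaskL : mask V K ∈ Lev d R V := by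
      rw [mem_Lev]
      refine ⟨fun s hs => ?_, fun s hs => ?_⟩
      · rw [mask_mem hs]; exact hK s
      · simp [mask, hs]
    have hx3 : ¬ (1 / (4 * 2 ^ d) < S.MM (List.finRange d)
        (fun y => |S.EU V (mask V K) (S.chi V (mask V K) * F V (mask V K)) y|) x) := by
      intro hcon
      apply hx2
      rw [Finset.mem_biUnion]
      refine ⟨V, hV, ?_⟩
      rw [Finset.mem_biUnion]
      exact ⟨mask V K, hmaskL, by rw [mem_filter]; exact ⟨mem_univ x, hcon⟩⟩
    have e1 : S.EU V (mask V K) (S.chi V (mask V K) * F V (mask V K)) =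
        S.EU V K (S.chi V K * F V K) := by
      rw [S.EU_congr (fun s hs => mask_mem hs), S.chi_congr (fun s hs => mask_mem hs),
        hF.dep V (mask V K) K (fun s hs => mask_mem hs)]
    rw [e1, not_lt] at hx3
    have hdisj : Disjoint (univ \ V) V := Finset.sdiff_disjoint
    have hun : (univ \ V) ∪ V = univ := Finset.sdiff_union_of_subset (Finset.subset_univ V)
    have e2 : S.EU univ K (S.chi V K * F V K) =
        S.EU (univ \ V) K (S.EU V K (S.chi V K * F V K)) := by
      rw [← EU_union S hdisj, hun]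
    rw [e2]
    refine (S.EU_abs_le K _ x).trans ?_
    refine (S.EU_le_MM K (fun s => (hK s).le) _ (List.finRange d) (univ \ V)
      (fun s _ => List.mem_finRange s) x).trans hx3
  have h3 : ∑ V ∈ (univ : Finset (Fin d)).powerset.erase ∅,
      |S.EU univ K (S.chi V K * F V K) x| ≤ 1 / 4 := by
    have hcp : ((((univ : Finset (Fin d)).powerset.erase ∅).card : ℕ) : ℝ) ≤ 2 ^ d := by
      have h1 : ((univ : Finset (Fin d)).powerset.erase ∅).card ≤ 2 ^ d := by
        refine (Finset.card_erase_le).trans ?_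
        rw [Finset.card_powerset]; simp
      exact_mod_cast h1
    calc _ ≤ ∑ _V ∈ (univ : Finset (Fin d)).powerset.erase ∅, (1 / (4 * 2 ^ d) : ℝ) :=
          Finset.sum_le_sum h2
      _ = (((univ : Finset (Fin d)).powerset.erase ∅).card : ℝ) * (1 / (4 * 2 ^ d)) := by
          rw [Finset.sum_const, nsmul_eq_mul]
      _ ≤ 2 ^ d * (1 / (4 * 2 ^ d)) := by gcongr
      _ = 1 / 4 := by field_simp
  have h4 : S.EU univ K (S.chi univ K * WW S F K) x = 1 - S.EU univ K (ind (Bs 0)) x +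
      ∑ V ∈ (univ : Finset (Fin d)).powerset.erase ∅, S.EU univ K (S.chi V K * F V K) x := by
    rw [chi_mul_WW, map_sum, Finset.sum_apply, ← Finset.add_sum_erase _ _ hmem, hF.zero,
      S.chi_empty, one_mul, map_sub]
    have e : S.EU univ K (1 : X → ℝ) = fun _ => 1 := S.EU_const K 1
    rw [e]
    rfl
  have h5 := Finset.abs_sum_le_sum_abs
    (fun V => S.EU univ K (S.chi V K * F V K) x) ((univ : Finset (Fin d)).powerset.erase ∅)
  have h6 := (abs_le.mp (h5.trans h3)).1
  rw [h4]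
  linarith

/-- the balanced functions of helper730, for an arbitrary exceptional set `B` -/
theorem testfun (d : ℕ) (hd : 1 ≤ d) : ∃ C : ℝ, 0 < C ∧ ∀ (R : ℕ) (X : Type) [Fintype X]
    (S : Sys d R X) (B : Finset X),
    ∃ (W : (Fin d → ℕ) → X → ℝ) (Bt : Finset X),
      (∀ K, (∀ s, K s < R) → ∀ x ∈ B, W K x = 0) ∧
      (∀ K, (∀ s, K s < R) → ∀ s, S.E s (K s) (W K) = 0) ∧
      (Bt.card : ℝ) ≤ C * B.card ∧
      (∀ K, (∀ s, K s < R) → ∀ x, x ∉ Bt → 1/2 ≤ S.EU univ K (S.chi univ K * W K) x) ∧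
      (∀ (g : X → ℝ) (M : ℝ), 0 ≤ M → (∀ x ∈ B, g x = 0) → (∀ x, |g x| ≤ M) →
        ∑ K ∈ Lev d R univ, nsq (S.EU univ K (g * W K)) ≤ C * (nsq g + M^2 * B.card)) := by
  have hd1 : (1 : ℝ) ≤ d := by exact_mod_cast hd
  have h2d : (1 : ℝ) ≤ 2 ^ d := one_le_pow₀ (by norm_num)
  set L : ℝ := 4 * d * 2 ^ d * 2 ^ d with hLdef
  have hL1 : 1 ≤ L := by
    have : (1 : ℝ) ≤ d * 2 ^ d := by nlinarith
    have h3 : (1 : ℝ) ≤ d * 2 ^ d * 2 ^ d := by nlinarith
    nlinarith
  have hL0 : 0 < L := by linarith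
  have hL : 4 * (d : ℝ) * 2 ^ d * (2 ^ d / L) ≤ 1 := by
    rw [← mul_div_assoc, div_le_one hL0]
  set t : ℝ := 1 / 2 / L ^ d with htdef
  have ht : 0 < t := by positivity
  have ht1 : t < 1 := by
    rw [htdef, div_lt_one (by positivity)]
    have : (1 : ℝ) ≤ L ^ d := one_le_pow₀ hL1
    linarith
  set κ : ℝ := (4 ^ d / t ^ 2) ^ d with hκ
  have hκ0 : 0 < κ := by positivity
  set P : ℝ := (4 * 2 ^ d * d) ^ d with hP
  have hP0 : 0 < P := by positivity
  set Q : ℝ := 16 * 4 ^ d + 2 ^ d * (4 ^ d * (4 * 2 ^ d) ^ 2 * P) with hQ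
  have hQ0 : 0 < Q := by positivity
  refine ⟨2 ^ d * (2 ^ d * (1 + P * κ)) + Q * κ, by positivity, ?_⟩
  intro R X _ S B
  obtain ⟨Bs, hBs0, hBs1, hBs2⟩ := chain S B t ht ht1
  obtain ⟨F, hF⟩ := exists_fam S L hL1 hL Bs hBs1 d le_rfl
  have hmono : ∀ q, q < d → ∀ x ∈ Bs (q + 1), x ∈ Bs q := fun q hq => (hBs1 q hq).1
  have hB0 : (0 : ℝ) ≤ B.card := Nat.cast_nonneg _
  have hb : ((Bs 0).card : ℝ) ≤ κ * B.card := hBs2
  refine ⟨WW S F, btil S (Bs 0) F, ?_, ?_, ?_, ?_, ?_⟩
  · intro K hK x hx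
    unfold WW
    rw [Finset.sum_apply]
    apply Finset.sum_eq_zero
    intro V _
    rw [Pi.mul_apply, fam_B S hF hmono K (fun s => (hK s).le) V x (by rw [hBs0]; exact hx),
      mul_zero]
  · intro K hK s
    unfold WW
    apply E_whole S F K univ s (Finset.mem_univ s)
    intro T _ hsT
    exact hF.bal T K (by simpa using Finset.card_le_univ T) (fun s => (hK s).le) s hsT
  · refine (btil_card S hF hd).trans ?_
    calc Q * (Bs 0).card ≤ Q * (κ * B.card) := mul_le_mul_of_nonneg_left hb hQ0.le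
      _ ≤ _ := by
        have h1 : 0 ≤ 2 ^ d * (2 ^ d * (1 + P * κ)) * B.card := by positivity
        nlinarith
  · intro K hK x hx
    exact btil_bd S hF K hK x hx
  · intro g M hM hgB hg
    refine (pairing' S hF hd g M hg).trans ?_
    have h1 : M ^ 2 * (P * (Bs 0).card) ≤ M ^ 2 * (P * (κ * B.card)) := by gcongr
    have h0 := nsq_nonneg g
    have h2 : 0 ≤ M ^ 2 * B.card := by positivity
    have h3 : nsq g + M ^ 2 * (P * (Bs 0).card) ≤ (1 + P * κ) * (nsq g + M ^ 2 * B.card) := by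
      have h4 : 0 ≤ P * κ * nsq g := by positivity
      nlinarith
    calc 2 ^ d * (2 ^ d * (nsq g + M ^ 2 * (P * (Bs 0).card)))
        ≤ 2 ^ d * (2 ^ d * ((1 + P * κ) * (nsq g + M ^ 2 * B.card))) := by gcongr
      _ = 2 ^ d * (2 ^ d * (1 + P * κ)) * (nsq g + M ^ 2 * B.card) := by ring
      _ ≤ _ := by
        have h5 : 0 ≤ Q * κ * (nsq g + M ^ 2 * B.card) := by positivity
        nlinarith

end Pool.Agent.H402R2.BX
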