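import Pool.Agent.H402R2.BX.Weak
import Pool.Agent.H402R2.BX.Layer

set_option autoImplicit false
open Finset
namespace Pool.Agent.H402R2.BX
open Pool.Agent.H730R2.LD

/-- `L¹` inequality for the square function of the top layer of a hyperbolic cross -/
theorem top (d : ℕ) (hd : 1 ≤ d) : ∃ C : ℝ, 0 < C ∧ ∀ (R : ℕ) (X : Type) [Fintype X]
    (S : Sys d R X) (h : X → ℝ) (n : ℕ),
    (∀ L : Fin d → ℕ, (∀ s, L s < R) → n < ∑ s, L s → co S L h = 0) →
    ∑ x, Real.sqrt (∑ K ∈ (Lev d R univ).filter (fun K => ∑ s, K s = n), (co S K h x)^2) ≤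
      C * ∑ x, |h x| := by
  obtain ⟨C, hC, hw⟩ := weak d hd
  refine ⟨16 * C, by positivity, fun R X _ S h n hh => ?_⟩
  exact layer C hC _ h (fun x => Real.sqrt_nonneg _) (fun t ht => hw R X S h n hh t ht)

end Pool.Agent.H402R2.BX
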