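import Pool.Agent.H402R2.BX.OpA
import Pool.Agent.Helper643.Bern.T17a
import Pool.Agent.Helper643.Bern.T17b

set_option autoImplicit false
open Finset Matrix
namespace Pool.Agent.H402R2.BX
variable {d : ℕ}

private theorem c5_kill (M : ℕ) (S : Finset (Fin d → ℤ)) (c : (Fin d → ℤ) → ℂ)
    (A : Fin d → Mat M)
    (h : ∀ k ∈ S, ∃ s, A s *ᵥ BernT.ST17a.ev M (k s) = 0) : opA A (tp M S c) = 0 := by
  have h1 : tp M S c = ∑ k ∈ S, c k • (fun x : Gr d M => ∏ s, BernT.ST17a.ev M (k s) (x s)) := by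
    funext x
    simp only [tp, Finset.sum_apply, Pi.smul_apply, smul_eq_mul, BernT.ST17a.ev]
  rw [h1, opA_sum]
  refine Finset.sum_eq_zero fun k hk => ?_
  obtain ⟨s, hs⟩ := h k hk
  rw [opA_smul, opA_prod]
  funext x
  show c k • (∏ s, (A s *ᵥ BernT.ST17a.ev M (k s)) (x s)) = 0
  rw [Finset.prod_eq_zero (Finset.mem_univ s), smul_zero]
  rw [hs]
  rfl

private theorem c5_le (k : Fin d → ℤ) (hk : ∀ s, k s ≠ 0) (T : Finset (Fin d)) :
    ∏ s ∈ T, |k s| ≤ ∏ s, |k s| := by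
  rw [← Finset.prod_sdiff (Finset.subset_univ T)]
  have h1 : (1:ℤ) ≤ ∏ s ∈ univ \ T, |k s| := by
    have : ∏ s ∈ univ \ T, (1:ℤ) ≤ ∏ s ∈ univ \ T, |k s| :=
      Finset.prod_le_prod (fun _ _ => zero_le_one) (fun s _ => Int.one_le_abs (hk s))
    simpa using this
  have h2 : (0:ℤ) ≤ ∏ s ∈ T, |k s| := Finset.prod_nonneg fun _ _ => abs_nonneg _
  nlinarith

theorem specTrig (M n : ℕ) (hM : n + 4 ≤ M) (S : Finset (Fin d → ℤ)) (c : (Fin d → ℤ) → ℂ)
    (hS : ∀ k ∈ S, (∀ s, k s ≠ 0) ∧ ∏ s, |k s| ≤ 2^n) : Spec n (tp M S c) := by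
  have hb : ∀ k ∈ S, ∀ s, |k s| ≤ 2^n := by
    intro k hk s
    have := c5_le k (hS k hk).1 {s}
    rw [Finset.prod_singleton] at this
    exact this.trans (hS k hk).2
  have hn : (2:ℤ)^n * 16 ≤ 2^M := by
    calc (2:ℤ)^n * 16 = 2^(n+4) := by ring
      _ ≤ 2^M := pow_le_pow_right₀ (by norm_num) hM
  have hpos : (0:ℤ) < 2^n := by positivity
  refine ⟨?_, ?_⟩
  · intro s
    rw [opS_eq]
    refine c5_kill M S c _ fun k hk => ⟨s, ?_⟩
    rw [Function.update_self]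
    refine BernT.ST17a.Em_ev M (k s) ((hS k hk).1 s) ?_
    have := hb k hk s
    linarith
  · intro T p hT hp hsum
    refine c5_kill M S c _ fun k hk => ?_
    -- find s in T with small frequency
    obtain ⟨s, hsT, hs⟩ : ∃ s ∈ T, |k s| ≤ (2:ℤ)^(p s) := by
      by_contra hcon
      push Not at hcon
      have h1 : ∏ s ∈ T, (2:ℤ)^(p s) < ∏ s ∈ T, |k s| :=
        Finset.prod_lt_prod_of_nonempty (fun s _ => by positivity) hcon hT
      rw [Finset.prod_pow_eq_pow_sum] at h1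
      have h2 : (2:ℤ)^n ≤ 2^(∑ s ∈ T, p s) := pow_le_pow_right₀ (by norm_num) hsum
      have h3 := c5_le k (hS k hk).1 T
      have h4 := (hS k hk).2
      linarith
    refine ⟨s, ?_⟩
    rw [if_pos hsT]
    have h5 : |k s| + 2^(p s+1) < (2:ℤ)^M := by
      have h6 : (2:ℤ)^(p s + 1) * 2 ≤ 2^M := by
        calc (2:ℤ)^(p s + 1) * 2 = 2^(p s + 2) := by ring
          _ ≤ 2^M := pow_le_pow_right₀ (by norm_num) (hp s hsT)
      have h7 := hb k hk s
      linarith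
    rw [Matrix.sub_mulVec, Matrix.one_mulVec, BernT.ST17a.Vm_ev M (p s) (k s) h5,
      BernT.ST17a.Vs_one (p s) (k s) hs]
    simp

end Pool.Agent.H402R2.BX
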