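import Pool.Agent.H402R2.BX.OpA
import Pool.Agent.H402R2.BX.KK

set_option autoImplicit false
open Finset Matrix
namespace Pool.Agent.H402R2.BX
variable {d M : ℕ}

/-- vector valued square function bound in the coordinate `s` -/
theorem V1 (T : ℕ → Mat M) (γ : ℝ) (hγ : 0 ≤ γ) (hT : SqS M T γ) (s : Fin d)
    {ι : Type} [Fintype ι] (ℓ : ι → ℕ) (G : ι → Gr d M → ℂ)
    (hG : ∀ i, opS s (BernT.Dm M (ℓ i)) (G i) = G i) :
    ∑ x, Real.sqrt (∑ i, ‖opS s (T (ℓ i)) (G i) x‖^2) ≤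
      2 * γ * ∑ x, Real.sqrt (∑ i, ‖G i x‖^2) := sorry

end Pool.Agent.H402R2.BX
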