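import Pool.Agent.H402R2.BX.OpA
import Pool.Agent.H402R2.BX.KK

set_option autoImplicit false
open Finset Matrix
namespace Pool.Agent.H402R2.BX
variable {d M : ℕ}

/-- vector valued sum bound in the coordinate `s` -/
theorem V2 (T : ℕ → Mat M) (γ : ℝ) (hγ : 0 ≤ γ) (hT : SmS M T γ) (s : Fin d)
    {ι υ : Type} [Fintype ι] [Fintype υ] [DecidableEq υ] (ℓ : ι → ℕ) (π : ι → υ)
    (hinj : ∀ i j, π i = π j → ℓ i = ℓ j → i = j) (G : ι → Gr d M → ℂ)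
    (hG : ∀ i, opS s (BernT.Dm M (ℓ i)) (G i) = G i) :
    ∑ x, Real.sqrt (∑ u, ‖∑ i ∈ univ.filter (fun i => π i = u), opS s (T (ℓ i)) (G i) x‖^2) ≤
      2 * γ * ∑ x, Real.sqrt (∑ i, ‖G i x‖^2) := sorry

end Pool.Agent.H402R2.BX
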