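import Pool.Agent.H402R2.BX.TestF

set_option autoImplicit false
open Finset
namespace Pool.Agent.H402R2.BX
open Pool.Agent.H730R2.LD

/-- weak type estimate for the square function of the top layer -/
theorem weak (d : ℕ) (hd : 1 ≤ d) : ∃ C : ℝ, 0 < C ∧ ∀ (R : ℕ) (X : Type) [Fintype X]
    (S : Sys d R X) (h : X → ℝ) (n : ℕ),
    (∀ L : Fin d → ℕ, (∀ s, L s < R) → n < ∑ s, L s → co S L h = 0) → ∀ t : ℝ, 0 < t →
    ((univ.filter (fun x => t <
        Real.sqrt (∑ K ∈ (Lev d R univ).filter (fun K => ∑ s, K s = n), (co S K h x)^2))).card : ℝ) ≤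
      C * ((univ.filter (fun x => t < |h x|)).card +
        (t^2)⁻¹ * ∑ x ∈ univ.filter (fun x => |h x| ≤ t), (h x)^2) := by
  classical
  obtain ⟨C, hC, hT⟩ := testfun d hd
  refine ⟨5 * C, by positivity, ?_⟩
  intro R X _ S h n hh t ht
  set B : Finset X := univ.filter (fun x => t < |h x|) with hB
  obtain ⟨W, Bt, hW0, hWE, hBt, hhalf, hbes⟩ := hT R X S B
  set g : X → ℝ := fun x => if t < |h x| then 0 else h x with hg
  set LL := (Lev d R univ).filter (fun K => ∑ s, K s = n) with hLL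
  have hgB : ∀ x ∈ B, g x = 0 := by
    intro x hx
    rw [hB, Finset.mem_filter] at hx
    simp only [hg, if_pos hx.2]
  have hgt : ∀ x, |g x| ≤ t := by
    intro x
    simp only [hg]
    split_ifs with hx
    · simp [ht.le]
    · exact not_lt.1 hx
  have hb := hbes g t ht.le hgB hgt
  -- nsq g
  have hnsq : nsq g = ∑ x ∈ univ.filter (fun x => |h x| ≤ t), (h x)^2 := by
    unfold nsq
    rw [Finset.sum_filter]
    apply Finset.sum_congr rfl
    intro x _
    simp only [hg]
    by_cases hx : t < |h x|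
    · rw [if_pos hx, if_neg (not_le.2 hx)]; simp
    · rw [if_neg hx, if_pos (not_lt.1 hx)]
  -- pointwise
  have hpt : ∀ K ∈ LL, ∀ x, x ∉ Bt → (co S K h x)^2 ≤ 4 * (S.EU univ K (g * W K) x)^2 := by
    intro K hK x hx
    rw [hLL, Finset.mem_filter, mem_Lev] at hK
    obtain ⟨⟨hK1, _⟩, hKn⟩ := hK
    have hKR : ∀ s, K s < R := fun s => hK1 s (Finset.mem_univ s)
    have e1 : h * W K = g * W K := by
      ext y
      simp only [Pi.mul_apply, hg]
      split_ifs with hy
      · rw [hW0 K hKR y (by rw [hB, Finset.mem_filter]; exact ⟨Finset.mem_univ y, hy⟩)]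
        ring
      · rfl
    have e2 := top_id S n h hh K hKR hKn (W K) (hWE K hKR)
    rw [e1] at e2
    have e3 : S.EU univ K (g * W K) x = co S K h x * S.EU univ K (S.chi univ K * W K) x := by
      rw [e2]; rfl
    rw [e3]
    have h1 := hhalf K hKR x hx
    have h2 : 1 ≤ 4 * (S.EU univ K (S.chi univ K * W K) x)^2 := by nlinarith
    have h3 : 0 ≤ (co S K h x)^2 := sq_nonneg _
    nlinarith [mul_le_mul_of_nonneg_left h2 h3]
  -- counting
  set G := univ.filter (fun x => t <
        Real.sqrt (∑ K ∈ LL, (co S K h x)^2)) with hG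
  have hsum : (t^2) * ((G.filter (fun x => x ∉ Bt)).card : ℝ) ≤
      4 * ∑ K ∈ Lev d R univ, nsq (S.EU univ K (g * W K)) := by
    have h1 : ∀ x ∈ G.filter (fun x => x ∉ Bt), t^2 ≤ ∑ K ∈ LL, 4 * (S.EU univ K (g * W K) x)^2 := by
      intro x hx
      rw [Finset.mem_filter, hG, Finset.mem_filter] at hx
      obtain ⟨⟨_, h2⟩, h3⟩ := hx
      have h4 : t^2 ≤ ∑ K ∈ LL, (co S K h x)^2 := by
        have h5 : 0 ≤ ∑ K ∈ LL, (co S K h x)^2 := Finset.sum_nonneg fun _ _ => sq_nonneg _
        have h6 := Real.sq_sqrt h5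
        nlinarith [Real.sqrt_nonneg (∑ K ∈ LL, (co S K h x)^2)]
      exact h4.trans (Finset.sum_le_sum fun K hK => hpt K hK x h3)
    calc (t^2) * ((G.filter (fun x => x ∉ Bt)).card : ℝ) =
        ∑ x ∈ G.filter (fun x => x ∉ Bt), t^2 := by rw [Finset.sum_const, nsmul_eq_mul]; ring
      _ ≤ ∑ x ∈ G.filter (fun x => x ∉ Bt), ∑ K ∈ LL, 4 * (S.EU univ K (g * W K) x)^2 :=
          Finset.sum_le_sum h1
      _ ≤ ∑ x, ∑ K ∈ LL, 4 * (S.EU univ K (g * W K) x)^2 := by
          apply Finset.sum_le_sum_of_subset_of_nonneg (Finset.subset_univ _)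
          intro x _ _
          exact Finset.sum_nonneg fun _ _ => by positivity
      _ = 4 * ∑ K ∈ LL, nsq (S.EU univ K (g * W K)) := by
          rw [Finset.sum_comm, Finset.mul_sum]
          apply Finset.sum_congr rfl
          intro K _
          unfold nsq
          rw [Finset.mul_sum]
      _ ≤ _ := by
          apply mul_le_mul_of_nonneg_left _ (by norm_num)
          apply Finset.sum_le_sum_of_subset_of_nonneg (Finset.filter_subset _ _)
          intro K _ _
          exact nsq_nonneg _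
  have hcard : (G.card : ℝ) ≤ Bt.card + (G.filter (fun x => x ∉ Bt)).card := by
    have h1 : G ⊆ Bt ∪ G.filter (fun x => x ∉ Bt) := by
      intro x hx
      by_cases hxB : x ∈ Bt
      · exact Finset.mem_union_left _ hxB
      · exact Finset.mem_union_right _ (Finset.mem_filter.2 ⟨hx, hxB⟩)
    exact_mod_cast (Finset.card_le_card h1).trans (Finset.card_union_le _ _)
  have ht2 : 0 < t^2 := by positivity
  have h7 : ((G.filter (fun x => x ∉ Bt)).card : ℝ) ≤ 4 * C * (t^2)⁻¹ * nsq g + 4 * C * B.card := by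
    have h8 : (t^2) * ((G.filter (fun x => x ∉ Bt)).card : ℝ) ≤
        4 * (C * (nsq g + t^2 * B.card)) := hsum.trans (by linarith)
    have h9 : ((G.filter (fun x => x ∉ Bt)).card : ℝ) =
        (t^2)⁻¹ * ((t^2) * ((G.filter (fun x => x ∉ Bt)).card : ℝ)) := by
      field_simp
    rw [h9]
    calc (t^2)⁻¹ * ((t^2) * ((G.filter (fun x => x ∉ Bt)).card : ℝ)) ≤
        (t^2)⁻¹ * (4 * (C * (nsq g + t^2 * B.card))) :=
          mul_le_mul_of_nonneg_left h8 (by positivity)
      _ = _ := by field_simp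
  rw [← hnsq]
  have h10 : 0 ≤ nsq g := nsq_nonneg g
  have h11 : 0 ≤ (t^2)⁻¹ * nsq g := by positivity
  have h12 : (0:ℝ) ≤ B.card := Nat.cast_nonneg _
  nlinarith [mul_nonneg hC.le h11, mul_nonneg hC.le h12]

end Pool.Agent.H402R2.BX
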